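import Mathlib

/-! The forcing: names for coordinates, conditions, order. -/

set_option linter.unusedVariables false

namespace Pool.Agent.MP63050e

/-- Column values: finitely supported integer sequences. -/
abbrev VV : Type := ℕ →₀ ℤ

/-- Data of a condition at a coordinate. -/
structure Dat (κ : Type) where
  /-- the finite set of indices -/
  a : Finset κ
  /-- the number of decided columns -/
  N : ℕ
  /-- the working part -/
  ψ : κ → ℕ → VV

/-- Indices of the conditions occurring in a name. -/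
abbrev QQ (κ : Type) : Type := κ × κ × ℕ × VV × ℕ

/-- Coordinates: the base coordinate, and coordinates given by (nice) names. -/
inductive Nm (κ : Type) : Type
  | base : Nm κ
  | mk (on : QQ κ → Prop) (len : QQ κ → ℕ) (idx : QQ κ → ℕ → Nm κ) (dat : QQ κ → ℕ → Dat κ) : Nm κ

variable {κ : Type}

/-- Empty data. -/
def Dat.empty : Dat κ := ⟨∅, 0, fun _ _ => 0⟩

/-- Conditions. -/
structure Cond (κ : Type) where
  /-- the data at the coordinates -/
  fn : Nm κ → Dat κ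
  fin : {χ | (fn χ).a.Nonempty}.Finite

open Classical in
/-- The function part of the condition attached to a name and an index. -/
noncomputable def decodeFn (len : ℕ) (idx : ℕ → Nm κ) (dat : ℕ → Dat κ) (χ : Nm κ) : Dat κ :=
  if h : ∃ l, l < len ∧ idx l = χ then dat (Nat.find h) else Dat.empty

theorem decodeFn_mem {len : ℕ} {idx : ℕ → Nm κ} {dat : ℕ → Dat κ} {χ : Nm κ}
    (h : (decodeFn len idx dat χ).a.Nonempty) : ∃ l, l < len ∧ idx l = χ := by
  classical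
  by_contra hne
  rw [decodeFn, dif_neg hne] at h
  simp [Dat.empty] at h

/-- The condition given by a finite list of data. -/
noncomputable def decode (len : ℕ) (idx : ℕ → Nm κ) (dat : ℕ → Dat κ) : Cond κ where
  fn := decodeFn len idx dat
  fin := by
    refine Set.Finite.subset (Set.Finite.image idx (Set.finite_Iio len)) ?_
    intro χ hχ
    obtain ⟨l, hl, rfl⟩ := decodeFn_mem hχ
    exact ⟨l, hl, rfl⟩

/-- The index `q` is active in the name. -/
def Nm.on : Nm κ → QQ κ → Prop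
  | .base, _ => False
  | .mk on _ _ _, q => on q

/-- The condition of a name at an index. -/
noncomputable def Nm.cond : Nm κ → QQ κ → Cond κ
  | .base, _ => decode 0 (fun _ => .base) (fun _ => Dat.empty)
  | .mk _ len idx dat, q => decode (len q) (idx q) (dat q)

/-- Every condition is decoded from some list. -/
theorem exists_decode (p : Cond κ) : ∃ (len : ℕ) (idx : ℕ → Nm κ) (dat : ℕ → Dat κ),
    (∀ χ, (decode len idx dat).fn χ = if (p.fn χ).a.Nonempty then p.fn χ else Dat.empty) ∧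
      (∀ l, l < len → ((p.fn (idx l)).a.Nonempty)) := by
  classical
  obtain ⟨T, hT⟩ : ∃ T : Finset (Nm κ), ∀ χ, χ ∈ T ↔ (p.fn χ).a.Nonempty :=
    ⟨p.fin.toFinset, fun χ => by simp⟩
  let L := T.toList
  refine ⟨L.length, fun l => L.getD l .base, fun l => p.fn (L.getD l .base), ?_, ?_⟩
  · intro χ
    change decodeFn L.length (fun l => L.getD l Nm.base) (fun l => p.fn (L.getD l Nm.base)) χ = _
    by_cases hχ : (p.fn χ).a.Nonempty
    · rw [if_pos hχ]
      have hmem : χ ∈ L := by simp [L, hT, hχ]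
      obtain ⟨l, hl, hl'⟩ := List.getElem_of_mem hmem
      have hex : ∃ l, l < L.length ∧ L.getD l .base = χ :=
        ⟨l, hl, by rw [List.getD_eq_getElem _ _ hl]; exact hl'⟩
      rw [decodeFn, dif_pos hex]
      rw [(Nat.find_spec hex).2]
    · rw [if_neg hχ, decodeFn, dif_neg]
      rintro ⟨l, hl, hl'⟩
      apply hχ
      rw [← hT, ← hl']
      rw [List.getD_eq_getElem _ _ hl]
      exact Finset.mem_toList.1 (List.getElem_mem hl)
  · intro l hl
    rw [← hT]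
    simp only
    rw [List.getD_eq_getElem _ _ hl]
    exact Finset.mem_toList.1 (List.getElem_mem hl)

/-- Rank of a coordinate. -/
noncomputable def Nm.rk : Nm κ → Ordinal.{0}
  | .base => 0
  | .mk _ _ idx _ => max 1 (⨆ p : QQ κ × ℕ, Order.succ (Nm.rk (idx p.1 p.2)))

theorem Nm.rk_mk_pos (on : QQ κ → Prop) (len : QQ κ → ℕ) (idx : QQ κ → ℕ → Nm κ)
    (dat : QQ κ → ℕ → Dat κ) : 0 < (Nm.mk on len idx dat).rk := by
  rw [Nm.rk]
  exact lt_of_lt_of_le zero_lt_one (le_max_left _ _)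

theorem Nm.rk_idx_lt (on : QQ κ → Prop) (len : QQ κ → ℕ) (idx : QQ κ → ℕ → Nm κ)
    (dat : QQ κ → ℕ → Dat κ) (q : QQ κ) (l : ℕ) :
    (idx q l).rk < (Nm.mk on len idx dat).rk := by
  rw [Nm.rk]
  refine lt_of_lt_of_le (Order.lt_succ _) (le_trans ?_ (le_max_right _ _))
  exact Ordinal.le_iSup (fun p : QQ κ × ℕ => Order.succ (Nm.rk (idx p.1 p.2))) (q, l)

theorem Nm.rk_cond_lt (χ : Nm κ) (q : QQ κ) (χ' : Nm κ) (h : ((χ.cond q).fn χ').a.Nonempty) :
    χ'.rk < χ.rk := by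
  cases χ with
  | base =>
    obtain ⟨l, hl, rfl⟩ := decodeFn_mem h
    exact absurd hl (Nat.not_lt_zero l)
  | mk on len idx dat =>
    obtain ⟨l, hl, rfl⟩ := decodeFn_mem h
    exact Nm.rk_idx_lt _ _ _ _ _ _

namespace Cond

/-- index set at a coordinate -/
def a (p : Cond κ) (χ : Nm κ) : Finset κ := (p.fn χ).a
/-- decided length at a coordinate -/
def N (p : Cond κ) (χ : Nm κ) : ℕ := (p.fn χ).N
/-- values at a coordinate -/
def ψ (p : Cond κ) (χ : Nm κ) : κ → ℕ → VV := (p.fn χ).ψ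

/-- The value of the generic chain: `f_α(i)`. -/
def F (p : Cond κ) (α : κ) (i : ℕ) : ℕ := (p.ψ .base α i 0).toNat

end Cond

variable [LinearOrder κ]

/-- The order on conditions. `Le q p` means that `q` extends `p`. -/
inductive Le (q : Cond κ) : Cond κ → Prop
  | intro (p : Cond κ) (v : Nm κ → κ → κ → ℕ → VV) (m : Nm κ → κ → κ → ℕ → ℕ)
    (ha : ∀ χ, p.a χ ⊆ q.a χ)
    (hN : ∀ χ, (p.a χ).Nonempty → p.N χ ≤ q.N χ)
    (hψ : ∀ χ α i, α ∈ p.a χ → i < p.N χ → q.ψ χ α i = p.ψ χ α i)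
    (hb : ∀ α β i, α ∈ p.a .base → β ∈ p.a .base → α < β → p.N .base ≤ i → i < q.N .base →
      q.F α i < q.F β i)
    (hon : ∀ χ α β i, χ ≠ .base → α ∈ p.a χ → β ∈ p.a χ → α < β → p.N χ ≤ i → i < q.N χ →
      χ.on (α, β, i, v χ α β i, m χ α β i))
    (hle : ∀ χ α β i, χ ≠ .base → α ∈ p.a χ → β ∈ p.a χ → α < β → p.N χ ≤ i → i < q.N χ →
      Le q (χ.cond (α, β, i, v χ α β i, m χ α β i)))
    (hba : ∀ χ α β i, χ ≠ .base → α ∈ p.a χ → β ∈ p.a χ → α < β → p.N χ ≤ i → i < q.N χ →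
      α ∈ q.a .base ∧ β ∈ q.a .base ∧ i < q.N .base)
    (hv : ∀ χ α β i, χ ≠ .base → α ∈ p.a χ → β ∈ p.a χ → α < β → p.N χ ≤ i → i < q.N χ →
      ∀ j, j < q.F α i → j < q.F β i → q.ψ χ β i j - q.ψ χ α i j = v χ α β i j) : Le q p

/-- `q` decides the value of the name `χ` at `(α, β, i)` to be `v`. -/
def Dec (χ : Nm κ) (q : Cond κ) (α β : κ) (i : ℕ) (v : VV) : Prop :=
  ∃ m, χ.on (α, β, i, v, m) ∧ Le q (χ.cond (α, β, i, v, m))

theorem le_iff {q p : Cond κ} : Le q p ↔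
    (∀ χ, p.a χ ⊆ q.a χ) ∧ (∀ χ, (p.a χ).Nonempty → p.N χ ≤ q.N χ) ∧
    (∀ χ α i, α ∈ p.a χ → i < p.N χ → q.ψ χ α i = p.ψ χ α i) ∧
    (∀ α β i, α ∈ p.a .base → β ∈ p.a .base → α < β → p.N .base ≤ i → i < q.N .base →
      q.F α i < q.F β i) ∧
    (∀ χ α β i, χ ≠ .base → α ∈ p.a χ → β ∈ p.a χ → α < β → p.N χ ≤ i → i < q.N χ →
      (α ∈ q.a .base ∧ β ∈ q.a .base ∧ i < q.N .base) ∧
      ∃ v, Dec χ q α β i v ∧
        ∀ j, j < q.F α i → j < q.F β i → q.ψ χ β i j - q.ψ χ α i j = v j) := by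
  classical
  constructor
  · rintro ⟨_, v, m, ha, hN, hψ, hb, hon, hle, hba, hv⟩
    refine ⟨ha, hN, hψ, hb, fun χ α β i h1 h2 h3 h4 h5 h6 => ⟨hba χ α β i h1 h2 h3 h4 h5 h6,
      v χ α β i, ⟨m χ α β i, hon χ α β i h1 h2 h3 h4 h5 h6, hle χ α β i h1 h2 h3 h4 h5 h6⟩,
      hv χ α β i h1 h2 h3 h4 h5 h6⟩⟩
  · rintro ⟨ha, hN, hψ, hb, hr⟩
    have H : ∀ χ α β i, ∃ vm : VV × ℕ, (χ ≠ Nm.base → α ∈ p.a χ → β ∈ p.a χ → α < β →
        p.N χ ≤ i → i < q.N χ → χ.on (α, β, i, vm.1, vm.2) ∧ Le q (χ.cond (α, β, i, vm.1, vm.2)) ∧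
        ∀ j, j < q.F α i → j < q.F β i → q.ψ χ β i j - q.ψ χ α i j = vm.1 j) := by
      intro χ α β i
      by_cases hc : χ ≠ Nm.base ∧ α ∈ p.a χ ∧ β ∈ p.a χ ∧ α < β ∧ p.N χ ≤ i ∧ i < q.N χ
      · obtain ⟨h1, h2, h3, h4, h5, h6⟩ := hc
        obtain ⟨-, v, ⟨m, hm1, hm2⟩, hj⟩ := hr χ α β i h1 h2 h3 h4 h5 h6
        exact ⟨(v, m), fun _ _ _ _ _ _ => ⟨hm1, hm2, hj⟩⟩
      · refine ⟨(0, 0), fun h1 h2 h3 h4 h5 h6 => absurd ⟨h1, h2, h3, h4, h5, h6⟩ hc⟩
    choose vm hvm using H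
    refine Le.intro p (fun χ α β i => (vm χ α β i).1) (fun χ α β i => (vm χ α β i).2)
      ha hN hψ hb ?_ ?_ ?_ ?_
    · intro χ α β i h1 h2 h3 h4 h5 h6
      exact (hvm χ α β i h1 h2 h3 h4 h5 h6).1
    · intro χ α β i h1 h2 h3 h4 h5 h6
      exact (hvm χ α β i h1 h2 h3 h4 h5 h6).2.1
    · intro χ α β i h1 h2 h3 h4 h5 h6
      exact (hr χ α β i h1 h2 h3 h4 h5 h6).1
    · intro χ α β i h1 h2 h3 h4 h5 h6
      exact (hvm χ α β i h1 h2 h3 h4 h5 h6).2.2

theorem Le.refl (p : Cond κ) : Le p p := by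
  rw [le_iff]
  refine ⟨fun _ => Finset.Subset.refl _, fun _ _ => le_rfl, fun _ _ _ _ _ => rfl, ?_, ?_⟩
  · intro α β i _ _ _ h1 h2
    omega
  · intro χ α β i _ _ _ _ h1 h2
    omega

theorem Le.trans {r q p : Cond κ} (hrq : Le r q) (hqp : Le q p) : Le r p := by
  induction hqp with
  | intro p v m ha hN hψ hb hon hle hba hv ih =>
    have hrq' := hrq
    rw [le_iff] at hrq
    obtain ⟨ra, rN, rψ, rb, rr⟩ := hrq
    rw [le_iff]
    refine ⟨fun χ => (ha χ).trans (ra χ), fun χ h => (hN χ h).trans (rN χ (h.mono (ha χ))),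
      fun χ α i h1 h2 => ?_, ?_, ?_⟩
    · rw [rψ χ α i (ha χ h1) (h2.trans_le (hN χ ⟨α, h1⟩)), hψ χ α i h1 h2]
    · intro α β i h1 h2 h3 h4 h5
      by_cases h6 : i < q.N .base
      · have e1 : r.F α i = q.F α i := by
          unfold Cond.F; rw [rψ _ α i (ha _ h1) h6]
        have e2 : r.F β i = q.F β i := by
          unfold Cond.F; rw [rψ _ β i (ha _ h2) h6]
        rw [e1, e2]
        exact hb α β i h1 h2 h3 h4 h6
      · exact rb α β i (ha _ h1) (ha _ h2) h3 (not_lt.1 h6) h5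
    · intro χ α β i h0 h1 h2 h3 h4 h5
      by_cases h6 : i < q.N χ
      · have hc := hba χ α β i h0 h1 h2 h3 h4 h6
        have e1 : r.F α i = q.F α i := by
          unfold Cond.F; rw [rψ _ α i hc.1 hc.2.2]
        have e2 : r.F β i = q.F β i := by
          unfold Cond.F; rw [rψ _ β i hc.2.1 hc.2.2]
        refine ⟨⟨ra _ hc.1, ra _ hc.2.1, hc.2.2.trans_le (rN _ ⟨α, hc.1⟩)⟩, v χ α β i,
          ⟨m χ α β i, hon χ α β i h0 h1 h2 h3 h4 h6, ih χ α β i h0 h1 h2 h3 h4 h6⟩, ?_⟩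
        intro j hj1 hj2
        rw [e1] at hj1
        rw [e2] at hj2
        rw [rψ χ β i (ha _ h2) h6, rψ χ α i (ha _ h1) h6]
        exact hv χ α β i h0 h1 h2 h3 h4 h6 j hj1 hj2
      · exact rr χ α β i h0 (ha _ h1) (ha _ h2) h3 (not_lt.1 h6) h5

end Pool.Agent.MP63050e
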