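import Pool.Agent.MP_63050e_lc.C1

/-! Validity of conditions; restriction; gluing. -/

set_option linter.unusedVariables false
set_option linter.unusedSectionVars false

namespace Pool.Agent.MP63050e

variable {κ : Type} [LinearOrder κ]

/-- Extension of data at a coordinate. -/
def DLe (q : Cond κ) (χ : Nm κ) (D D' : Dat κ) : Prop :=
  D'.a ⊆ D.a ∧ (D'.a.Nonempty → D'.N ≤ D.N) ∧
  (∀ α i, α ∈ D'.a → i < D'.N → D.ψ α i = D'.ψ α i) ∧
  (χ = .base → ∀ α β i, α ∈ D'.a → β ∈ D'.a → α < β → D'.N ≤ i → i < D.N →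
    (D.ψ α i 0).toNat < (D.ψ β i 0).toNat) ∧
  (χ ≠ .base → ∀ α β i, α ∈ D'.a → β ∈ D'.a → α < β → D'.N ≤ i → i < D.N →
    (α ∈ q.a .base ∧ β ∈ q.a .base ∧ i < q.N .base) ∧
      ∃ v, Dec χ q α β i v ∧ ∀ j, j < q.F α i → j < q.F β i → D.ψ β i j - D.ψ α i j = v j)

theorem le_iff_DLe {q p : Cond κ} : Le q p ↔ ∀ χ, DLe q χ (q.fn χ) (p.fn χ) := by
  rw [le_iff]
  constructor
  · rintro ⟨h1, h2, h3, h4, h5⟩ χ
    refine ⟨h1 χ, h2 χ, h3 χ, ?_, ?_⟩
    · rintro rfl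
      exact h4
    · intro hχ α β i
      exact h5 χ α β i hχ
  · intro H
    refine ⟨fun χ => (H χ).1, fun χ => (H χ).2.1, fun χ => (H χ).2.2.1, (H .base).2.2.2.1 rfl, ?_⟩
    intro χ α β i hχ
    exact (H χ).2.2.2.2 hχ α β i

theorem Le.F_eq {q' q : Cond κ} (h : Le q' q) {α : κ} {i : ℕ} (hα : α ∈ q.a .base)
    (hi : i < q.N .base) : q'.F α i = q.F α i := by
  unfold Cond.F
  rw [(le_iff.1 h).2.2.1 .base α i hα hi]

theorem Dec.mono {q' q : Cond κ} (h : Le q' q) {χ : Nm κ} {α β : κ} {i : ℕ} {v : VV}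
    (hd : Dec χ q α β i v) : Dec χ q' α β i v := by
  obtain ⟨m, h1, h2⟩ := hd
  exact ⟨m, h1, h.trans h2⟩

theorem Le.base_mem {q' q : Cond κ} (h : Le q' q) {α : κ} {i : ℕ} (hα : α ∈ q.a .base)
    (hi : i < q.N .base) : α ∈ q'.a .base ∧ i < q'.N .base :=
  ⟨(le_iff.1 h).1 _ hα, hi.trans_le ((le_iff.1 h).2.1 _ ⟨α, hα⟩)⟩

theorem DLe.mono {q' q : Cond κ} (h : Le q' q) {χ : Nm κ} {D D' : Dat κ} (hd : DLe q χ D D') :
    DLe q' χ D D' := by
  obtain ⟨h1, h2, h3, h4, h5⟩ := hd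
  refine ⟨h1, h2, h3, h4, ?_⟩
  intro hχ α β i hα hβ hαβ hi hi'
  obtain ⟨⟨hc1, hc2, hc3⟩, v, hv, hj⟩ := h5 hχ α β i hα hβ hαβ hi hi'
  refine ⟨⟨(h.base_mem hc1 hc3).1, (h.base_mem hc2 hc3).1, (h.base_mem hc1 hc3).2⟩, v, hv.mono h, ?_⟩
  rw [h.F_eq hc1 hc3, h.F_eq hc2 hc3]
  exact hj

theorem DLe.refl (q : Cond κ) (χ : Nm κ) (D : Dat κ) : DLe q χ D D := by
  refine ⟨Finset.Subset.refl _, fun _ => le_rfl, fun _ _ _ _ => rfl, ?_, ?_⟩
  · intro _ α β i _ _ _ h1 h2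
    omega
  · intro _ α β i _ _ _ h1 h2
    omega

theorem DLe.of_empty (q : Cond κ) (χ : Nm κ) (D D' : Dat κ) (h : D'.a = ∅) : DLe q χ D D' := by
  refine ⟨by rw [h]; exact Finset.empty_subset _, fun h' => ?_, fun α i hα => ?_, ?_, ?_⟩
  · rw [h] at h'; exact absurd h' (by simp)
  · rw [h] at hα; exact absurd hα (by simp)
  · intro _ α β i hα
    rw [h] at hα; exact absurd hα (by simp)
  · intro _ α β i hα
    rw [h] at hα; exact absurd hα (by simp)

/-- Restriction of a condition to a set of coordinates. -/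
noncomputable def Cond.restr (p : Cond κ) (S : Nm κ → Prop) : Cond κ := by
  classical
  exact
  { fn := fun χ => if S χ then p.fn χ else Dat.empty
    fin := by
      refine p.fin.subset ?_
      intro χ hχ
      simp only [Set.mem_ofPred_eq] at hχ ⊢
      by_cases h : S χ
      · rwa [if_pos h] at hχ
      · rw [if_neg h] at hχ
        simp [Dat.empty] at hχ }

theorem Cond.restr_pos (p : Cond κ) {S : Nm κ → Prop} {χ : Nm κ} (h : S χ) :
    (p.restr S).fn χ = p.fn χ := by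
  simp [Cond.restr, h]

theorem Cond.restr_neg (p : Cond κ) {S : Nm κ → Prop} {χ : Nm κ} (h : ¬ S χ) :
    (p.restr S).fn χ = Dat.empty := by
  simp [Cond.restr, h]

theorem Cond.restr_nonempty {p : Cond κ} {S : Nm κ → Prop} {χ : Nm κ}
    (h : ((p.restr S).a χ).Nonempty) : S χ ∧ (p.restr S).fn χ = p.fn χ := by
  by_cases hS : S χ
  · exact ⟨hS, p.restr_pos hS⟩
  · unfold Cond.a at h
    rw [p.restr_neg hS] at h
    simp [Dat.empty] at h

theorem Cond.ext' {p q : Cond κ} (h : ∀ χ, p.fn χ = q.fn χ) : p = q := by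
  cases p; cases q
  congr
  funext χ
  exact h χ

/-- Restriction below an ordinal. -/
noncomputable def Cond.below (p : Cond κ) (o : Ordinal.{0}) : Cond κ := p.restr (fun χ => χ.rk < o)

theorem Cond.below_below (p : Cond κ) {o o' : Ordinal.{0}} (h : o ≤ o') :
    (p.below o').below o = p.below o := by
  apply Cond.ext'
  intro χ
  by_cases h1 : χ.rk < o
  · rw [Cond.below, Cond.restr_pos _ h1, Cond.below, Cond.restr_pos _ (h1.trans_le h), Cond.below,
      Cond.restr_pos _ h1]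
  · rw [Cond.below, Cond.restr_neg _ h1, Cond.below, Cond.restr_neg _ h1]

theorem Le.weaken {q p p' : Cond κ} (h : Le q p)
    (hs : ∀ χ, (p'.a χ).Nonempty → p'.fn χ = p.fn χ) : Le q p' := by
  rw [le_iff_DLe] at h ⊢
  intro χ
  by_cases hχ : (p'.a χ).Nonempty
  · rw [hs χ hχ]; exact h χ
  · exact DLe.of_empty _ _ _ _ (Finset.not_nonempty_iff_eq_empty.1 hχ)

theorem Le.restr {q p : Cond κ} (h : Le q p) (S : Nm κ → Prop) : Le q (p.restr S) :=
  h.weaken fun _ hχ => (Cond.restr_nonempty hχ).2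

theorem Nm.rk_pos {χ : Nm κ} (h : χ ≠ .base) : 0 < χ.rk := by
  cases χ with
  | base => exact absurd rfl h
  | mk on len idx dat => exact Nm.rk_mk_pos _ _ _ _

theorem Nm.rk_base : (Nm.base : Nm κ).rk = 0 := by rw [Nm.rk]

theorem Le.below_left {q p : Cond κ} {o : Ordinal.{0}} (h : Le q p)
    (hp : ∀ χ, (p.a χ).Nonempty → χ.rk < o) : Le (q.below o) p := by
  induction h with
  | intro p v m ha hN hψ hb hon hle hba hv ih =>
    rw [le_iff_DLe]
    intro χ
    by_cases hχ : (p.a χ).Nonempty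
    swap
    · exact DLe.of_empty _ _ _ _ (Finset.not_nonempty_iff_eq_empty.1 hχ)
    have hχo := hp χ hχ
    rw [Cond.below, Cond.restr_pos _ hχo]
    refine ⟨ha χ, hN χ, hψ χ, ?_, ?_⟩
    · rintro rfl
      exact hb
    · intro hχb α β i h1 h2 h3 h4 h5
      have hbase : (Nm.base : Nm κ).rk < o := by
        rw [Nm.rk_base]; exact (Nm.rk_pos hχb).trans hχo
      have hc := hba χ α β i hχb h1 h2 h3 h4 h5
      have efn : (q.restr fun χ => χ.rk < o).fn .base = q.fn .base := Cond.restr_pos _ hbase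
      have eF : ∀ α i, (q.restr fun χ => χ.rk < o).F α i = q.F α i := by
        intro α i; unfold Cond.F Cond.ψ; rw [efn]
      refine ⟨?_, v χ α β i, ⟨m χ α β i, hon χ α β i hχb h1 h2 h3 h4 h5, ?_⟩, ?_⟩
      · unfold Cond.a Cond.N; rw [efn]; exact hc
      · exact ih χ α β i hχb h1 h2 h3 h4 h5 fun χ' hχ' =>
          (Nm.rk_cond_lt χ _ χ' hχ').trans hχo
      · intro j
        rw [eF, eF]
        exact hv χ α β i hχb h1 h2 h3 h4 h5 j

/-- Cocycle identity beyond `N`, forced by `q` in the poset `P'`. -/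
def Coh (P' : Cond κ → Prop) (χ : Nm κ) (q : Cond κ) (α β γ : κ) (N : ℕ) : Prop :=
  ∀ r, P' r → Le r q → ∀ i, N ≤ i → ∀ v₁ v₂ v₃, Dec χ r α β i v₁ → Dec χ r β γ i v₂ →
    Dec χ r α γ i v₃ → ∀ j, j < r.F α i → j < r.F β i → j < r.F γ i → v₁ j + v₂ j = v₃ j

theorem Coh.mono {P' : Cond κ → Prop} {χ : Nm κ} {q q' : Cond κ} {α β γ : κ} {N N' : ℕ}
    (h : Coh P' χ q α β γ N) (hq : Le q' q) (hN : N ≤ N') : Coh P' χ q' α β γ N' :=
  fun r hr hrq i hi => h r hr (hrq.trans hq) i (hN.trans hi)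

/-- The name `χ` is (forced to be) a coherent family over the poset `P'`. -/
structure Act (χ : Nm κ) (P' : Cond κ → Prop) : Prop where
  ok : ∀ α β i v m, χ.on (α, β, i, v, m) → P' (χ.cond (α, β, i, v, m)) ∧
    α ∈ (χ.cond (α, β, i, v, m)).a .base ∧ β ∈ (χ.cond (α, β, i, v, m)).a .base ∧
    i < (χ.cond (α, β, i, v, m)).N .base
  func : ∀ q, P' q → ∀ α β i v v', Dec χ q α β i v → Dec χ q α β i v' → v = v'
  tot : ∀ q, P' q → ∀ α β i, α < β → ∃ q', P' q' ∧ Le q' q ∧ ∃ v, Dec χ q' α β i v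
  coh : ∀ q, P' q → ∀ α β γ, α < β → β < γ → ∃ q', P' q' ∧ Le q' q ∧ ∃ N, Coh P' χ q' α β γ N

/-- Valid conditions all of whose coordinates have rank `< o`. -/
noncomputable def Vd : Ordinal.{0} → Cond κ → Prop :=
  WellFounded.fix (C := fun _ => Cond κ → Prop) Ordinal.lt_wf
    (fun o ih p => ∀ χ, (p.a χ).Nonempty → ∃ h : χ.rk < o, χ = .base ∨
      (Act χ (ih χ.rk h) ∧ ∀ α β γ, α ∈ p.a χ → β ∈ p.a χ → γ ∈ p.a χ → α < β → β < γ →
        Coh (ih χ.rk h) χ (p.below χ.rk) α β γ (p.N χ)))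

/-- The name is good. -/
def Good (χ : Nm κ) : Prop := Act χ (Vd χ.rk)

/-- Valid conditions. -/
def Val (p : Cond κ) : Prop := ∀ χ, (p.a χ).Nonempty → χ = .base ∨
  (Good χ ∧ ∀ α β γ, α ∈ p.a χ → β ∈ p.a χ → γ ∈ p.a χ → α < β → β < γ →
    Coh (Vd χ.rk) χ (p.below χ.rk) α β γ (p.N χ))

theorem vd_iff {o : Ordinal.{0}} {p : Cond κ} :
    Vd o p ↔ Val p ∧ ∀ χ, (p.a χ).Nonempty → χ.rk < o := by
  rw [Vd, WellFounded.fix_eq]
  change (∀ χ, (p.a χ).Nonempty → ∃ h : χ.rk < o, χ = .base ∨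
      (Act χ (Vd χ.rk) ∧ ∀ α β γ, α ∈ p.a χ → β ∈ p.a χ → γ ∈ p.a χ → α < β → β < γ →
        Coh (Vd χ.rk) χ (p.below χ.rk) α β γ (p.N χ))) ↔ _
  constructor
  · intro H
    refine ⟨fun χ hχ => ?_, fun χ hχ => (H χ hχ).1⟩
    obtain ⟨h, h'⟩ := H χ hχ
    exact h'
  · rintro ⟨H1, H2⟩ χ hχ
    exact ⟨H2 χ hχ, H1 χ hχ⟩

theorem Vd.mono {o o' : Ordinal.{0}} (h : o ≤ o') {p : Cond κ} (hp : Vd o p) : Vd o' p := by
  rw [vd_iff] at hp ⊢
  exact ⟨hp.1, fun χ hχ => (hp.2 χ hχ).trans_le h⟩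

theorem Vd.val {o : Ordinal.{0}} {p : Cond κ} (hp : Vd o p) : Val p := (vd_iff.1 hp).1

theorem Val.below {p : Cond κ} (hp : Val p) (o : Ordinal.{0}) : Vd o (p.below o) := by
  rw [vd_iff]
  constructor
  · intro χ hχ
    obtain ⟨h1, h2⟩ := Cond.restr_nonempty hχ
    have hχ' : (p.a χ).Nonempty := by
      unfold Cond.a at hχ ⊢
      rw [← h2]; exact hχ
    rcases hp χ hχ' with h3 | ⟨h3, h4⟩
    · exact Or.inl h3
    · refine Or.inr ⟨h3, ?_⟩
      have e1 : (p.below o).a χ = p.a χ := by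
        change ((p.below o).fn χ).a = _; rw [Cond.below, h2]; rfl
      have e2 : (p.below o).N χ = p.N χ := by
        change ((p.below o).fn χ).N = _; rw [Cond.below, h2]; rfl
      rw [e1, e2, Cond.below_below _ h1.le]
      exact h4
  · intro χ hχ
    exact (Cond.restr_nonempty hχ).1

/-- The trivial condition. -/
def Cond.one : Cond κ := ⟨fun _ => Dat.empty, by simp [Dat.empty]⟩

theorem Le.one (q : Cond κ) : Le q Cond.one := by
  rw [le_iff_DLe]
  intro χ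
  exact DLe.of_empty _ _ _ _ rfl

theorem vd_one (o : Ordinal.{0}) : Vd o (Cond.one : Cond κ) := by
  rw [vd_iff]
  constructor
  · intro χ hχ
    simp [Cond.one, Cond.a, Dat.empty] at hχ
  · intro χ hχ
    simp [Cond.one, Cond.a, Dat.empty] at hχ

/-- Update a condition: `q` below the rank of `χ`, `D` at `χ`, and `p` elsewhere. -/
noncomputable def upd (q p : Cond κ) (χ : Nm κ) (D : Dat κ) : Cond κ := by
  classical
  exact
  { fn := fun χ' => if χ'.rk < χ.rk then q.fn χ' else if χ' = χ then D else p.fn χ'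
    fin := by
      refine ((q.fin.union p.fin).union (Set.finite_singleton χ)).subset ?_
      intro χ' hχ'
      simp only [Set.mem_ofPred_eq] at hχ'
      by_cases h1 : χ'.rk < χ.rk
      · rw [if_pos h1] at hχ'
        exact Or.inl (Or.inl hχ')
      · rw [if_neg h1] at hχ'
        by_cases h2 : χ' = χ
        · exact Or.inr h2
        · rw [if_neg h2] at hχ'
          exact Or.inl (Or.inr hχ') }

theorem upd_lt {q p : Cond κ} {χ : Nm κ} {D : Dat κ} {χ' : Nm κ} (h : χ'.rk < χ.rk) :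
    (upd q p χ D).fn χ' = q.fn χ' := by
  simp [upd, h]

theorem upd_self {q p : Cond κ} {χ : Nm κ} {D : Dat κ} : (upd q p χ D).fn χ = D := by
  simp [upd]

theorem upd_other {q p : Cond κ} {χ : Nm κ} {D : Dat κ} {χ' : Nm κ} (h : ¬ χ'.rk < χ.rk)
    (h' : χ' ≠ χ) : (upd q p χ D).fn χ' = p.fn χ' := by
  simp [upd, h, h']

theorem upd_below {q p : Cond κ} {χ : Nm κ} {D : Dat κ} {o : Ordinal.{0}} (h : o ≤ χ.rk) :
    (upd q p χ D).below o = q.below o := by
  apply Cond.ext'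
  intro χ'
  by_cases h1 : χ'.rk < o
  · rw [Cond.below, Cond.restr_pos _ h1, Cond.below, Cond.restr_pos _ h1, upd_lt (h1.trans_le h)]
  · rw [Cond.below, Cond.restr_neg _ h1, Cond.below, Cond.restr_neg _ h1]

theorem Vd.below_eq_le {o : Ordinal.{0}} {q : Cond κ} (hq : Vd o q) : Le (q.below o) q :=
  (Le.refl q).below_left (vd_iff.1 hq).2

/-- `upd` extends `q`. -/
theorem upd_le_left {q p : Cond κ} {χ : Nm κ} {D : Dat κ} (hq : Vd χ.rk q) :
    Le (upd q p χ D) q := by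
  rw [le_iff_DLe]
  intro χ'
  by_cases h : χ'.rk < χ.rk
  · rw [upd_lt h]; exact DLe.refl _ _ _
  · refine DLe.of_empty _ _ _ _ ?_
    by_contra hne
    exact h ((vd_iff.1 hq).2 χ' (Finset.nonempty_iff_ne_empty.2 hne))

/-- `upd` extends every condition which it extends at `χ`. -/
theorem upd_le_right {q p : Cond κ} {χ : Nm κ} {D : Dat κ} (hq : Vd χ.rk q) {s : Cond κ}
    (h1 : Le q (s.below χ.rk)) (h2 : DLe q χ D (s.fn χ))
    (h3 : ∀ χ', ¬ χ'.rk < χ.rk → χ' ≠ χ → DLe (upd q p χ D) χ' (p.fn χ') (s.fn χ')) :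
    Le (upd q p χ D) s := by
  have hleft := upd_le_left (p := p) (D := D) hq
  rw [le_iff_DLe]
  intro χ'
  by_cases h : χ'.rk < χ.rk
  · rw [upd_lt h]
    have := (le_iff_DLe.1 h1) χ'
    rw [Cond.below, Cond.restr_pos _ h] at this
    exact this.mono hleft
  · by_cases h' : χ' = χ
    · subst h'
      rw [upd_self]
      exact h2.mono hleft
    · rw [upd_other h h']
      exact h3 χ' h h'

theorem upd_val {q p : Cond κ} {χ : Nm κ} {D : Dat κ} (hp : Val p) (hq : Vd χ.rk q)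
    (hqp : Le q (p.below χ.rk)) (hD : D.a.Nonempty → (χ = .base ∨ (Good χ ∧ ∀ α β γ, α ∈ D.a →
      β ∈ D.a → γ ∈ D.a → α < β → β < γ → Coh (Vd χ.rk) χ q α β γ D.N)))
    (hDp : DLe q χ D (p.fn χ)) : Val (upd q p χ D) ∧ Le (upd q p χ D) p := by
  have hle : Le (upd q p χ D) p :=
    upd_le_right hq hqp hDp fun χ' _ _ => DLe.refl _ _ _
  refine ⟨?_, hle⟩
  intro χ' hχ'
  by_cases h : χ'.rk < χ.rk
  · have e : (upd q p χ D).fn χ' = q.fn χ' := upd_lt h
    have hχ'' : (q.a χ').Nonempty := by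
      unfold Cond.a at hχ' ⊢; rwa [e] at hχ'
    rcases hq.val χ' hχ'' with h1 | ⟨h1, h2⟩
    · exact Or.inl h1
    · refine Or.inr ⟨h1, ?_⟩
      have e1 : (upd q p χ D).a χ' = q.a χ' := by unfold Cond.a; rw [e]
      have e2 : (upd q p χ D).N χ' = q.N χ' := by unfold Cond.N; rw [e]
      rw [e1, e2, upd_below h.le]
      exact h2
  · by_cases h' : χ' = χ
    · subst h'
      have hDne : D.a.Nonempty := by
        unfold Cond.a at hχ'; rwa [upd_self] at hχ'
      rcases hD hDne with h1 | ⟨h1, h2⟩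
      · exact Or.inl h1
      · refine Or.inr ⟨h1, ?_⟩
        have e1 : (upd q p χ' D).a χ' = D.a := by unfold Cond.a; rw [upd_self]
        have e2 : (upd q p χ' D).N χ' = D.N := by unfold Cond.N; rw [upd_self]
        rw [e1, e2, upd_below le_rfl]
        intro α β γ ha hb hc hab hbc
        exact (h2 α β γ ha hb hc hab hbc).mono hq.below_eq_le le_rfl
    · have e : (upd q p χ D).fn χ' = p.fn χ' := upd_other h h'
      have hχ'' : (p.a χ').Nonempty := by
        unfold Cond.a at hχ' ⊢; rwa [e] at hχ'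
      rcases hp χ' hχ'' with h1 | ⟨h1, h2⟩
      · exact Or.inl h1
      · refine Or.inr ⟨h1, ?_⟩
        have e1 : (upd q p χ D).a χ' = p.a χ' := by unfold Cond.a; rw [e]
        have e2 : (upd q p χ D).N χ' = p.N χ' := by unfold Cond.N; rw [e]
        rw [e1, e2]
        intro α β γ ha hb hc hab hbc
        refine (h2 α β γ ha hb hc hab hbc).mono ?_ le_rfl
        refine Le.below_left (hle.restr _) ?_
        intro χ'' hχ''
        exact (Cond.restr_nonempty hχ'').1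

/-- Glueing a condition of small rank below a condition. -/
theorem glue {s r : Cond κ} (χ : Nm κ) (hr : Val r) (hs : Vd χ.rk s) (hsr : Le s (r.below χ.rk)) :
    ∃ t, Val t ∧ Le t s ∧ Le t r := by
  obtain ⟨h1, h2⟩ := upd_val (D := r.fn χ) hr hs hsr (by
    intro hne
    rcases hr χ hne with h1 | ⟨h1, h2⟩
    · exact Or.inl h1
    · refine Or.inr ⟨h1, fun α β γ ha hb hc hab hbc => ?_⟩
      exact (h2 α β γ ha hb hc hab hbc).mono hsr le_rfl) (DLe.refl _ _ _)
  exact ⟨_, h1, upd_le_left hs, h2⟩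

end Pool.Agent.MP63050e
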