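import Pool.Agent.MP_63050e_lc.C2

/-! Amalgamation at one coordinate. -/

set_option linter.unusedVariables false
set_option linter.unusedSectionVars false

namespace Pool.Agent.MP63050e

variable {κ : Type} [LinearOrder κ]

/-- antisymmetric extension -/
def wfun (u : κ → κ → ℤ) (ρ α : κ) : ℤ :=
  if ρ < α then u ρ α else if α < ρ then - u α ρ else 0

theorem wfun_spec (S : Finset κ) (u : κ → κ → ℤ)
    (h : ∀ α β γ, α ∈ S → β ∈ S → γ ∈ S → α < β → β < γ → u α β + u β γ = u α γ)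
    {ρ α β : κ} (hρ : ρ ∈ S) (hα : α ∈ S) (hβ : β ∈ S) (hαβ : α < β) :
    wfun u ρ β - wfun u ρ α = u α β := by
  unfold wfun
  rcases lt_trichotomy ρ α with h1 | h1 | h1
  · rw [if_pos (h1.trans hαβ), if_pos h1]
    have := h ρ α β hρ hα hβ h1 hαβ
    omega
  · subst h1
    rw [if_pos hαβ, if_neg (lt_irrefl _), if_neg (lt_irrefl _)]
    omega
  · rw [if_neg (not_lt.2 h1.le), if_pos h1]
    rcases lt_trichotomy ρ β with h2 | h2 | h2
    · rw [if_pos h2]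
      have := h α ρ β hα hρ hβ h1 h2
      omega
    · subst h2
      rw [if_neg (lt_irrefl _), if_neg (lt_irrefl _)]
      omega
    · rw [if_neg (not_lt.2 h2.le), if_pos h2]
      have := h α β ρ hα hβ hρ hαβ h2
      omega

theorem solve_aux (S₁ S₂ : Finset κ) (u : κ → κ → ℤ)
    (h₁ : ∀ α β γ, α ∈ S₁ → β ∈ S₁ → γ ∈ S₁ → α < β → β < γ → u α β + u β γ = u α γ)
    (h₂ : ∀ α β γ, α ∈ S₂ → β ∈ S₂ → γ ∈ S₂ → α < β → β < γ → u α β + u β γ = u α γ) :
    ∃ x : κ → ℤ, (∀ α β, α ∈ S₁ → β ∈ S₁ → α < β → x β - x α = u α β) ∧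
      (∀ α β, α ∈ S₂ → β ∈ S₂ → α < β → x β - x α = u α β) := by
  classical
  by_cases hR : ∃ ρ, ρ ∈ S₁ ∧ ρ ∈ S₂
  · obtain ⟨ρ, hρ₁, hρ₂⟩ := hR
    exact ⟨wfun u ρ, fun α β hα hβ => wfun_spec S₁ u h₁ hρ₁ hα hβ,
      fun α β hα hβ => wfun_spec S₂ u h₂ hρ₂ hα hβ⟩
  · by_cases h1 : S₁.Nonempty
    · obtain ⟨ρ₁, hρ₁⟩ := h1
      by_cases h2 : S₂.Nonempty
      · obtain ⟨ρ₂, hρ₂⟩ := h2
        refine ⟨fun α => if α ∈ S₁ then wfun u ρ₁ α else wfun u ρ₂ α, ?_, ?_⟩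
        · intro α β hα hβ hαβ
          simp only [hα, hβ, if_true]
          exact wfun_spec S₁ u h₁ hρ₁ hα hβ hαβ
        · intro α β hα hβ hαβ
          have hα' : α ∉ S₁ := fun h => hR ⟨α, h, hα⟩
          have hβ' : β ∉ S₁ := fun h => hR ⟨β, h, hβ⟩
          simp only [hα', hβ', if_false]
          exact wfun_spec S₂ u h₂ hρ₂ hα hβ hαβ
      · refine ⟨wfun u ρ₁, fun α β hα hβ => wfun_spec S₁ u h₁ hρ₁ hα hβ, ?_⟩
        intro α β hα
        exact absurd ⟨α, hα⟩ h2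
    · by_cases h2 : S₂.Nonempty
      · obtain ⟨ρ₂, hρ₂⟩ := h2
        refine ⟨wfun u ρ₂, ?_, fun α β hα hβ => wfun_spec S₂ u h₂ hρ₂ hα hβ⟩
        intro α β hα
        exact absurd ⟨α, hα⟩ h1
      · refine ⟨fun _ => 0, ?_, ?_⟩
        · intro α β hα
          exact absurd ⟨α, hα⟩ h1
        · intro α β hα
          exact absurd ⟨α, hα⟩ h2

theorem solve_col (A₁ A₂ : Finset κ) (F : κ → ℕ) (v : κ → κ → VV)
    (h₁ : ∀ α β γ, α ∈ A₁ → β ∈ A₁ → γ ∈ A₁ → α < β → β < γ →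
      ∀ j, j < F α → j < F β → j < F γ → v α β j + v β γ j = v α γ j)
    (h₂ : ∀ α β γ, α ∈ A₂ → β ∈ A₂ → γ ∈ A₂ → α < β → β < γ →
      ∀ j, j < F α → j < F β → j < F γ → v α β j + v β γ j = v α γ j) :
    ∃ ψ : κ → VV, (∀ α β, α ∈ A₁ → β ∈ A₁ → α < β →
        ∀ j, j < F α → j < F β → ψ β j - ψ α j = v α β j) ∧
      (∀ α β, α ∈ A₂ → β ∈ A₂ → α < β →
        ∀ j, j < F α → j < F β → ψ β j - ψ α j = v α β j) := by
  classical
  have H : ∀ j : ℕ, ∃ x : κ → ℤ,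
      (∀ α β, α ∈ A₁.filter (fun α => j < F α) → β ∈ A₁.filter (fun α => j < F α) → α < β →
        x β - x α = v α β j) ∧
      (∀ α β, α ∈ A₂.filter (fun α => j < F α) → β ∈ A₂.filter (fun α => j < F α) → α < β →
        x β - x α = v α β j) := by
    intro j
    refine solve_aux _ _ (fun α β => v α β j) ?_ ?_
    · intro α β γ hα hβ hγ hαβ hβγ
      rw [Finset.mem_filter] at hα hβ hγ
      exact h₁ α β γ hα.1 hβ.1 hγ.1 hαβ hβγ j hα.2 hβ.2 hγ.2
    · intro α β γ hα hβ hγ hαβ hβγ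
      rw [Finset.mem_filter] at hα hβ hγ
      exact h₂ α β γ hα.1 hβ.1 hγ.1 hαβ hβγ j hα.2 hβ.2 hγ.2
  choose x hx₁ hx₂ using H
  have hval : ∀ α j, j < F α → (Finsupp.onFinset (Finset.range (F α))
      (fun j => if j < F α then x j α else 0) (by
        intro j hj
        rw [Finset.mem_range]
        by_contra hne
        rw [if_neg hne] at hj
        exact hj rfl) : ℕ →₀ ℤ) j = x j α := by
    intro α j hj
    rw [Finsupp.onFinset_apply, if_pos hj]
  refine ⟨fun α => Finsupp.onFinset (Finset.range (F α))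
      (fun j => if j < F α then x j α else 0) (by
        intro j hj
        rw [Finset.mem_range]
        by_contra hne
        rw [if_neg hne] at hj
        exact hj rfl), ?_, ?_⟩
  · intro α β hα hβ hαβ j hj1 hj2
    simp only
    rw [hval β j hj2, hval α j hj1]
    exact hx₁ j α β (Finset.mem_filter.2 ⟨hα, hj1⟩) (Finset.mem_filter.2 ⟨hβ, hj2⟩) hαβ
  · intro α β hα hβ hαβ j hj1 hj2
    simp only
    rw [hval β j hj2, hval α j hj1]
    exact hx₂ j α β (Finset.mem_filter.2 ⟨hα, hj1⟩) (Finset.mem_filter.2 ⟨hβ, hj2⟩) hαβ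

theorem coh_all {χ : Nm κ} (hg : Good χ) (T : Finset (κ × κ × κ)) (n : ℕ) {q : Cond κ}
    (hq : Vd χ.rk q) : ∃ q', Vd χ.rk q' ∧ Le q' q ∧ ∃ N, n ≤ N ∧
      ∀ t ∈ T, t.1 < t.2.1 → t.2.1 < t.2.2 → Coh (Vd χ.rk) χ q' t.1 t.2.1 t.2.2 N := by
  classical
  induction T using Finset.induction with
  | empty => exact ⟨q, hq, Le.refl q, n, le_rfl, by simp⟩
  | insert t T ht ih =>
    obtain ⟨q', hq', hle, N, hN, h⟩ := ih
    by_cases hc : t.1 < t.2.1 ∧ t.2.1 < t.2.2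
    · obtain ⟨q'', hq'', hle', N', h'⟩ := hg.coh q' hq' t.1 t.2.1 t.2.2 hc.1 hc.2
      refine ⟨q'', hq'', hle'.trans hle, max N N', hN.trans (le_max_left _ _), ?_⟩
      intro s hs h1 h2
      rw [Finset.mem_insert] at hs
      rcases hs with rfl | hs
      · exact h'.mono (Le.refl _) (le_max_right _ _)
      · exact (h s hs h1 h2).mono hle' (le_max_left _ _)
    · refine ⟨q', hq', hle, N, hN, ?_⟩
      intro s hs h1 h2
      rw [Finset.mem_insert] at hs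
      rcases hs with rfl | hs
      · exact absurd ⟨h1, h2⟩ hc
      · exact h s hs h1 h2

theorem dec_all {χ : Nm κ} (hg : Good χ) (T : Finset (κ × κ × ℕ)) {q : Cond κ}
    (hq : Vd χ.rk q) : ∃ q', Vd χ.rk q' ∧ Le q' q ∧
      ∀ t ∈ T, t.1 < t.2.1 → ∃ v, Dec χ q' t.1 t.2.1 t.2.2 v := by
  classical
  induction T using Finset.induction with
  | empty => exact ⟨q, hq, Le.refl q, by simp⟩
  | insert t T ht ih =>
    obtain ⟨q', hq', hle, h⟩ := ih
    by_cases hc : t.1 < t.2.1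
    · obtain ⟨q'', hq'', hle', v, h'⟩ := hg.tot q' hq' t.1 t.2.1 t.2.2 hc
      refine ⟨q'', hq'', hle'.trans hle, ?_⟩
      intro s hs h1
      rw [Finset.mem_insert] at hs
      rcases hs with rfl | hs
      · exact ⟨v, h'⟩
      · obtain ⟨v, hv⟩ := h s hs h1
        exact ⟨v, hv.mono hle'⟩
    · refine ⟨q', hq', hle, ?_⟩
      intro s hs h1
      rw [Finset.mem_insert] at hs
      rcases hs with rfl | hs
      · exact absurd h1 hc
      · exact h s hs h1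

theorem Dec.base {χ : Nm κ} {P' : Cond κ → Prop} (hg : Act χ P') {q : Cond κ} {α β : κ} {i : ℕ}
    {v : VV} (h : Dec χ q α β i v) : α ∈ q.a .base ∧ β ∈ q.a .base ∧ i < q.N .base := by
  obtain ⟨m, h1, h2⟩ := h
  obtain ⟨-, h3, h4, h5⟩ := hg.ok α β i v m h1
  exact ⟨(h2.base_mem h3 h5).1, (h2.base_mem h4 h5).1, (h2.base_mem h3 h5).2⟩

/-- Amalgamation of two data at one coordinate. -/
theorem amalg {χ : Nm κ} (hχ : χ = .base ∨ Good χ) {q₀ : Cond κ} (hq₀ : Vd χ.rk q₀)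
    (D₁ D₂ : Dat κ) (hN : D₁.N = D₂.N)
    (hag : ∀ α, α ∈ D₁.a → α ∈ D₂.a → ∀ i, i < D₁.N → D₁.ψ α i = D₂.ψ α i)
    (hc₁ : χ ≠ .base → ∀ α β γ, α ∈ D₁.a → β ∈ D₁.a → γ ∈ D₁.a → α < β → β < γ →
      Coh (Vd χ.rk) χ q₀ α β γ D₁.N)
    (hc₂ : χ ≠ .base → ∀ α β γ, α ∈ D₂.a → β ∈ D₂.a → γ ∈ D₂.a → α < β → β < γ →
      Coh (Vd χ.rk) χ q₀ α β γ D₂.N) (n : ℕ) :
    ∃ q₁ D, Vd χ.rk q₁ ∧ Le q₁ q₀ ∧ D.a = D₁.a ∪ D₂.a ∧ n ≤ D.N ∧ DLe q₁ χ D D₁ ∧
      DLe q₁ χ D D₂ ∧ (χ = .base ∨ (Good χ ∧ ∀ α β γ, α ∈ D.a → β ∈ D.a → γ ∈ D.a → α < β →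
        β < γ → Coh (Vd χ.rk) χ q₁ α β γ D.N)) := by
  classical
  by_cases hχb : χ = .base
  · subst hχb
    refine ⟨q₀, ⟨D₁.a ∪ D₂.a, max D₁.N n, fun α i => if i < D₁.N then
      (if α ∈ D₁.a then D₁.ψ α i else D₂.ψ α i) else
      Finsupp.single 0 (((D₁.a ∪ D₂.a).filter (fun β => β < α)).card : ℤ)⟩, hq₀, Le.refl _, rfl,
      le_max_right _ _, ?_, ?_, Or.inl rfl⟩
    · refine ⟨Finset.subset_union_left, fun _ => le_max_left _ _, ?_, ?_, fun h => absurd rfl h⟩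
      · intro α i hα hi
        simp only [hi, hα, if_true]
      · intro _ α β i hα hβ hαβ hi hi'
        simp only [not_lt.2 hi, if_false, Finsupp.single_eq_same, Int.toNat_natCast]
        refine Finset.card_lt_card ?_
        rw [Finset.ssubset_iff_of_subset]
        · refine ⟨α, Finset.mem_filter.2 ⟨Finset.mem_union_left _ hα, hαβ⟩, ?_⟩
          rw [Finset.mem_filter]
          exact fun h => lt_irrefl _ h.2
        · intro x hx
          rw [Finset.mem_filter] at hx ⊢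
          exact ⟨hx.1, hx.2.trans hαβ⟩
    · refine ⟨Finset.subset_union_right, fun _ => hN ▸ le_max_left _ _, ?_, ?_, fun h => absurd rfl h⟩
      · intro α i hα hi
        rw [← hN] at hi
        simp only [hi, if_true]
        by_cases h1 : α ∈ D₁.a
        · rw [if_pos h1]; exact hag α h1 hα i hi
        · rw [if_neg h1]
      · intro _ α β i hα hβ hαβ hi hi'
        rw [← hN] at hi
        simp only [not_lt.2 hi, if_false, Finsupp.single_eq_same, Int.toNat_natCast]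
        refine Finset.card_lt_card ?_
        rw [Finset.ssubset_iff_of_subset]
        · refine ⟨α, Finset.mem_filter.2 ⟨Finset.mem_union_right _ hα, hαβ⟩, ?_⟩
          rw [Finset.mem_filter]
          exact fun h => lt_irrefl _ h.2
        · intro x hx
          rw [Finset.mem_filter] at hx ⊢
          exact ⟨hx.1, hx.2.trans hαβ⟩
  · have hg : Good χ := hχ.resolve_left hχb
    set A : Finset κ := D₁.a ∪ D₂.a with hA
    obtain ⟨q, hq, hqle, N', hN', hcoh⟩ := coh_all hg (A ×ˢ A ×ˢ A) (max D₁.N n) hq₀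
    obtain ⟨q₁, hq₁, hq₁le, hdec⟩ := dec_all hg (A ×ˢ A ×ˢ Finset.range N') hq
    have hD₁N : D₁.N ≤ N' := (le_max_left _ _).trans hN'
    have hnN : n ≤ N' := (le_max_right _ _).trans hN'
    have H : ∀ i : ℕ, ∃ (v : κ → κ → VV), ∀ α β, α ∈ A → β ∈ A → α < β → i < N' →
        Dec χ q₁ α β i (v α β) := by
      intro i
      have : ∀ α β, ∃ v, α ∈ A → β ∈ A → α < β → i < N' → Dec χ q₁ α β i v := by
        intro α β
        by_cases hc : α ∈ A ∧ β ∈ A ∧ α < β ∧ i < N'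
        · obtain ⟨v, hv⟩ := hdec (α, β, i) (by
            simp only [Finset.mem_product, Finset.mem_range]
            exact ⟨hc.1, hc.2.1, hc.2.2.2⟩) hc.2.2.1
          exact ⟨v, fun _ _ _ _ => hv⟩
        · exact ⟨0, fun h1 h2 h3 h4 => absurd ⟨h1, h2, h3, h4⟩ hc⟩
      choose v hv using this
      exact ⟨v, hv⟩
    choose v hv using H
    have H2 : ∀ i : ℕ, ∃ ψ : κ → VV, D₁.N ≤ i → i < N' →
        (∀ α β, α ∈ D₁.a → β ∈ D₁.a → α < β →
          ∀ j, j < q₁.F α i → j < q₁.F β i → ψ β j - ψ α j = v i α β j) ∧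
        (∀ α β, α ∈ D₂.a → β ∈ D₂.a → α < β →
          ∀ j, j < q₁.F α i → j < q₁.F β i → ψ β j - ψ α j = v i α β j) := by
      intro i
      by_cases hc : D₁.N ≤ i ∧ i < N'
      · obtain ⟨ψ, h1, h2⟩ := solve_col D₁.a D₂.a (fun α => q₁.F α i) (v i) (by
          intro α β γ hα hβ hγ hαβ hβγ j h1 h2 h3
          refine hc₁ hχb α β γ hα hβ hγ hαβ hβγ q₁ hq₁ (hq₁le.trans hqle) i hc.1 _ _ _
            (hv i α β ?_ ?_ hαβ hc.2) (hv i β γ ?_ ?_ hβγ hc.2)
            (hv i α γ ?_ ?_ (hαβ.trans hβγ) hc.2) j h1 h2 h3 <;>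
          exact Finset.mem_union_left _ (by assumption)) (by
          intro α β γ hα hβ hγ hαβ hβγ j h1 h2 h3
          refine hc₂ hχb α β γ hα hβ hγ hαβ hβγ q₁ hq₁ (hq₁le.trans hqle) i (hN ▸ hc.1) _ _ _
            (hv i α β ?_ ?_ hαβ hc.2) (hv i β γ ?_ ?_ hβγ hc.2)
            (hv i α γ ?_ ?_ (hαβ.trans hβγ) hc.2) j h1 h2 h3 <;>
          exact Finset.mem_union_right _ (by assumption))
        exact ⟨ψ, fun _ _ => ⟨h1, h2⟩⟩
      · exact ⟨0, fun h1 h2 => absurd ⟨h1, h2⟩ hc⟩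
    choose ψ hψ using H2
    refine ⟨q₁, ⟨A, N', fun α i => if i < D₁.N then
      (if α ∈ D₁.a then D₁.ψ α i else D₂.ψ α i) else ψ i α⟩, hq₁, hq₁le.trans hqle, rfl, hnN,
      ?_, ?_, Or.inr ⟨hg, ?_⟩⟩
    · refine ⟨Finset.subset_union_left, fun _ => hD₁N, ?_, fun h => absurd h hχb, ?_⟩
      · intro α i hα hi
        simp only [hi, hα, if_true]
      · intro _ α β i hα hβ hαβ hi hi'
        have hd := hv i α β (Finset.mem_union_left _ hα) (Finset.mem_union_left _ hβ) hαβ hi'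
        refine ⟨hd.base hg, v i α β, hd, ?_⟩
        simp only [not_lt.2 hi, if_false]
        exact (hψ i hi hi').1 α β hα hβ hαβ
    · refine ⟨Finset.subset_union_right, fun _ => hN ▸ hD₁N, ?_, fun h => absurd h hχb, ?_⟩
      · intro α i hα hi
        rw [← hN] at hi
        simp only [hi, if_true]
        by_cases h1 : α ∈ D₁.a
        · rw [if_pos h1]; exact hag α h1 hα i hi
        · rw [if_neg h1]
      · intro _ α β i hα hβ hαβ hi hi'
        rw [← hN] at hi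
        have hd := hv i α β (Finset.mem_union_right _ hα) (Finset.mem_union_right _ hβ) hαβ hi'
        refine ⟨hd.base hg, v i α β, hd, ?_⟩
        simp only [not_lt.2 hi, if_false]
        exact (hψ i hi hi').2 α β hα hβ hαβ
    · intro α β γ hα hβ hγ hαβ hβγ
      exact (hcoh (α, β, γ) (by
        simp only [Finset.mem_product]
        exact ⟨hα, hβ, hγ⟩) hαβ hβγ).mono hq₁le le_rfl

end Pool.Agent.MP63050e
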