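import Pool.Agent.MP_63050e_lc.C3

/-! Compatibility and the countable chain condition. -/

set_option linter.unusedVariables false
set_option linter.unusedSectionVars false

namespace Pool.Agent.MP63050e

variable {κ : Type} [LinearOrder κ]

/-- Two conditions agree on their common part. -/
def Agree (p q : Cond κ) : Prop := ∀ χ, (p.a χ).Nonempty → (q.a χ).Nonempty →
  p.N χ = q.N χ ∧ ∀ α, α ∈ p.a χ → α ∈ q.a χ → ∀ i, i < p.N χ → p.ψ χ α i = q.ψ χ α i

theorem compat_aux {p q : Cond κ} (hp : Val p) (hq : Val q) (hag : Agree p q)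
    (T : Finset (Nm κ)) (hT : ∀ χ, χ ∈ T ↔ (p.a χ).Nonempty ∨ (q.a χ).Nonempty) (n : ℕ) :
    ∀ T' : Finset (Nm κ), T'.card = n → T' ⊆ T →
      (∀ χ ∈ T', ∀ χ' ∈ T, χ'.rk < χ.rk → χ' ∈ T') →
      ∃ r, Val r ∧ Le r (p.restr (· ∈ T')) ∧ Le r (q.restr (· ∈ T')) ∧
        ∀ χ ∈ T, χ ∉ T' → r.a χ = ∅ := by
  classical
  induction n with
  | zero =>
    intro T' hcard _ _
    rw [Finset.card_eq_zero] at hcard
    subst hcard
    refine ⟨Cond.one, (vd_one 0).val, ?_, ?_, fun χ _ _ => rfl⟩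
    · exact (Le.refl Cond.one).weaken fun χ hχ => absurd (Cond.restr_nonempty hχ).1 (by simp)
    · exact (Le.refl Cond.one).weaken fun χ hχ => absurd (Cond.restr_nonempty hχ).1 (by simp)
  | succ n ih =>
    intro T' hcard hT'T hclosed
    have hne : T'.Nonempty := by
      rw [← Finset.card_pos, hcard]; exact Nat.succ_pos n
    obtain ⟨χ, hχT', hmax⟩ := Finset.exists_max_image T' Nm.rk hne
    set T'' := T'.erase χ with hT''
    have hsub : T'' ⊆ T' := Finset.erase_subset _ _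
    obtain ⟨r, hr, hrp, hrq, hrempty⟩ := ih T'' (by
      rw [hT'', Finset.card_erase_of_mem hχT', hcard]; rfl) (hsub.trans hT'T) (by
      intro χ₁ h1 χ' h2 h3
      have h4 := hclosed χ₁ (hsub h1) χ' h2 h3
      refine Finset.mem_erase.2 ⟨?_, h4⟩
      rintro rfl
      exact absurd (h3.trans_le (hmax χ₁ (hsub h1))) (lt_irrefl _))
    -- restriction of p and q below the rank of χ
    have hbelow : ∀ s : Cond κ, (∀ χ', (s.a χ').Nonempty → χ' ∈ T) → Le r (s.restr (· ∈ T'')) →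
        Le r (s.below χ.rk) := by
      intro s hs hrs
      refine hrs.weaken fun χ' hχ' => ?_
      obtain ⟨h1, h2⟩ := Cond.restr_nonempty hχ'
      have h3 : (s.a χ').Nonempty := by
        unfold Cond.a at hχ' ⊢
        rw [← h2]; exact hχ'
      have h4 : χ' ∈ T'' := by
        refine Finset.mem_erase.2 ⟨?_, hclosed χ hχT' χ' (hs χ' h3) h1⟩
        rintro rfl
        exact lt_irrefl _ h1
      rw [Cond.below, h2, Cond.restr_pos _ h4]
    have hpT : ∀ χ', (p.a χ').Nonempty → χ' ∈ T := fun χ' h => (hT χ').2 (Or.inl h)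
    have hqT : ∀ χ', (q.a χ').Nonempty → χ' ∈ T := fun χ' h => (hT χ').2 (Or.inr h)
    have hrp' := hbelow p hpT hrp
    have hrq' := hbelow q hqT hrq
    have hlow : ∀ s : Cond κ, Le r (s.below χ.rk) → Le (r.below χ.rk) (s.below χ.rk) := by
      intro s hs
      exact hs.below_left fun χ' hχ' => (Cond.restr_nonempty hχ').1
    set D₁ : Dat κ := if (p.a χ).Nonempty then p.fn χ else ⟨∅, q.N χ, q.ψ χ⟩ with hD₁
    set D₂ : Dat κ := if (q.a χ).Nonempty then q.fn χ else ⟨∅, p.N χ, p.ψ χ⟩ with hD₂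
    have hχT : (p.a χ).Nonempty ∨ (q.a χ).Nonempty := (hT χ).1 (hT'T hχT')
    have hχok : χ = .base ∨ Good χ := by
      rcases hχT with h | h
      · rcases hp χ h with h1 | h1
        · exact Or.inl h1
        · exact Or.inr h1.1
      · rcases hq χ h with h1 | h1
        · exact Or.inl h1
        · exact Or.inr h1.1
    have hNeq : D₁.N = D₂.N := by
      rw [hD₁, hD₂]
      by_cases h1 : (p.a χ).Nonempty
      · by_cases h2 : (q.a χ).Nonempty
        · rw [if_pos h1, if_pos h2]; exact (hag χ h1 h2).1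
        · rw [if_pos h1, if_neg h2]; rfl
      · rw [if_neg h1, if_pos (hχT.resolve_left h1)]; rfl
    have hψag : ∀ α, α ∈ D₁.a → α ∈ D₂.a → ∀ i, i < D₁.N → D₁.ψ α i = D₂.ψ α i := by
      intro α hα₁ hα₂ i hi
      by_cases h1 : (p.a χ).Nonempty
      · by_cases h2 : (q.a χ).Nonempty
        · rw [hD₁, if_pos h1] at hα₁ hi ⊢
          rw [hD₂, if_pos h2] at hα₂ ⊢
          exact (hag χ h1 h2).2 α hα₁ hα₂ i hi
        · rw [hD₂, if_neg h2] at hα₂
          simp at hα₂
      · rw [hD₁, if_neg h1] at hα₁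
        simp at hα₁
    have hc₁ : χ ≠ .base → ∀ α β γ, α ∈ D₁.a → β ∈ D₁.a → γ ∈ D₁.a → α < β → β < γ →
        Coh (Vd χ.rk) χ (r.below χ.rk) α β γ D₁.N := by
      intro hχb α β γ hα hβ hγ hαβ hβγ
      by_cases h1 : (p.a χ).Nonempty
      · rw [hD₁, if_pos h1] at hα hβ hγ ⊢
        rcases hp χ h1 with h2 | ⟨-, h2⟩
        · exact absurd h2 hχb
        · exact (h2 α β γ hα hβ hγ hαβ hβγ).mono (hlow p hrp') le_rfl
      · rw [hD₁, if_neg h1] at hα
        simp at hα
    have hc₂ : χ ≠ .base → ∀ α β γ, α ∈ D₂.a → β ∈ D₂.a → γ ∈ D₂.a → α < β → β < γ →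
        Coh (Vd χ.rk) χ (r.below χ.rk) α β γ D₂.N := by
      intro hχb α β γ hα hβ hγ hαβ hβγ
      by_cases h1 : (q.a χ).Nonempty
      · rw [hD₂, if_pos h1] at hα hβ hγ ⊢
        rcases hq χ h1 with h2 | ⟨-, h2⟩
        · exact absurd h2 hχb
        · exact (h2 α β γ hα hβ hγ hαβ hβγ).mono (hlow q hrq') le_rfl
      · rw [hD₂, if_neg h1] at hα
        simp at hα
    obtain ⟨q₁, D, hq₁, hq₁r, hDa, hDN, hDD₁, hDD₂, hDcoh⟩ :=
      amalg hχok (hr.below χ.rk) D₁ D₂ hNeq hψag hc₁ hc₂ 0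
    have hrχ : r.a χ = ∅ := hrempty χ (hT'T hχT') (Finset.notMem_erase _ _)
    obtain ⟨hval, hler⟩ := upd_val hr hq₁ hq₁r (fun _ => hDcoh) (DLe.of_empty _ _ _ _ hrχ)
    have hfin : ∀ s : Cond κ, Le r (s.restr (· ∈ T'')) → Le r (s.below χ.rk) →
        DLe q₁ χ D (s.fn χ) → Le (upd q₁ r χ D) (s.restr (· ∈ T')) := by
      intro s hs1 hs2 hs3
      refine upd_le_right hq₁ ?_ ?_ ?_
      · refine (hq₁r.trans (hlow s hs2)).weaken fun χ' hχ' => ?_
        obtain ⟨h1, h2⟩ := Cond.restr_nonempty hχ'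
        rw [Cond.below, h2, Cond.below, Cond.restr_pos (S := fun χ' => χ'.rk < χ.rk) _ h1]
        have h3 : ((s.restr (· ∈ T')).a χ').Nonempty := by
          unfold Cond.a at hχ' ⊢
          rwa [Cond.below, h2] at hχ'
        exact (Cond.restr_nonempty h3).2
      · rw [Cond.restr_pos (S := (· ∈ T')) _ hχT']; exact hs3
      · intro χ' h1 h2
        by_cases h3 : χ' ∈ T'
        · have h4 : χ' ∈ T'' := Finset.mem_erase.2 ⟨h2, h3⟩
          have h5 := (le_iff_DLe.1 hs1) χ'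
          rw [Cond.restr_pos (S := (· ∈ T'')) _ h4] at h5
          rw [Cond.restr_pos (S := (· ∈ T')) _ h3]
          exact h5.mono hler
        · rw [Cond.restr_neg (S := (· ∈ T')) _ h3]
          exact DLe.of_empty _ _ _ _ rfl
    refine ⟨upd q₁ r χ D, hval, hfin p hrp hrp' ?_, hfin q hrq hrq' ?_, ?_⟩
    · by_cases h1 : (p.a χ).Nonempty
      · rw [hD₁, if_pos h1] at hDD₁; exact hDD₁
      · exact DLe.of_empty _ _ _ _ (Finset.not_nonempty_iff_eq_empty.1 h1)
    · by_cases h1 : (q.a χ).Nonempty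
      · rw [hD₂, if_pos h1] at hDD₂; exact hDD₂
      · exact DLe.of_empty _ _ _ _ (Finset.not_nonempty_iff_eq_empty.1 h1)
    · intro χ' h1 h2
      have h3 : χ' ≠ χ := by rintro rfl; exact h2 hχT'
      have h4 : ¬ χ'.rk < χ.rk := fun h => h2 (hclosed χ hχT' χ' h1 h)
      have h5 : χ' ∉ T'' := fun h => h2 (hsub h)
      have := hrempty χ' h1 h5
      unfold Cond.a at this ⊢
      rw [upd_other h4 h3]
      exact this

theorem compat {p q : Cond κ} (hp : Val p) (hq : Val q) (hag : Agree p q) :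
    ∃ r, Val r ∧ Le r p ∧ Le r q := by
  classical
  set T : Finset (Nm κ) := p.fin.toFinset ∪ q.fin.toFinset with hT
  have hT' : ∀ χ, χ ∈ T ↔ (p.a χ).Nonempty ∨ (q.a χ).Nonempty := by
    intro χ
    rw [hT, Finset.mem_union, Set.Finite.mem_toFinset, Set.Finite.mem_toFinset]
    rfl
  obtain ⟨r, hr, hrp, hrq, -⟩ := compat_aux hp hq hag T hT' T.card T rfl (Finset.Subset.refl _)
    (fun _ _ _ h _ => h)
  refine ⟨r, hr, hrp.weaken fun χ hχ => ?_, hrq.weaken fun χ hχ => ?_⟩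
  · rw [Cond.restr_pos (S := (· ∈ T)) _ ((hT' χ).2 (Or.inl hχ))]
  · rw [Cond.restr_pos (S := (· ∈ T)) _ ((hT' χ).2 (Or.inr hχ))]

/-- Finite partial functions into a countable set: two of uncountably many agree. -/
theorem exists_agree {ι X Y : Type*} [Countable Y] (g : ι → X → Y) (n : ℕ) :
    ∀ (d : ι → Finset X) (S : Set ι), ¬ S.Countable → (∀ i ∈ S, (d i).card ≤ n) →
      ∃ i ∈ S, ∃ j ∈ S, i ≠ j ∧ ∀ x, x ∈ d i → x ∈ d j → g i x = g j x := by
  classical
  induction n with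
  | zero =>
    intro d S hS hd
    have hnt : S.Nontrivial := by
      by_contra h
      rw [Set.not_nontrivial_iff] at h
      exact hS h.countable
    obtain ⟨i, hi, j, hj, hij⟩ := hnt
    refine ⟨i, hi, j, hj, hij, fun x hx => ?_⟩
    have := hd i hi
    rw [Nat.le_zero, Finset.card_eq_zero] at this
    rw [this] at hx
    exact absurd hx (by simp)
  | succ n ih =>
    intro d S hS hd
    by_cases hA : ∃ x, ¬ {i ∈ S | x ∈ d i}.Countable
    · obtain ⟨x, hx⟩ := hA
      have : ∃ y, ¬ {i ∈ S | x ∈ d i ∧ g i x = y}.Countable := by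
        by_contra hne
        push Not at hne
        apply hx
        have : {i ∈ S | x ∈ d i} = ⋃ y, {i ∈ S | x ∈ d i ∧ g i x = y} := by
          ext i
          simp only [Set.mem_iUnion]
          constructor
          · rintro ⟨a, b⟩
            exact ⟨_, a, b, rfl⟩
          · rintro ⟨_, a, b, _⟩
            exact ⟨a, b⟩
        rw [this]
        exact Set.countable_iUnion hne
      obtain ⟨y, hy⟩ := this
      obtain ⟨i, hi, j, hj, hij, h⟩ := ih (fun i => (d i).erase x) _ hy (by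
        intro i hi
        have h1 := hd i hi.1
        rw [Finset.card_erase_of_mem hi.2.1]
        omega)
      refine ⟨i, hi.1, j, hj.1, hij, fun z hz1 hz2 => ?_⟩
      by_cases hzx : z = x
      · subst hzx
        rw [hi.2.2, hj.2.2]
      · exact h z (Finset.mem_erase.2 ⟨hzx, hz1⟩) (Finset.mem_erase.2 ⟨hzx, hz2⟩)
    · push Not at hA
      have hne : S.Nonempty := by
        by_contra h
        rw [Set.not_nonempty_iff_eq_empty] at h
        rw [h] at hS
        exact hS Set.countable_empty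
      obtain ⟨i, hi⟩ := hne
      have hc : ({i} ∪ ⋃ x ∈ d i, {j ∈ S | x ∈ d j}).Countable :=
        (Set.countable_singleton i).union ((d i).countable_toSet.biUnion fun x _ => hA x)
      have : ∃ j ∈ S, j ∉ ({i} ∪ ⋃ x ∈ d i, {j ∈ S | x ∈ d j}) := by
        by_contra h
        push Not at h
        exact hS (hc.mono h)
      obtain ⟨j, hj, hj'⟩ := this
      refine ⟨i, hi, j, hj, ?_, ?_⟩
      · rintro rfl
        exact hj' (Or.inl rfl)
      · intro x hx hx'
        exact absurd (Set.mem_union_right _ (Set.mem_biUnion hx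
          (show j ∈ {j ∈ S | x ∈ d j} from ⟨hj, hx'⟩))) hj'

instance : Countable VV := inferInstance

/-- The countable chain condition. -/
theorem ccc {ι : Type*} (p : ι → Cond κ) (hp : ∀ i, Val (p i)) (S : Set ι)
    (hS : ¬ S.Countable) :
    ∃ i ∈ S, ∃ j ∈ S, i ≠ j ∧ ∃ r, Val r ∧ Le r (p i) ∧ Le r (p j) := by
  classical
  let supp : ι → Finset (Nm κ) := fun i => (p i).fin.toFinset
  let d : ι → Finset (Nm κ ⊕ (Nm κ × κ)) := fun i =>
    ((supp i).map ⟨Sum.inl, Sum.inl_injective⟩) ∪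
      ((supp i).biUnion fun χ => ((p i).a χ).map ⟨fun α => Sum.inr (χ, α), fun a b h => by
        simpa using h⟩)
  let g : ι → (Nm κ ⊕ (Nm κ × κ)) → ℕ × List VV := fun i x =>
    match x with
    | Sum.inl χ => ((p i).N χ, [])
    | Sum.inr (χ, α) => (0, (List.range ((p i).N χ)).map ((p i).ψ χ α))
  have hcard : ∃ n, ¬ {i ∈ S | (d i).card = n}.Countable := by
    by_contra hne
    push Not at hne
    apply hS
    have : S = ⋃ n, {i ∈ S | (d i).card = n} := by
      ext i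
      simp
    rw [this]
    exact Set.countable_iUnion hne
  obtain ⟨n, hn⟩ := hcard
  obtain ⟨i, hi, j, hj, hij, h⟩ := exists_agree g n d _ hn (fun i hi => hi.2.le)
  refine ⟨i, hi.1, j, hj.1, hij, compat (hp i) (hp j) ?_⟩
  have hmem1 : ∀ i χ, ((p i).a χ).Nonempty → Sum.inl χ ∈ d i := by
    intro i χ hχ
    refine Finset.mem_union_left _ (Finset.mem_map.2 ⟨χ, ?_, rfl⟩)
    simp only [supp, Set.Finite.mem_toFinset]
    exact hχ
  have hmem2 : ∀ i χ α, α ∈ (p i).a χ → Sum.inr (χ, α) ∈ d i := by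
    intro i χ α hα
    refine Finset.mem_union_right _ (Finset.mem_biUnion.2 ⟨χ, ?_, ?_⟩)
    · simp only [supp, Set.Finite.mem_toFinset]
      exact ⟨α, hα⟩
    · exact Finset.mem_map.2 ⟨α, hα, rfl⟩
  intro χ h1 h2
  have h3 := h (Sum.inl χ) (hmem1 i χ h1) (hmem1 j χ h2)
  have h4 : (p i).N χ = (p j).N χ := by
    have := congrArg Prod.fst h3
    exact this
  refine ⟨h4, ?_⟩
  intro α hα hα' k hk
  have h5 := h (Sum.inr (χ, α)) (hmem2 i χ α hα) (hmem2 j χ α hα')
  have h6 : (List.range ((p i).N χ)).map ((p i).ψ χ α) =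
      (List.range ((p j).N χ)).map ((p j).ψ χ α) := congrArg Prod.snd h5
  rw [← h4] at h6
  have h7 := List.map_inj_left.1 h6 k (List.mem_range.2 hk)
  exact h7

/-- Density: every coordinate can be extended. -/
theorem density {p : Cond κ} (hp : Val p) {χ : Nm κ} (hχ : χ = .base ∨ Good χ) (α : κ) (n : ℕ) :
    ∃ r, Val r ∧ Le r p ∧ α ∈ r.a χ ∧ n ≤ r.N χ := by
  classical
  set D₁ : Dat κ := if (p.a χ).Nonempty then p.fn χ else Dat.empty with hD₁
  have h1 : p.fn χ = D₁ ∨ p.a χ = ∅ := by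
    by_cases h : (p.a χ).Nonempty
    · left; rw [hD₁, if_pos h]
    · right; exact Finset.not_nonempty_iff_eq_empty.1 h
  obtain ⟨q₁, D, hq₁, hq₁r, hDa, hDN, hDD₁, hDD₂, hDcoh⟩ :=
    amalg hχ (hp.below χ.rk) D₁ ⟨{α}, D₁.N, D₁.ψ⟩ rfl (fun _ _ _ _ _ => rfl) (by
      intro hχb α β γ hα hβ hγ hαβ hβγ
      by_cases h1 : (p.a χ).Nonempty
      · rw [hD₁, if_pos h1] at hα hβ hγ ⊢
        rcases hp χ h1 with h2 | ⟨-, h2⟩
        · exact absurd h2 hχb
        · exact h2 α β γ hα hβ hγ hαβ hβγ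
      · rw [hD₁, if_neg h1] at hα
        simp [Dat.empty] at hα) (by
      intro hχb α' β' γ' hα hβ hγ hαβ hβγ
      simp only [Finset.mem_singleton] at hα hβ
      rw [hα, hβ] at hαβ
      exact absurd hαβ (lt_irrefl _)) n
  have hDp : DLe q₁ χ D (p.fn χ) := by
    rcases h1 with h1 | h1
    · rw [h1]; exact hDD₁
    · exact DLe.of_empty _ _ _ _ h1
  obtain ⟨hval, hle⟩ := upd_val hp hq₁ hq₁r (fun _ => hDcoh) hDp
  refine ⟨_, hval, hle, ?_, ?_⟩
  · unfold Cond.a; rw [upd_self, hDa]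
    exact Finset.mem_union_right _ (Finset.mem_singleton_self α)
  · unfold Cond.N; rw [upd_self]; exact hDN

end Pool.Agent.MP63050e
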