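import Pool.Agent.MP_63050e_lc.C4
import Pool.Agent.Lib.helper63.Completion

/-! The Boolean algebra and the generic objects. -/

set_option linter.unusedVariables false
set_option linter.unusedSectionVars false

namespace Pool.Agent.MP63050e

universe u v

/-- The properties of a dense embedding into a complete Boolean algebra. -/
structure DenseEmb {P : Type u} [Preorder P] {B : Type v} [CompleteBooleanAlgebra B]
    (em : P → B) : Prop where
  ne_bot : ∀ p, em p ≠ ⊥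
  mono : ∀ p q, p ≤ q → em p ≤ em q
  dense : ∀ b, b ≠ ⊥ → ∃ p, em p ≤ b
  compat : ∀ p q, em p ⊓ em q ≠ ⊥ → ∃ r, r ≤ p ∧ r ≤ q

namespace DenseEmb

variable {P : Type u} [Preorder P] {B : Type v} [CompleteBooleanAlgebra B] {em : P → B}

theorem le_of (h : DenseEmb em) {b c : B}
    (H : ∀ p, em p ≤ b → ∃ q, q ≤ p ∧ em q ≤ c) : b ≤ c := by
  by_contra hbc
  have hne : b ⊓ cᶜ ≠ ⊥ := by
    intro h0
    apply hbc
    have := le_compl_iff_disjoint_right.2 (disjoint_iff.2 h0)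
    rwa [compl_compl] at this
  obtain ⟨p, hp⟩ := h.dense _ hne
  obtain ⟨q, hqp, hqc⟩ := H p (hp.trans inf_le_left)
  apply h.ne_bot q
  rw [← le_bot_iff]
  have : em q ≤ c ⊓ cᶜ := le_inf hqc ((h.mono _ _ hqp).trans (hp.trans inf_le_right))
  rwa [inf_compl_self] at this

theorem exists_of_inf (h : DenseEmb em) {p : P} {b : B} (hb : em p ⊓ b ≠ ⊥) :
    ∃ q, q ≤ p ∧ em q ≤ b := by
  obtain ⟨s, hs⟩ := h.dense _ hb
  obtain ⟨r, hrp, hrs⟩ := h.compat p s (by
    have : em s ≤ em p ⊓ em s := le_inf (hs.trans inf_le_left) le_rfl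
    intro h0
    rw [h0, le_bot_iff] at this
    exact h.ne_bot s this)
  exact ⟨r, hrp, (h.mono _ _ hrs).trans (hs.trans inf_le_right)⟩

theorem exists_iSup (h : DenseEmb em) {ι : Sort*} {f : ι → B} {p : P} (hp : em p ≤ ⨆ i, f i) :
    ∃ i q, q ≤ p ∧ em q ≤ f i := by
  have : ∃ i, em p ⊓ f i ≠ ⊥ := by
    by_contra hne
    push Not at hne
    apply h.ne_bot p
    rw [← inf_eq_left.2 hp, inf_iSup_eq]
    simp [hne]
  obtain ⟨i, hi⟩ := this
  obtain ⟨q, hq, hq'⟩ := h.exists_of_inf hi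
  exact ⟨i, q, hq, hq'⟩

theorem disjoint_of (h : DenseEmb em) {p q : P} (hpq : ¬ ∃ r, r ≤ p ∧ r ≤ q) :
    Disjoint (em p) (em q) := by
  rw [disjoint_iff]
  by_contra hne
  exact hpq (h.compat p q hne)

end DenseEmb

/-- A partition of unity. -/
def IsPart {Y : Type*} {B : Type*} [CompleteBooleanAlgebra B] (g : Y → B) : Prop :=
  (⨆ y, g y = ⊤) ∧ Pairwise (fun y y' => Disjoint (g y) (g y'))

/-- The countable chain condition for `B`. -/
def CCC (B : Type*) [CompleteBooleanAlgebra B] : Prop :=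
  ∀ (ι : Type) (f : ι → B), (∀ i, f i ≠ ⊥) → Pairwise (fun i j => Disjoint (f i) (f j)) →
    Countable ι

variable {κ : Type} [LinearOrder κ]

/-- The poset of valid conditions. -/
structure PP (κ : Type) [LinearOrder κ] : Type where
  /-- the condition -/
  val : Cond κ
  prop : Val val

instance : Preorder (PP κ) where
  le q p := Le q.1 p.1
  le_refl p := Le.refl p.1
  le_trans a b c h1 h2 := Le.trans h1 h2

variable {B : Type} [CompleteBooleanAlgebra B] {em : PP κ → B}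

theorem CCC_of (h : DenseEmb em) : CCC B := by
  intro ι f hf hd
  by_contra hι
  have hS : ¬ (Set.univ : Set ι).Countable := by
    rwa [Set.countable_univ_iff]
  choose p hp using fun i => h.dense _ (hf i)
  obtain ⟨i, -, j, -, hij, r, hr, hri, hrj⟩ := ccc (fun i => (p i).1) (fun i => (p i).2) _ hS
  have h1 : em ⟨r, hr⟩ ≤ f i ⊓ f j :=
    le_inf ((h.mono _ _ (show (⟨r, hr⟩ : PP κ) ≤ p i from hri)).trans (hp i))
      ((h.mono _ _ (show (⟨r, hr⟩ : PP κ) ≤ p j from hrj)).trans (hp j))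
  have h2 := (hd hij).le_bot
  exact h.ne_bot _ (le_bot_iff.1 (h1.trans h2))

/-- A countable subset with the same supremum. -/
theorem exists_countable (h : DenseEmb em) (D : Set (PP κ))
    (hD : ∀ p q, q ∈ D → p ≤ q → p ∈ D) :
    ∃ C : Set (PP κ), C.Countable ∧ C ⊆ D ∧ ∀ p ∈ D, em p ≤ ⨆ c : C, em c.1 := by
  obtain ⟨C, hC⟩ : ∃ C, Maximal (fun C : Set (PP κ) => C ⊆ D ∧
      C.Pairwise (fun x y => Disjoint (em x) (em y))) C := by
    refine zorn_subset _ ?_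
    intro c hc hchain
    refine ⟨⋃₀ c, ⟨?_, ?_⟩, fun s hs => Set.subset_sUnion_of_mem hs⟩
    · exact Set.sUnion_subset fun s hs => (hc hs).1
    · intro x hx y hy hxy
      obtain ⟨s, hs, hxs⟩ := hx
      obtain ⟨t, ht, hyt⟩ := hy
      rcases hchain.total hs ht with hst | hst
      · exact (hc ht).2 (hst hxs) hyt hxy
      · exact (hc hs).2 hxs (hst hyt) hxy
  refine ⟨C, ?_, hC.prop.1, ?_⟩
  · have := CCC_of h C (fun c => em c.1) (fun c => h.ne_bot _) (by
      intro x y hxy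
      exact hC.prop.2 x.2 y.2 (fun h => hxy (Subtype.ext h)))
    exact Set.countable_coe_iff.1 this
  · intro p hp
    by_contra hne
    have h1 : em p ⊓ (⨆ c : C, em c.1)ᶜ ≠ ⊥ := by
      intro h0
      apply hne
      have := le_compl_iff_disjoint_right.2 (disjoint_iff.2 h0)
      rwa [compl_compl] at this
    obtain ⟨q, hqp, hq⟩ := h.exists_of_inf h1
    have hqD : q ∈ D := hD q p hp hqp
    have hdis : ∀ c ∈ C, Disjoint (em q) (em c) := by
      intro c hc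
      refine Disjoint.mono hq (le_iSup (fun c : C => em c.1) ⟨c, hc⟩) disjoint_compl_left
    have hqC : q ∈ C := by
      have h2 : insert q C ⊆ C := by
        refine hC.le_of_ge ⟨Set.insert_subset hqD hC.prop.1, ?_⟩ (Set.subset_insert q C)
        rw [Set.pairwise_insert]
        refine ⟨hC.prop.2, fun c hc _ => ⟨hdis c hc, (hdis c hc).symm⟩⟩
      exact h2 (Set.mem_insert q C)
    have h3 := hdis q hqC
    rw [disjoint_self] at h3
    exact h.ne_bot q h3

/-- The generic chain. -/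
noncomputable def fB (em : PP κ → B) (α : κ) (i n : ℕ) : B :=
  ⨆ p : {p : PP κ // α ∈ p.1.a .base ∧ i < p.1.N .base ∧ p.1.F α i = n}, em p.1

/-- The generic trivialisation at a name. -/
noncomputable def gB (em : PP κ → B) (χ : Nm κ) (α : κ) (i : ℕ) (v : VV) : B :=
  ⨆ p : {p : PP κ // α ∈ p.1.a χ ∧ i < p.1.N χ ∧ p.1.ψ χ α i = v}, em p.1

theorem density' (p : PP κ) {χ : Nm κ} (hχ : χ = .base ∨ Good χ) (α : κ) (n : ℕ) :
    ∃ r : PP κ, r ≤ p ∧ α ∈ r.1.a χ ∧ n ≤ r.1.N χ := by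
  obtain ⟨r, h1, h2, h3, h4⟩ := density p.2 hχ α n
  exact ⟨⟨r, h1⟩, h2, h3, h4⟩

theorem em_le_fB (p : PP κ) {α : κ} {i : ℕ} (hα : α ∈ p.1.a .base) (hi : i < p.1.N .base) :
    em p ≤ fB em α i (p.1.F α i) :=
  le_iSup (fun p : {p : PP κ // α ∈ p.1.a .base ∧ i < p.1.N .base ∧ p.1.F α i = _} => em p.1)
    ⟨p, hα, hi, rfl⟩

theorem em_le_gB (p : PP κ) {χ : Nm κ} {α : κ} {i : ℕ} (hα : α ∈ p.1.a χ) (hi : i < p.1.N χ) :
    em p ≤ gB em χ α i (p.1.ψ χ α i) :=
  le_iSup (fun p : {p : PP κ // α ∈ p.1.a χ ∧ i < p.1.N χ ∧ p.1.ψ χ α i = _} => em p.1)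
    ⟨p, hα, hi, rfl⟩

theorem gB_part (h : DenseEmb em) {χ : Nm κ} (hχ : χ = .base ∨ Good χ) (α : κ) (i : ℕ) :
    IsPart (gB em χ α i) := by
  constructor
  · rw [eq_top_iff]
    refine h.le_of fun p _ => ?_
    obtain ⟨r, hr, hα, hi⟩ := density' p hχ α (i + 1)
    exact ⟨r, hr, (em_le_gB r hα hi).trans (le_iSup _ _)⟩
  · intro v v' hvv'
    rw [gB, gB, iSup_disjoint_iff]
    intro p
    rw [disjoint_iSup_iff]
    intro q
    refine h.disjoint_of ?_
    rintro ⟨r, hrp, hrq⟩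
    apply hvv'
    rw [← p.2.2.2, ← q.2.2.2]
    rw [← (le_iff.1 hrp).2.2.1 χ α i p.2.1 p.2.2.1, ← (le_iff.1 hrq).2.2.1 χ α i q.2.1 q.2.2.1]

theorem fB_part (h : DenseEmb em) (α : κ) (i : ℕ) : IsPart (fB em α i) := by
  constructor
  · rw [eq_top_iff]
    refine h.le_of fun p _ => ?_
    obtain ⟨r, hr, hα, hi⟩ := density' p (Or.inl rfl) α (i + 1)
    exact ⟨r, hr, (em_le_fB r hα hi).trans (le_iSup _ _)⟩
  · intro v v' hvv'
    rw [fB, fB, iSup_disjoint_iff]
    intro p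
    rw [disjoint_iSup_iff]
    intro q
    refine h.disjoint_of ?_
    rintro ⟨r, hrp, hrq⟩
    apply hvv'
    rw [← p.2.2.2, ← q.2.2.2]
    rw [← Le.F_eq hrp p.2.1 p.2.2.1, ← Le.F_eq hrq q.2.1 q.2.2.1]

/-- The generic family is a chain. -/
theorem fB_chain (h : DenseEmb em) {α β : κ} (hαβ : α < β) :
    (⊤ : B) ≤ ⨆ N : ℕ, ⨅ i : {i : ℕ // N ≤ i}, ⨆ mn : {mn : ℕ × ℕ // mn.1 < mn.2},
      fB em α i.1 mn.1.1 ⊓ fB em β i.1 mn.1.2 := by
  refine h.le_of fun p _ => ?_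
  obtain ⟨q, hq, hα, -⟩ := density' p (Or.inl rfl) α 0
  obtain ⟨r, hr, hβ, -⟩ := density' q (Or.inl rfl) β 0
  have hα' : α ∈ r.1.a .base := (le_iff.1 hr).1 _ hα
  refine ⟨r, hr.trans hq, le_iSup_of_le (r.1.N .base) (le_iInf fun i => ?_)⟩
  refine h.le_of fun s hs => ?_
  -- first refine below r
  obtain ⟨t, hts, htr⟩ := h.compat s r (by
    rw [inf_eq_left.2 hs]; exact h.ne_bot s)
  obtain ⟨w, hw, -, hi⟩ := density' t (Or.inl rfl) α (i.1 + 1)
  have hwr : Le w.1 r.1 := (show Le w.1 t.1 from hw).trans htr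
  refine ⟨w, hw.trans hts, ?_⟩
  have hlt := (le_iff.1 hwr).2.2.2.1 α β i.1 hα' hβ hαβ i.2 hi
  refine le_iSup_of_le ⟨(w.1.F α i.1, w.1.F β i.1), hlt⟩ (le_inf ?_ ?_)
  · exact em_le_fB w ((le_iff.1 hwr).1 _ hα') hi
  · exact em_le_fB w ((le_iff.1 hwr).1 _ hβ) hi

/-- Clean version of a condition. -/
theorem exists_clean (p : PP κ) : ∃ (len : ℕ) (idx : ℕ → Nm κ) (dat : ℕ → Dat κ),
    Val (decode len idx dat) ∧ Le p.1 (decode len idx dat) ∧ Le (decode len idx dat) p.1 := by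
  classical
  obtain ⟨len, idx, dat, h1, -⟩ := exists_decode p.1
  have e1 : ∀ χ, (p.1.a χ).Nonempty → (decode len idx dat).fn χ = p.1.fn χ := by
    intro χ hχ
    have hχ' : ((p.1.fn χ).a).Nonempty := hχ
    rw [h1, if_pos hχ']
  have e2 : ∀ χ, ((decode len idx dat).a χ).Nonempty → (p.1.a χ).Nonempty := by
    intro χ hχ
    by_contra hne
    unfold Cond.a at hχ hne
    rw [h1, if_neg hne] at hχ
    simp [Dat.empty] at hχ
  have l1 : Le p.1 (decode len idx dat) :=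
    (Le.refl p.1).weaken fun χ hχ => e1 χ (e2 χ hχ)
  have l2 : Le (decode len idx dat) p.1 :=
    (Le.refl (decode len idx dat)).weaken fun χ hχ => (e1 χ hχ).symm
  refine ⟨len, idx, dat, ?_, l1, l2⟩
  intro χ hχ
  have hχ' := e2 χ hχ
  rcases p.2 χ hχ' with h2 | ⟨h2, h3⟩
  · exact Or.inl h2
  · refine Or.inr ⟨h2, ?_⟩
    have ea : (decode len idx dat).a χ = p.1.a χ := by unfold Cond.a; rw [e1 χ hχ']
    have eN : (decode len idx dat).N χ = p.1.N χ := by unfold Cond.N; rw [e1 χ hχ']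
    rw [ea, eN]
    intro α β γ hα hβ hγ hαβ hβγ
    refine (h3 α β γ hα hβ hγ hαβ hβγ).mono ?_ le_rfl
    exact (l2.restr _).below_left fun χ' hχ' => (Cond.restr_nonempty hχ').1

end Pool.Agent.MP63050e
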