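import Pool.Agent.MP_63050e_lc.C5

/-! Names for coherent families and their generic trivialisations (vector valued form). -/

set_option linter.unusedVariables false
set_option linter.unusedSectionVars false

namespace Pool.Agent.MP63050e

variable {κ : Type} [LinearOrder κ] {B : Type} [CompleteBooleanAlgebra B] {em : PP κ → B}

theorem countable_enum (h : DenseEmb em) (D : Set (PP κ))
    (hD : ∀ p q, q ∈ D → p ≤ q → p ∈ D) :
    ∃ (on : Prop) (e : ℕ → PP κ), (on → ∀ m, e m ∈ D) ∧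
      (∀ p ∈ D, on ∧ em p ≤ ⨆ m, em (e m)) := by
  obtain ⟨C, hC, hCD, hsup⟩ := exists_countable h D hD
  by_cases hne : C.Nonempty
  · obtain ⟨e, he⟩ := hC.exists_eq_range hne
    refine ⟨True, e, fun _ m => hCD (he ▸ Set.mem_range_self m), fun p hp => ⟨trivial, ?_⟩⟩
    refine (hsup p hp).trans (iSup_le fun c => ?_)
    obtain ⟨m, hm⟩ : c.1 ∈ Set.range e := he ▸ c.2
    rw [← hm]
    exact le_iSup (fun m => em (e m)) m
  · rw [Set.not_nonempty_iff_eq_empty] at hne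
    subst hne
    refine ⟨False, fun _ => ⟨Cond.one, (vd_one 0).val⟩, fun h => h.elim, fun p hp => ?_⟩
    have h1 := hsup p hp
    rw [iSup_of_empty, le_bot_iff] at h1
    exact absurd h1 (h.ne_bot p)

/-- The value of the coherence condition at one column. -/
noncomputable def cohv (em : PP κ → B) (Φ : κ → κ → ℕ → VV → B) (α β γ : κ) (i : ℕ) : B :=
  ⨆ t : {t : (VV × VV × VV) × ℕ × ℕ × ℕ //
      ∀ j, j < t.2.1 → j < t.2.2.1 → j < t.2.2.2 → t.1.1 j + t.1.2.1 j = t.1.2.2 j},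
    (Φ α β i t.1.1.1 ⊓ Φ β γ i t.1.1.2.1 ⊓ Φ α γ i t.1.1.2.2) ⊓
      (fB em α i t.1.2.1 ⊓ fB em β i t.1.2.2.1 ⊓ fB em γ i t.1.2.2.2)

/-- The value of the triviality condition at one column. -/
noncomputable def trivv (em : PP κ → B) (Φ : κ → κ → ℕ → VV → B) (G : κ → ℕ → VV → B)
    (α β : κ) (i : ℕ) : B :=
  ⨆ t : {t : (VV × VV × VV) × ℕ × ℕ //
      ∀ j, j < t.2.1 → j < t.2.2 → t.1.2.1 j - t.1.1 j = t.1.2.2 j},
    (G α i t.1.1.1 ⊓ G β i t.1.1.2.1 ⊓ Φ α β i t.1.1.2.2) ⊓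
      (fB em α i t.1.2.1 ⊓ fB em β i t.1.2.2)

theorem IsPart.eq_of {Y : Type*} {g : Y → B} (hg : IsPart g) {b : B} (hb : b ≠ ⊥) {y y' : Y}
    (h1 : b ≤ g y) (h2 : b ≤ g y') : y = y' := by
  by_contra hne
  exact hb (le_bot_iff.1 ((le_inf h1 h2).trans (hg.2 hne).le_bot))

theorem exists_name (h : DenseEmb em) (Φ : κ → κ → ℕ → VV → B)
    (hΦ : ∀ α β i, α < β → IsPart (Φ α β i))
    (hcoh : ∀ α β γ, α < β → β < γ →
      (⊤ : B) ≤ ⨆ N : ℕ, ⨅ i : {i : ℕ // N ≤ i}, cohv em Φ α β γ i.1) :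
    ∃ χ : Nm κ, χ ≠ .base ∧ Good χ ∧ ∀ (q : PP κ) α β i v, Dec χ q.1 α β i v →
      α < β ∧ em q ≤ Φ α β i v := by
  classical
  let D : κ → κ → ℕ → VV → Set (PP κ) := fun α β i v =>
    {p | α < β ∧ em p ≤ Φ α β i v ∧ α ∈ p.1.a .base ∧ β ∈ p.1.a .base ∧ i < p.1.N .base}
  have hDdown : ∀ α β i v, ∀ p q, q ∈ D α β i v → p ≤ q → p ∈ D α β i v := by
    rintro α β i v p q ⟨h1, h2, h3, h4, h5⟩ hpq
    have hle : Le p.1 q.1 := hpq
    exact ⟨h1, (h.mono _ _ hpq).trans h2, (hle.base_mem h3 h5).1, (hle.base_mem h4 h5).1,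
      (hle.base_mem h3 h5).2⟩
  choose on e hon hsup using fun α β i v => countable_enum h (D α β i v) (hDdown α β i v)
  choose len idx dat hval hle1 hle2 using fun p : PP κ => exists_clean p
  let χ : Nm κ := Nm.mk (fun q => on q.1 q.2.1 q.2.2.1 q.2.2.2.1)
    (fun q => len (e q.1 q.2.1 q.2.2.1 q.2.2.2.1 q.2.2.2.2))
    (fun q => idx (e q.1 q.2.1 q.2.2.1 q.2.2.2.1 q.2.2.2.2))
    (fun q => dat (e q.1 q.2.1 q.2.2.1 q.2.2.2.1 q.2.2.2.2))
  have hcond : ∀ α β i v m, χ.cond (α, β, i, v, m) =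
      decode (len (e α β i v m)) (idx (e α β i v m)) (dat (e α β i v m)) := fun _ _ _ _ _ => rfl
  have hχon : ∀ α β i v m, χ.on (α, β, i, v, m) ↔ on α β i v := fun _ _ _ _ _ => Iff.rfl
  have hDec : ∀ (q : PP κ) α β i v, Dec χ q.1 α β i v → α < β ∧ em q ≤ Φ α β i v := by
    rintro q α β i v ⟨m, h1, h2⟩
    rw [hχon] at h1
    have h3 := hon α β i v h1 m
    refine ⟨h3.1, le_trans (h.mono _ _ ?_) h3.2.1⟩
    change Le q.1 (e α β i v m).1
    rw [hcond] at h2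
    exact h2.trans (hle2 _)
  have hcondlt : ∀ q χ', ((χ.cond q).a χ').Nonempty → χ'.rk < χ.rk :=
    fun q χ' hχ' => Nm.rk_cond_lt χ q χ' hχ'
  have hχb : χ ≠ .base := by
    intro hh
    have h0 := Nm.rk_mk_pos (fun q : QQ κ => on q.1 q.2.1 q.2.2.1 q.2.2.2.1)
      (fun q => len (e q.1 q.2.1 q.2.2.1 q.2.2.2.1 q.2.2.2.2))
      (fun q => idx (e q.1 q.2.1 q.2.2.1 q.2.2.2.1 q.2.2.2.2))
      (fun q => dat (e q.1 q.2.1 q.2.2.1 q.2.2.2.1 q.2.2.2.2))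
    have h1 : 0 < χ.rk := h0
    rw [hh, Nm.rk_base] at h1
    exact lt_irrefl _ h1
  refine ⟨χ, hχb, ?_, hDec⟩
  refine ⟨?_, ?_, ?_, ?_⟩
  · -- ok
    intro α β i v m h1
    rw [hχon] at h1
    have h3 := hon α β i v h1 m
    have h4 := hle1 (e α β i v m)
    have h5 := hle2 (e α β i v m)
    refine ⟨?_, ?_⟩
    · rw [vd_iff]
      exact ⟨by rw [hcond]; exact hval _, fun χ' hχ' => hcondlt _ χ' hχ'⟩
    · rw [hcond]
      exact ⟨(h5.base_mem h3.2.2.1 h3.2.2.2.2).1, (h5.base_mem h3.2.2.2.1 h3.2.2.2.2).1,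
        (h5.base_mem h3.2.2.1 h3.2.2.2.2).2⟩
  · -- func
    intro q hq α β i v v' h1 h2
    obtain ⟨h3, h4⟩ := hDec ⟨q, hq.val⟩ α β i v h1
    obtain ⟨-, h5⟩ := hDec ⟨q, hq.val⟩ α β i v' h2
    exact (hΦ α β i h3).eq_of (h.ne_bot _) h4 h5
  · -- tot
    intro q hq α β i hαβ
    have h1 : em ⟨q, hq.val⟩ ≤ ⨆ v, Φ α β i v := by
      rw [(hΦ α β i hαβ).1]; exact le_top
    obtain ⟨v, r, hrq, hr⟩ := h.exists_iSup h1
    obtain ⟨r₁, hr₁, hα, hi⟩ := density' r (Or.inl rfl) α (i + 1)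
    obtain ⟨r₂, hr₂, hβ, hi'⟩ := density' r₁ (Or.inl rfl) β (i + 1)
    have hr₂le : Le r₂.1 r₁.1 := hr₂
    have h2 : r₂ ∈ D α β i v :=
      ⟨hαβ, (h.mono _ _ (hr₂.trans hr₁)).trans hr, (le_iff.1 hr₂le).1 _ hα, hβ, hi'⟩
    obtain ⟨hon', h3⟩ := hsup α β i v r₂ h2
    obtain ⟨m, s, hs, hs'⟩ := h.exists_iSup h3
    obtain ⟨t, hts, hte⟩ := h.compat s (e α β i v m) (by
      rw [inf_eq_left.2 hs']; exact h.ne_bot s)
    have htq : Le t.1 q := by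
      have : t ≤ ⟨q, hq.val⟩ := hts.trans (hs.trans (hr₂.trans (hr₁.trans hrq)))
      exact this
    have htc : Le t.1 (χ.cond (α, β, i, v, m)) := by
      rw [hcond]
      exact (show Le t.1 (e α β i v m).1 from hte).trans (hle1 _)
    refine ⟨t.1.below χ.rk, t.2.below _, htq.below_left (vd_iff.1 hq).2, v, m, ?_,
      htc.below_left (hcondlt _)⟩
    rw [hχon]; exact hon'
  · -- coh
    intro q hq α β γ hαβ hβγ
    have h1 : em ⟨q, hq.val⟩ ≤ ⨆ N : ℕ, ⨅ i : {i : ℕ // N ≤ i}, cohv em Φ α β γ i.1 :=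
      le_top.trans (hcoh α β γ hαβ hβγ)
    obtain ⟨N, r, hrq, hr⟩ := h.exists_iSup h1
    have hrq' : Le r.1 q := hrq
    refine ⟨r.1.below χ.rk, r.2.below _, hrq'.below_left (vd_iff.1 hq).2, N, ?_⟩
    intro s hs hsr i hi v₁ v₂ v₃ hv₁ hv₂ hv₃ j hj1 hj2 hj3
    obtain ⟨t, ht, hts, htr⟩ := glue χ r.2 hs hsr
    -- base membership
    have hb : ∀ α β v, Dec χ s α β i v → α ∈ s.a .base ∧ β ∈ s.a .base ∧ i < s.N .base := by
      rintro α β v ⟨m, h1, h2⟩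
      rw [hχon] at h1
      have h3 := hon α β i v h1 m
      have h4 : Le s (e α β i v m).1 := by
        rw [hcond] at h2
        exact h2.trans (hle2 _)
      exact ⟨(h4.base_mem h3.2.2.1 h3.2.2.2.2).1, (h4.base_mem h3.2.2.2.1 h3.2.2.2.2).1,
        (h4.base_mem h3.2.2.1 h3.2.2.2.2).2⟩
    obtain ⟨hαs, hβs, his⟩ := hb α β v₁ hv₁
    obtain ⟨-, hγs, -⟩ := hb β γ v₂ hv₂
    let t' : PP κ := ⟨t, ht⟩
    have e1 := (hDec t' α β i v₁ (hv₁.mono hts)).2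
    have e2 := (hDec t' β γ i v₂ (hv₂.mono hts)).2
    have e3 := (hDec t' α γ i v₃ (hv₃.mono hts)).2
    have f1 : em t' ≤ fB em α i (s.F α i) := by
      rw [← hts.F_eq hαs his]
      exact em_le_fB t' (hts.base_mem hαs his).1 (hts.base_mem hαs his).2
    have f2 : em t' ≤ fB em β i (s.F β i) := by
      rw [← hts.F_eq hβs his]
      exact em_le_fB t' (hts.base_mem hβs his).1 (hts.base_mem hβs his).2
    have f3 : em t' ≤ fB em γ i (s.F γ i) := by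
      rw [← hts.F_eq hγs his]
      exact em_le_fB t' (hts.base_mem hγs his).1 (hts.base_mem hγs his).2
    have hX : em t' ≤ cohv em Φ α β γ i :=
      (h.mono t' r htr).trans (hr.trans (iInf_le _ (⟨i, hi⟩ : {i : ℕ // N ≤ i})))
    obtain ⟨⟨⟨⟨w₁, w₂, w₃⟩, a, b, c⟩, hw⟩, u, hu, hu'⟩ := h.exists_iSup hX
    simp only at hw hu'
    have hut := h.mono _ _ hu
    have g1 := (hΦ α β i hαβ).eq_of (h.ne_bot u) (hut.trans e1)
      (hu'.trans (inf_le_left.trans (inf_le_left.trans inf_le_left)))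
    have g2 := (hΦ β γ i hβγ).eq_of (h.ne_bot u) (hut.trans e2)
      (hu'.trans (inf_le_left.trans (inf_le_left.trans inf_le_right)))
    have g3 := (hΦ α γ i (hαβ.trans hβγ)).eq_of (h.ne_bot u) (hut.trans e3)
      (hu'.trans (inf_le_left.trans inf_le_right))
    have k1 := (fB_part h α i).eq_of (h.ne_bot u) (hut.trans f1)
      (hu'.trans (inf_le_right.trans (inf_le_left.trans inf_le_left)))
    have k2 := (fB_part h β i).eq_of (h.ne_bot u) (hut.trans f2)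
      (hu'.trans (inf_le_right.trans (inf_le_left.trans inf_le_right)))
    have k3 := (fB_part h γ i).eq_of (h.ne_bot u) (hut.trans f3)
      (hu'.trans (inf_le_right.trans inf_le_right))
    subst g1 g2 g3
    exact hw j (k1 ▸ hj1) (k2 ▸ hj2) (k3 ▸ hj3)

/-- The core theorem, vector valued form. -/
theorem core_vec (h : DenseEmb em) (Φ : κ → κ → ℕ → VV → B)
    (hΦ : ∀ α β i, α < β → IsPart (Φ α β i))
    (hcoh : ∀ α β γ, α < β → β < γ →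
      (⊤ : B) ≤ ⨆ N : ℕ, ⨅ i : {i : ℕ // N ≤ i}, cohv em Φ α β γ i.1) :
    ∃ G : κ → ℕ → VV → B, (∀ α i, IsPart (G α i)) ∧ ∀ α β, α < β →
      (⊤ : B) ≤ ⨆ N : ℕ, ⨅ i : {i : ℕ // N ≤ i}, trivv em Φ G α β i.1 := by
  obtain ⟨χ, hχb, hχ, hDec⟩ := exists_name h Φ hΦ hcoh
  refine ⟨gB em χ, fun α i => gB_part h (Or.inr hχ) α i, fun α β hαβ => ?_⟩
  refine h.le_of fun p _ => ?_
  obtain ⟨q, hq, hα, -⟩ := density' p (Or.inr hχ) α 0
  obtain ⟨r, hr, hβ, -⟩ := density' q (Or.inr hχ) β 0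
  have hα' : α ∈ r.1.a χ := (le_iff.1 hr).1 _ hα
  refine ⟨r, hr.trans hq, le_iSup_of_le (r.1.N χ) (le_iInf fun i => ?_)⟩
  refine h.le_of fun s hs => ?_
  obtain ⟨t, hts, htr⟩ := h.compat s r (by
    rw [inf_eq_left.2 hs]; exact h.ne_bot s)
  obtain ⟨w, hw, -, hi⟩ := density' t (Or.inr hχ) α (i.1 + 1)
  have hwr : Le w.1 r.1 := (show Le w.1 t.1 from hw).trans htr
  refine ⟨w, hw.trans hts, ?_⟩
  obtain ⟨⟨hb1, hb2, hb3⟩, v, hv, hj⟩ := (le_iff.1 hwr).2.2.2.2 χ α β i.1 hχb hα' hβ hαβ i.2 hi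
  refine le_iSup_of_le ⟨((w.1.ψ χ α i.1, w.1.ψ χ β i.1, v), w.1.F α i.1, w.1.F β i.1), hj⟩
    (le_inf (le_inf (le_inf ?_ ?_) ?_) (le_inf ?_ ?_))
  · exact em_le_gB w ((le_iff.1 hwr).1 _ hα') hi
  · exact em_le_gB w ((le_iff.1 hwr).1 _ hβ) hi
  · exact (hDec w α β i.1 v hv).2
  · exact em_le_fB w hb1 hb3
  · exact em_le_fB w hb2 hb3

end Pool.Agent.MP63050e
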