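import Pool.Agent.MP_63050e_lc.C6

/-! Scalar form of the core theorem. -/

set_option linter.unusedVariables false
set_option linter.unusedSectionVars false

namespace Pool.Agent.MP63050e

variable {κ : Type} [LinearOrder κ] {B : Type} [CompleteBooleanAlgebra B] {em : PP κ → B}

/-- The Boolean value of `j < f_α(i)`. -/
noncomputable def fgt (f : κ → ℕ → ℕ → B) (α : κ) (i j : ℕ) : B :=
  ⨆ n : {n : ℕ // j < n}, f α i n.1

/-- Coherence beyond column `N`. -/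
noncomputable def cohS (f : κ → ℕ → ℕ → B) (Φ : κ → κ → ℕ → ℕ → ℤ → B) (α β γ : κ)
    (N : ℕ) : B :=
  ⨅ i : {i : ℕ // N ≤ i}, ⨅ j : ℕ, ⨅ z : {z : ℤ × ℤ × ℤ // z.1 + z.2.1 ≠ z.2.2},
    ((fgt f α i.1 j ⊓ fgt f β i.1 j ⊓ fgt f γ i.1 j) ⊓
      (Φ α β i.1 j z.1.1 ⊓ Φ β γ i.1 j z.1.2.1 ⊓ Φ α γ i.1 j z.1.2.2))ᶜ

/-- Triviality beyond column `N`. -/
noncomputable def trivS (f : κ → ℕ → ℕ → B) (Φ : κ → κ → ℕ → ℕ → ℤ → B)
    (Ψ : κ → ℕ → ℕ → ℤ → B) (α β : κ) (N : ℕ) : B :=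
  ⨅ i : {i : ℕ // N ≤ i}, ⨅ j : ℕ, ⨅ z : {z : ℤ × ℤ × ℤ // z.2.1 - z.1 ≠ z.2.2},
    ((fgt f α i.1 j ⊓ fgt f β i.1 j) ⊓
      (Ψ α i.1 j z.1.1 ⊓ Ψ β i.1 j z.1.2.1 ⊓ Φ α β i.1 j z.1.2.2))ᶜ

/-- Column vectors from scalars. -/
noncomputable def vec (em : PP κ → B) (Φ : κ → κ → ℕ → ℕ → ℤ → B) (α β : κ) (i : ℕ)
    (v : VV) : B :=
  ⨆ ab : {ab : ℕ × ℕ // ∀ j, ¬ (j < ab.1 ∧ j < ab.2) → v j = 0},
    (fB em α i ab.1.1 ⊓ fB em β i ab.1.2) ⊓
      ⨅ j : {j : ℕ // j < ab.1.1 ∧ j < ab.1.2}, Φ α β i j.1 (v j.1)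

theorem DenseEmb.decide (h : DenseEmb em) {Y : Type*} {g : Y → B} (hg : IsPart g) (p : PP κ) :
    ∃ y q, q ≤ p ∧ em q ≤ g y :=
  h.exists_iSup (le_top.trans hg.1.ge)

theorem DenseEmb.decide_list (h : DenseEmb em) {g : ℕ → ℤ → B} (hg : ∀ j, IsPart (g j))
    (n : ℕ) (p : PP κ) :
    ∃ (v : ℕ → ℤ) (q : PP κ), q ≤ p ∧ ∀ j, j < n → em q ≤ g j (v j) := by
  induction n with
  | zero => exact ⟨fun _ => 0, p, le_rfl, fun j hj => absurd hj (Nat.not_lt_zero j)⟩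
  | succ n ih =>
    obtain ⟨v, q, hq, hv⟩ := ih
    obtain ⟨z, r, hr, hz⟩ := h.decide (hg n) q
    refine ⟨fun j => if j = n then z else v j, r, hr.trans hq, fun j hj => ?_⟩
    by_cases hjn : j = n
    · subst hjn
      simpa using hz
    · simp only [hjn, if_false]
      exact (h.mono _ _ hr).trans (hv j (by omega))

theorem vec_spec (h : DenseEmb em) {Φ : κ → κ → ℕ → ℕ → ℤ → B}
    (hΦ : ∀ α β i j, α < β → IsPart (Φ α β i j)) {α β : κ} (hαβ : α < β) {i : ℕ} {v : VV}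
    {p : PP κ} (hp : em p ≤ vec em Φ α β i v) :
    ∃ a b, (∀ j, ¬ (j < a ∧ j < b) → v j = 0) ∧ ∃ q, q ≤ p ∧ em q ≤ fB em α i a ∧
      em q ≤ fB em β i b ∧ ∀ j, j < a → j < b → em q ≤ Φ α β i j (v j) := by
  obtain ⟨⟨⟨a, b⟩, hab⟩, q, hq, hq'⟩ := h.exists_iSup hp
  refine ⟨a, b, hab, q, hq, hq'.trans (inf_le_left.trans inf_le_left),
    hq'.trans (inf_le_left.trans inf_le_right), fun j hj1 hj2 => ?_⟩
  exact hq'.trans (inf_le_right.trans
    (iInf_le (fun j : {j : ℕ // j < a ∧ j < b} => Φ α β i j.1 (v j.1)) ⟨j, hj1, hj2⟩))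

theorem vec_part (h : DenseEmb em) {Φ : κ → κ → ℕ → ℕ → ℤ → B}
    (hΦ : ∀ α β i j, α < β → IsPart (Φ α β i j)) {α β : κ} (hαβ : α < β) (i : ℕ) :
    IsPart (vec em Φ α β i) := by
  constructor
  · rw [eq_top_iff]
    refine h.le_of fun p _ => ?_
    obtain ⟨a, q, hq, ha⟩ := h.decide (fB_part h α i) p
    obtain ⟨b, r, hr, hb⟩ := h.decide (fB_part h β i) q
    obtain ⟨v, s, hs, hv⟩ := h.decide_list (fun j => hΦ α β i j hαβ) (max a b) r
    let w : VV := Finsupp.onFinset (Finset.range (max a b))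
      (fun j => if j < a ∧ j < b then v j else 0) (by
        intro j hj
        rw [Finset.mem_range]
        by_contra hne
        rw [if_neg (by omega)] at hj
        exact hj rfl)
    have hw : ∀ j, w j = if j < a ∧ j < b then v j else 0 := fun j => Finsupp.onFinset_apply
    refine ⟨s, hs.trans (hr.trans hq), le_trans ?_ (le_iSup _ w)⟩
    refine le_iSup_of_le ⟨(a, b), fun j hj => by rw [hw, if_neg hj]⟩ (le_inf (le_inf ?_ ?_) ?_)
    · exact (h.mono _ _ (hs.trans hr)).trans ha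
    · exact (h.mono _ _ hs).trans hb
    · refine le_iInf fun j => ?_
      rw [hw, if_pos j.2]
      exact hv j.1 (lt_of_lt_of_le j.2.1 (le_max_left _ _))
  · intro v v' hne
    change Disjoint _ _
    rw [disjoint_iff]
    by_contra hbot
    obtain ⟨p, hp⟩ := h.dense _ hbot
    obtain ⟨a, b, hab, q, hq, ha, hb, hj⟩ := vec_spec h hΦ hαβ (hp.trans inf_le_left)
    obtain ⟨a', b', hab', r, hr, ha', hb', hj'⟩ := vec_spec h hΦ hαβ
      ((h.mono _ _ hq).trans (hp.trans inf_le_right))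
    have e1 : a = a' := (fB_part h α i).eq_of (h.ne_bot r) ((h.mono _ _ hr).trans ha) ha'
    have e2 : b = b' := (fB_part h β i).eq_of (h.ne_bot r) ((h.mono _ _ hr).trans hb) hb'
    subst e1 e2
    apply hne
    ext j
    by_cases hjab : j < a ∧ j < b
    · exact (hΦ α β i j hαβ).eq_of (h.ne_bot r) ((h.mono _ _ hr).trans (hj j hjab.1 hjab.2))
        (hj' j hjab.1 hjab.2)
    · rw [hab j hjab, hab' j hjab]

theorem le_fgt {f : κ → ℕ → ℕ → B} {α : κ} {i j n : ℕ} (hjn : j < n) {b : B}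
    (hb : b ≤ f α i n) : b ≤ fgt f α i j :=
  hb.trans (le_iSup (fun n : {n : ℕ // j < n} => f α i n.1) ⟨n, hjn⟩)

theorem lt_of_fgt (h : DenseEmb em) {α : κ} {i j n : ℕ} {p : PP κ}
    (h1 : em p ≤ fgt (fB em) α i j) (h2 : em p ≤ fB em α i n) : j < n := by
  obtain ⟨⟨m, hm⟩, q, hq, hq'⟩ := h.exists_iSup h1
  have := (fB_part h α i).eq_of (h.ne_bot q) hq' ((h.mono _ _ hq).trans h2)
  subst this
  exact hm

/-- The core theorem, scalar form, for families coherent with value `⊤`. -/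
theorem core_scalar_top (h : DenseEmb em) (Φ : κ → κ → ℕ → ℕ → ℤ → B)
    (hΦ : ∀ α β i j, α < β → IsPart (Φ α β i j))
    (hcoh : ∀ α β γ, α < β → β < γ → (⊤ : B) ≤ ⨆ N : ℕ, cohS (fB em) Φ α β γ N) :
    ∃ Ψ : κ → ℕ → ℕ → ℤ → B, (∀ α i j, IsPart (Ψ α i j)) ∧ ∀ α β, α < β →
      (⊤ : B) ≤ ⨆ N : ℕ, trivS (fB em) Φ Ψ α β N := by
  have hpart : ∀ α β i, α < β → IsPart (vec em Φ α β i) := fun α β i hαβ => vec_part h hΦ hαβ i
  obtain ⟨G, hG, htriv⟩ := core_vec h (vec em Φ) hpart (by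
    intro α β γ hαβ hβγ
    have hαγ := hαβ.trans hβγ
    refine h.le_of fun p _ => ?_
    obtain ⟨N, q, hq, hN⟩ := h.exists_iSup (p := p) (le_top.trans (hcoh α β γ hαβ hβγ))
    refine ⟨q, hq, le_iSup_of_le N (le_iInf fun i => ?_)⟩
    refine h.le_of fun r hr => ?_
    obtain ⟨v₁, r₁, hr₁, hv₁⟩ := h.decide (hpart α β i.1 hαβ) r
    obtain ⟨v₂, r₂, hr₂, hv₂⟩ := h.decide (hpart β γ i.1 hβγ) r₁
    obtain ⟨v₃, r₃, hr₃, hv₃⟩ := h.decide (hpart α γ i.1 hαγ) r₂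
    obtain ⟨a, b, hab, s₁, hs₁, ha, hb, hj₁⟩ := vec_spec h hΦ hαβ
      ((h.mono _ _ (hr₃.trans hr₂)).trans hv₁)
    obtain ⟨b', c, hbc, s₂, hs₂, hb', hc, hj₂⟩ := vec_spec h hΦ hβγ
      ((h.mono _ _ (hs₁.trans hr₃)).trans hv₂)
    obtain ⟨a', c', hac, s₃, hs₃, ha', hc', hj₃⟩ := vec_spec h hΦ hαγ
      ((h.mono _ _ (hs₂.trans hs₁)).trans hv₃)
    have m2 := h.mono _ _ hs₃
    have m1 := h.mono _ _ (hs₃.trans hs₂)
    have e1 : b = b' := (fB_part h β i.1).eq_of (h.ne_bot s₃) (m1.trans hb) (m2.trans hb')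
    have e2 : a = a' := (fB_part h α i.1).eq_of (h.ne_bot s₃) (m1.trans ha) ha'
    have e3 : c = c' := (fB_part h γ i.1).eq_of (h.ne_bot s₃) (m2.trans hc) hc'
    subst e1 e2 e3
    have m0 := h.mono _ _ (hs₃.trans (hs₂.trans hs₁))
    have m00 := h.mono _ _ (hs₃.trans (hs₂.trans (hs₁.trans (hr₃.trans (hr₂.trans hr₁)))))
    have hident : ∀ j, j < a → j < b → j < c → v₁ j + v₂ j = v₃ j := by
      intro j hja hjb hjc
      by_contra hne
      have h1 : em s₃ ≤ ((fgt (fB em) α i.1 j ⊓ fgt (fB em) β i.1 j ⊓ fgt (fB em) γ i.1 j) ⊓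
          (Φ α β i.1 j (v₁ j) ⊓ Φ β γ i.1 j (v₂ j) ⊓ Φ α γ i.1 j (v₃ j)))ᶜ := by
        refine m00.trans (hr.trans (hN.trans ?_))
        refine (iInf_le _ i).trans ((iInf_le _ j).trans ?_)
        exact iInf_le (fun z : {z : ℤ × ℤ × ℤ // z.1 + z.2.1 ≠ z.2.2} =>
          ((fgt (fB em) α i.1 j ⊓ fgt (fB em) β i.1 j ⊓ fgt (fB em) γ i.1 j) ⊓
          (Φ α β i.1 j z.1.1 ⊓ Φ β γ i.1 j z.1.2.1 ⊓ Φ α γ i.1 j z.1.2.2))ᶜ)
          ⟨(v₁ j, v₂ j, v₃ j), hne⟩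
      have h2 : em s₃ ≤ (fgt (fB em) α i.1 j ⊓ fgt (fB em) β i.1 j ⊓ fgt (fB em) γ i.1 j) ⊓
          (Φ α β i.1 j (v₁ j) ⊓ Φ β γ i.1 j (v₂ j) ⊓ Φ α γ i.1 j (v₃ j)) := by
        refine le_inf (le_inf (le_inf ?_ ?_) ?_) (le_inf (le_inf ?_ ?_) ?_)
        · exact le_fgt hja (m1.trans ha)
        · exact le_fgt hjb (m1.trans hb)
        · exact le_fgt hjc (m2.trans hc)
        · exact m1.trans (hj₁ j hja hjb)
        · exact m2.trans (hj₂ j hjb hjc)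
        · exact hj₃ j hja hjc
      have h3 := le_inf h2 h1
      rw [inf_compl_self] at h3
      exact h.ne_bot _ (le_bot_iff.1 h3)
    refine ⟨s₃, hs₃.trans (hs₂.trans (hs₁.trans (hr₃.trans (hr₂.trans hr₁)))), ?_⟩
    refine le_iSup_of_le ⟨((v₁, v₂, v₃), a, b, c), hident⟩
      (le_inf (le_inf (le_inf ?_ ?_) ?_) (le_inf (le_inf ?_ ?_) ?_))
    · exact (h.mono _ _ (hs₃.trans (hs₂.trans (hs₁.trans (hr₃.trans hr₂))))).trans hv₁
    · exact (h.mono _ _ (hs₃.trans (hs₂.trans (hs₁.trans hr₃)))).trans hv₂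
    · exact m0.trans hv₃
    · exact m1.trans ha
    · exact m1.trans hb
    · exact m2.trans hc)
  refine ⟨fun α i j z => ⨆ v : {v : VV // v j = z}, G α i v.1, ?_, ?_⟩
  · intro α i j
    constructor
    · rw [eq_top_iff, ← (hG α i).1]
      refine iSup_le fun v => ?_
      refine le_iSup_of_le (v j) ?_
      exact le_iSup (fun w : {w : VV // w j = v j} => G α i w.1) ⟨v, rfl⟩
    · intro z z' hne
      change Disjoint _ _
      rw [iSup_disjoint_iff]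
      intro v
      rw [disjoint_iSup_iff]
      intro v'
      refine (hG α i).2 ?_
      intro heq
      apply hne
      rw [← v.2, ← v'.2, heq]
  · intro α β hαβ
    refine (htriv α β hαβ).trans (iSup_mono fun N => ?_)
    refine le_iInf fun i => le_iInf fun j => le_iInf fun z => ?_
    rw [le_compl_iff_disjoint_right, disjoint_iff]
    by_contra hbot
    obtain ⟨p, hp⟩ := h.dense _ hbot
    have hp1 : em p ≤ trivv em (vec em Φ) G α β i.1 := hp.trans (inf_le_left.trans (iInf_le _ i))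
    have hp2 := hp.trans inf_le_right
    obtain ⟨⟨⟨⟨v₁, v₂, v₃⟩, a, b⟩, hident⟩, s, hs, hs'⟩ := h.exists_iSup hp1
    simp only at hident hs'
    have ms := h.mono _ _ hs
    have ha : em s ≤ fB em α i.1 a := hs'.trans (inf_le_right.trans inf_le_left)
    have hb : em s ≤ fB em β i.1 b := hs'.trans (inf_le_right.trans inf_le_right)
    have hja : j.succ ≤ a := lt_of_fgt h (ms.trans (hp2.trans (inf_le_left.trans inf_le_left))) ha
    have hjb : j.succ ≤ b := lt_of_fgt h (ms.trans (hp2.trans (inf_le_left.trans inf_le_right))) hb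
    obtain ⟨a', b', hab, t, ht, ha', hb', hj⟩ := vec_spec h hΦ hαβ
      (hs'.trans (inf_le_left.trans inf_le_right))
    have mt := h.mono _ _ ht
    have e1 : a = a' := (fB_part h α i.1).eq_of (h.ne_bot t) (mt.trans ha) ha'
    have e2 : b = b' := (fB_part h β i.1).eq_of (h.ne_bot t) (mt.trans hb) hb'
    subst e1 e2
    have hz3 : v₃ j = z.1.2.2 := (hΦ α β i.1 j hαβ).eq_of (h.ne_bot t) (hj j hja hjb)
      (mt.trans (ms.trans (hp2.trans (inf_le_right.trans inf_le_right))))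
    obtain ⟨⟨w₁, hw₁⟩, t₁, ht₁, ht₁'⟩ := h.exists_iSup
      (mt.trans (ms.trans (hp2.trans (inf_le_right.trans (inf_le_left.trans inf_le_left)))))
    obtain ⟨⟨w₂, hw₂⟩, t₂, ht₂, ht₂'⟩ := h.exists_iSup
      ((h.mono _ _ ht₁).trans (mt.trans (ms.trans (hp2.trans
        (inf_le_right.trans (inf_le_left.trans inf_le_right))))))
    have m2 := (h.mono _ _ (ht₂.trans (ht₁.trans ht)))
    have g1 : v₁ = w₁ := (hG α i.1).eq_of (h.ne_bot t₂)
      (m2.trans (hs'.trans (inf_le_left.trans (inf_le_left.trans inf_le_left))))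
      ((h.mono _ _ ht₂).trans ht₁')
    have g2 : v₂ = w₂ := (hG β i.1).eq_of (h.ne_bot t₂)
      (m2.trans (hs'.trans (inf_le_left.trans (inf_le_left.trans inf_le_right)))) ht₂'
    subst g1 g2
    apply z.2
    rw [← hw₁, ← hw₂, ← hz3]
    exact hident j hja hjb

/-- The core theorem, scalar form. -/
theorem core_scalar (h : DenseEmb em) (Φ : κ → κ → ℕ → ℕ → ℤ → B) (b : B)
    (hΦ : ∀ α β i j, α < β → b ≤ ⨆ z, Φ α β i j z)
    (hΦd : ∀ α β i j, α < β → ∀ z z', z ≠ z' → b ⊓ (Φ α β i j z ⊓ Φ α β i j z') = ⊥)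
    (hcoh : ∀ α β γ, α < β → β < γ → b ≤ ⨆ N : ℕ, cohS (fB em) Φ α β γ N) :
    ∃ Ψ : κ → ℕ → ℕ → ℤ → B, (∀ α i j, IsPart (Ψ α i j)) ∧ ∀ α β, α < β →
      b ≤ ⨆ N : ℕ, trivS (fB em) Φ Ψ α β N := by
  classical
  let Φ' : κ → κ → ℕ → ℕ → ℤ → B := fun α β i j z =>
    (b ⊓ Φ α β i j z) ⊔ (if z = 0 then bᶜ else ⊥)
  have hΦ' : ∀ α β i j z, b ⊓ Φ' α β i j z = b ⊓ Φ α β i j z := by
    intro α β i j z
    change b ⊓ ((b ⊓ Φ α β i j z) ⊔ (if z = 0 then bᶜ else ⊥)) = _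
    rw [inf_sup_left, ← inf_assoc, inf_idem]
    have : b ⊓ (if z = 0 then bᶜ else ⊥) = ⊥ := by
      split_ifs <;> simp
    rw [this, sup_bot_eq]
  have hcohN : ∀ α β γ N, b ⊓ cohS (fB em) Φ α β γ N ≤ cohS (fB em) Φ' α β γ N := by
    intro α β γ N
    refine le_iInf fun i => le_iInf fun j => le_iInf fun z => ?_
    rw [le_compl_iff_disjoint_right, disjoint_iff_inf_le]
    have h1 : cohS (fB em) Φ α β γ N ≤ ((fgt (fB em) α i.1 j ⊓ fgt (fB em) β i.1 j ⊓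
        fgt (fB em) γ i.1 j) ⊓
        (Φ α β i.1 j z.1.1 ⊓ Φ β γ i.1 j z.1.2.1 ⊓ Φ α γ i.1 j z.1.2.2))ᶜ :=
      (iInf_le _ i).trans ((iInf_le _ j).trans (iInf_le _ z))
    set X := fgt (fB em) α i.1 j ⊓ fgt (fB em) β i.1 j ⊓ fgt (fB em) γ i.1 j with hX
    have h2 : b ⊓ (Φ' α β i.1 j z.1.1 ⊓ Φ' β γ i.1 j z.1.2.1 ⊓ Φ' α γ i.1 j z.1.2.2) ≤
        Φ α β i.1 j z.1.1 ⊓ Φ β γ i.1 j z.1.2.1 ⊓ Φ α γ i.1 j z.1.2.2 := by
      refine le_inf (le_inf ?_ ?_) ?_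
      · refine le_trans (le_inf inf_le_left (inf_le_right.trans (inf_le_left.trans inf_le_left))) ?_
        rw [hΦ']; exact inf_le_right
      · refine le_trans (le_inf inf_le_left (inf_le_right.trans (inf_le_left.trans inf_le_right))) ?_
        rw [hΦ']; exact inf_le_right
      · refine le_trans (le_inf inf_le_left (inf_le_right.trans inf_le_right)) ?_
        rw [hΦ']; exact inf_le_right
    set Y := Φ α β i.1 j z.1.1 ⊓ Φ β γ i.1 j z.1.2.1 ⊓ Φ α γ i.1 j z.1.2.2 with hY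
    set Y' := Φ' α β i.1 j z.1.1 ⊓ Φ' β γ i.1 j z.1.2.1 ⊓ Φ' α γ i.1 j z.1.2.2 with hY'
    have h3 : b ⊓ cohS (fB em) Φ α β γ N ⊓ (X ⊓ Y') ≤ (X ⊓ Y) ⊓ (X ⊓ Y)ᶜ := by
      refine le_inf (le_inf (inf_le_right.trans inf_le_left) ?_)
        (inf_le_left.trans (inf_le_right.trans h1))
      refine le_trans ?_ h2
      exact le_inf (inf_le_left.trans inf_le_left) (inf_le_right.trans inf_le_right)
    rwa [inf_compl_self] at h3
  have hcohN' : ∀ α β γ N, bᶜ ≤ cohS (fB em) Φ' α β γ N := by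
    intro α β γ N
    refine le_iInf fun i => le_iInf fun j => le_iInf fun z => ?_
    rw [le_compl_iff_disjoint_right, disjoint_iff_inf_le]
    have h0 : ∀ α β i j z, z ≠ 0 → bᶜ ⊓ Φ' α β i j z = ⊥ := by
      intro α β i j z hz
      change bᶜ ⊓ ((b ⊓ Φ α β i j z) ⊔ (if z = 0 then bᶜ else ⊥)) = ⊥
      rw [if_neg hz, sup_bot_eq, ← inf_assoc, compl_inf_self, bot_inf_eq]
    by_cases hz1 : z.1.1 = 0
    · by_cases hz2 : z.1.2.1 = 0
      · have hz3 : z.1.2.2 ≠ 0 := by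
          intro hz3
          apply z.2
          rw [hz1, hz2, hz3]; rfl
        rw [← h0 α γ i.1 j _ hz3]
        exact le_inf inf_le_left (inf_le_right.trans (inf_le_right.trans inf_le_right))
      · rw [← h0 β γ i.1 j _ hz2]
        exact le_inf inf_le_left (inf_le_right.trans (inf_le_right.trans
          (inf_le_left.trans inf_le_right)))
    · rw [← h0 α β i.1 j _ hz1]
      exact le_inf inf_le_left (inf_le_right.trans (inf_le_right.trans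
        (inf_le_left.trans inf_le_left)))
  obtain ⟨Ψ, hΨ, htriv⟩ := core_scalar_top h Φ' (by
    intro α β i j hαβ
    constructor
    · rw [eq_top_iff]
      have h1 : b ≤ ⨆ z, Φ' α β i j z := by
        have := le_inf le_rfl (hΦ α β i j hαβ)
        rw [inf_iSup_eq] at this
        refine this.trans (iSup_mono fun z => ?_)
        rw [← hΦ']; exact inf_le_right
      have h2 : bᶜ ≤ ⨆ z, Φ' α β i j z := by
        refine le_iSup_of_le 0 ?_
        change bᶜ ≤ ((b ⊓ Φ α β i j 0) ⊔ (if (0 : ℤ) = 0 then bᶜ else ⊥))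
        rw [if_pos rfl]; exact le_sup_right
      rw [← sup_compl_eq_top (x := b)]
      exact sup_le h1 h2
    · intro z z' hne
      change Disjoint _ _
      rw [disjoint_iff_inf_le]
      have h1 : b ⊓ (Φ' α β i j z ⊓ Φ' α β i j z') ≤ ⊥ := by
        rw [← hΦd α β i j hαβ z z' hne]
        refine le_inf inf_le_left (le_inf ?_ ?_)
        · refine le_trans (le_inf inf_le_left (inf_le_right.trans inf_le_left)) ?_
          rw [hΦ']; exact inf_le_right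
        · refine le_trans (le_inf inf_le_left (inf_le_right.trans inf_le_right)) ?_
          rw [hΦ']; exact inf_le_right
      have h2 : bᶜ ⊓ (Φ' α β i j z ⊓ Φ' α β i j z') ≤ ⊥ := by
        by_cases hz : z = 0
        · have hz' : z' ≠ 0 := fun h' => hne (hz.trans h'.symm)
          refine le_trans (le_inf inf_le_left (inf_le_right.trans inf_le_right)) ?_
          change bᶜ ⊓ ((b ⊓ Φ α β i j z') ⊔ (if z' = 0 then bᶜ else ⊥)) ≤ ⊥
          rw [if_neg hz', sup_bot_eq, ← inf_assoc, compl_inf_self, bot_inf_eq]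
        · refine le_trans (le_inf inf_le_left (inf_le_right.trans inf_le_left)) ?_
          change bᶜ ⊓ ((b ⊓ Φ α β i j z) ⊔ (if z = 0 then bᶜ else ⊥)) ≤ ⊥
          rw [if_neg hz, sup_bot_eq, ← inf_assoc, compl_inf_self, bot_inf_eq]
      have h3 : (Φ' α β i j z ⊓ Φ' α β i j z') ≤
          (b ⊓ (Φ' α β i j z ⊓ Φ' α β i j z')) ⊔ (bᶜ ⊓ (Φ' α β i j z ⊓ Φ' α β i j z')) := by
        rw [← inf_sup_right, sup_compl_eq_top, top_inf_eq]
      exact h3.trans (sup_le h1 h2)) (by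
    intro α β γ hαβ hβγ
    rw [← sup_compl_eq_top (x := b)]
    refine sup_le ?_ ((hcohN' α β γ 0).trans (le_iSup _ 0))
    have := le_inf le_rfl (hcoh α β γ hαβ hβγ)
    rw [inf_iSup_eq] at this
    exact this.trans (iSup_mono fun N => hcohN α β γ N))
  refine ⟨Ψ, hΨ, fun α β hαβ => ?_⟩
  have h1 : b ≤ b ⊓ ⨆ N : ℕ, trivS (fB em) Φ' Ψ α β N :=
    le_inf le_rfl (le_top.trans (htriv α β hαβ))
  refine h1.trans ?_
  rw [inf_iSup_eq]
  refine iSup_mono fun N => ?_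
  refine le_iInf fun i => le_iInf fun j => le_iInf fun z => ?_
  rw [le_compl_iff_disjoint_right, disjoint_iff_inf_le]
  have h2 : trivS (fB em) Φ' Ψ α β N ≤ ((fgt (fB em) α i.1 j ⊓ fgt (fB em) β i.1 j) ⊓
      (Ψ α i.1 j z.1.1 ⊓ Ψ β i.1 j z.1.2.1 ⊓ Φ' α β i.1 j z.1.2.2))ᶜ :=
    (iInf_le _ i).trans ((iInf_le _ j).trans (iInf_le _ z))
  have h3 : b ⊓ Φ α β i.1 j z.1.2.2 ≤ Φ' α β i.1 j z.1.2.2 := by
    rw [← hΦ']; exact inf_le_right
  set X := fgt (fB em) α i.1 j ⊓ fgt (fB em) β i.1 j with hX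
  set Y := Ψ α i.1 j z.1.1 ⊓ Ψ β i.1 j z.1.2.1 with hY
  have h4 : b ⊓ trivS (fB em) Φ' Ψ α β N ⊓ (X ⊓ (Y ⊓ Φ α β i.1 j z.1.2.2)) ≤
      (X ⊓ (Y ⊓ Φ' α β i.1 j z.1.2.2)) ⊓ (X ⊓ (Y ⊓ Φ' α β i.1 j z.1.2.2))ᶜ := by
    refine le_inf (le_inf (inf_le_right.trans inf_le_left)
      (le_inf (inf_le_right.trans (inf_le_right.trans inf_le_left)) ?_))
      (inf_le_left.trans (inf_le_right.trans h2))
    refine le_trans ?_ h3
    exact le_inf (inf_le_left.trans inf_le_left)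
      (inf_le_right.trans (inf_le_right.trans inf_le_right))
  rwa [inf_compl_self] at h4

end Pool.Agent.MP63050e
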