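import Pool.Agent.MP_63050e_lc.D1
import Pool.Agent.MP_63050e_lc.C7

/-! The names of the objects of the statement. -/

set_option linter.unusedVariables false
set_option linter.unusedSectionVars false

namespace Pool.Agent.MP63050e

open BVM BName SetModel

/-- The name of `ω`. -/
noncomputable def omN (B : Type) [CompleteBooleanAlgebra B] : BName B := vNset B ℕ

/-- The name of an integer. -/
noncomputable def zN {B : Type} [CompleteBooleanAlgebra B] (z : ℤ) : BName B :=
  vN (Equiv.intEquivNat z)

/-- The name of the set of the integers. -/
noncomputable def ZN (B : Type) [CompleteBooleanAlgebra B] : BName B :=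
  BName.mk ℤ zN (fun _ => ⊤)

/-- The name of the addition of the integers. -/
noncomputable def addN (B : Type) [CompleteBooleanAlgebra B] : BName B :=
  BName.mk (ℤ × ℤ) (fun p => opair (zN p.1) (opair (zN p.2) (zN (p.1 + p.2)))) (fun _ => ⊤)

variable {κ : Type} [LinearOrder κ] {B : Type} [CompleteBooleanAlgebra B]

/-- The name of the real given by a matrix. -/
noncomputable def realN (f : ℕ → ℕ → B) : BName B :=
  BName.mk (ℕ × ℕ) (fun p => opair (vN p.1) (vN p.2)) (fun p => f p.1 p.2)

/-- The name of the generic chain. -/
noncomputable def chainN [WellFoundedLT κ] (em : PP κ → B) : BName B :=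
  BName.mk κ (fun α => opair (vN α) (realN (fB em α))) (fun _ => ⊤)

end Pool.Agent.MP63050e
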