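import Pool.Agent.MP_63050e_lc.Statement

/-! The algebra of the trivialisation, inside an abstract model. -/

set_option linter.unusedVariables false
set_option linter.unusedSectionVars false

namespace Pool.Agent.MP63050e

universe u

variable {M : Type u} {E : M → M → Prop}

section grp

variable {Z add zero : M}

/-- The elements of `Z`. -/
def Zt (H : IsAbGroup E Z add zero) : Type u := {z : M // E z Z}

variable {H : IsAbGroup E Z add zero}

theorem Zt.ext {x y : Zt H} (h : x.1 = y.1) : x = y := Subtype.ext h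

/-- The sum of two elements of `Z`. -/
noncomputable def addF (H : IsAbGroup E Z add zero) (x y : Zt H) : Zt H :=
  ⟨Classical.choose (H.1 x.1 y.1 x.2 y.2), (Classical.choose_spec (H.1 x.1 y.1 x.2 y.2)).1⟩

theorem addF_spec (x y : Zt H) (z : M) : Has E add [x.1, y.1, z] ↔ z = (addF H x y).1 :=
  (Classical.choose_spec (H.1 x.1 y.1 x.2 y.2)).2 z

theorem addF_has (x y : Zt H) : Has E add [x.1, y.1, (addF H x y).1] := (addF_spec x y _).2 rfl

theorem addF_comm (x y : Zt H) : addF H x y = addF H y x := by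
  apply Zt.ext
  rw [← addF_spec]
  exact H.2.2.2.2.1 _ _ _ x.2 y.2 (addF_has x y)

theorem addF_assoc (x y z : Zt H) : addF H (addF H x y) z = addF H x (addF H y z) := by
  apply Zt.ext
  rw [← addF_spec]
  exact H.2.2.2.2.2 x.1 y.1 z.1 _ _ _ x.2 y.2 z.2 (addF_has x y) (addF_has _ z) (addF_has y z)

/-- Zero. -/
def zeroF (H : IsAbGroup E Z add zero) : Zt H := ⟨zero, H.2.1⟩

theorem addF_zero (x : Zt H) : addF H x (zeroF H) = x := by
  apply Zt.ext
  symm
  rw [← addF_spec]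
  exact H.2.2.1 _ x.2

theorem exists_neg (x : Zt H) : ∃ y : Zt H, addF H y x = zeroF H := by
  obtain ⟨y, hy, hxy⟩ := H.2.2.2.1 x.1 x.2
  refine ⟨⟨y, hy⟩, ?_⟩
  rw [addF_comm]
  apply Zt.ext
  exact ((addF_spec x ⟨y, hy⟩ zero).1 hxy).symm

noncomputable instance : Add (Zt H) := ⟨addF H⟩

instance : Zero (Zt H) := ⟨zeroF H⟩

noncomputable instance : Neg (Zt H) := ⟨fun x => Classical.choose (exists_neg x)⟩

noncomputable instance : AddCommGroup (Zt H) where
  add_assoc := addF_assoc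
  zero_add := fun x => by
    change addF H (zeroF H) x = x
    rw [addF_comm, addF_zero]
  add_zero := addF_zero
  neg_add_cancel := fun x => Classical.choose_spec (exists_neg x)
  add_comm := addF_comm
  nsmul := nsmulRec
  zsmul := zsmulRec

theorem has_add {x y : Zt H} {z : M} : Has E add [x.1, y.1, z] ↔ z = (x + y).1 := addF_spec x y z

theorem zero_val : (0 : Zt H).1 = zero := rfl

end grp

/-! ### The world -/

/-- Facts on the natural numbers of the model. -/
structure OmFacts (E : M → M → Prop) (w : M) : Prop where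
  tri : ∀ a b, E a w → E b w → E a b ∨ a = b ∨ E b a
  tr : ∀ a b c, E a b → E b c → E c w → E a c
  mem : ∀ a b, E a b → E b w → E a w
  irr : ∀ a, E a w → ¬ E a a
  succ : ∀ a, E a w → ∃ s, E s w ∧ ∀ z, E z s ↔ E z a ∨ z = a
  ne : ∃ e, E e w
  fm : ∀ f x y i m, IsFun E f x y → E i x → Has E f [i, m] → E m y

/-- `x` is the function with `I_x = {(i, j') : j' ≤ j}`. -/
def IsPt (E : M → M → Prop) (w x i j : M) : Prop :=
  IsFun E x w w ∧ ∀ i' j', InI E w x i' j' ↔ i' = i ∧ LeN E j' j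

/-- `m` is the function with `I_m = I_f ∩ I_g`. -/
def IsMeet (E : M → M → Prop) (w m f g : M) : Prop :=
  IsFun E m w w ∧ ∀ i j, InI E w m i j ↔ InI E w f i j ∧ InI E w g i j

/-- `a` is the least index with `f ≤* F_a`, and `g = F_a`. -/
def RelA (E : M → M → Prop) (w k F f a g : M) : Prop :=
  E a k ∧ Has E F [a, g] ∧ EvLe E w f g ∧
    ∀ b, E b k → E b a → ∀ g', Has E F [b, g'] → ¬ EvLe E w f g'

/-- Everything that is used about the model. -/
structure World (E : M → M → Prop) (w k F Z add zero c : M) : Prop where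
  om : OmFacts E w
  grp : IsAbGroup E Z add zero
  chain : IsChain E w k F
  ktri : ∀ a b, E a k → E b k → E a b ∨ a = b ∨ E b a
  kmin : ∀ f, InStar E w k F f → ∃ a g, RelA E w k F f a g
  ext : ∀ f g, IsFun E f w w → IsFun E g w w → (∀ i j, InI E w f i j ↔ InI E w g i j) → f = g
  pt : ∀ i j, E i w → E j w → ∃ x, IsPt E w x i j
  meet : ∀ f g, IsFun E f w w → IsFun E g w w → ∃ m, IsMeet E w m f g
  coch : IsCochain2 E w k F Z zero c
  coc : IsCocycle2 E w k F add c

/-- For all `i, j` with `i` large. -/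
def Ev (E : M → M → Prop) (w : M) (P : M → M → Prop) : Prop :=
  ∃ N, E N w ∧ ∀ i j, E i w → LeN E N i → P i j

section om

variable {w : M} (om : OmFacts E w)

include om

theorem OmFacts.le_trans {a b c : M} (hc : E c w) (h1 : LeN E a b) (h2 : LeN E b c) :
    LeN E a c := by
  rcases h1 with h1 | rfl
  · rcases h2 with h2 | rfl
    · exact Or.inl (om.tr _ _ _ h1 h2 hc)
    · exact Or.inl h1
  · exact h2

theorem Ev.and {P Q : M → M → Prop} (hP : Ev E w P) (hQ : Ev E w Q) :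
    Ev E w (fun i j => P i j ∧ Q i j) := by
  obtain ⟨N, hN, hP⟩ := hP
  obtain ⟨N', hN', hQ⟩ := hQ
  rcases om.tri N N' hN hN' with h | h | h
  · exact ⟨N', hN', fun i j hi hl =>
      ⟨hP i j hi (om.le_trans hi (Or.inl h) hl), hQ i j hi hl⟩⟩
  · subst h
    exact ⟨N, hN, fun i j hi hl => ⟨hP i j hi hl, hQ i j hi hl⟩⟩
  · exact ⟨N, hN, fun i j hi hl =>
      ⟨hP i j hi hl, hQ i j hi (om.le_trans hi (Or.inl h) hl)⟩⟩

theorem Ev.all {P : M → M → Prop} (hP : ∀ i j, P i j) : Ev E w P := by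
  obtain ⟨e, he⟩ := om.ne
  exact ⟨e, he, fun i j _ _ => hP i j⟩

omit om in
theorem Ev.mono {P Q : M → M → Prop} (hP : Ev E w P) (h : ∀ i j, P i j → Q i j) : Ev E w Q := by
  obtain ⟨N, hN, hP⟩ := hP
  exact ⟨N, hN, fun i j hi hl => h i j (hP i j hi hl)⟩

omit om in
theorem fun_val {f x y i : M} (hf : IsFun E f x y) (hi : E i x) : ∃ m, Has E f [i, m] :=
  (hf.2 i hi).exists

omit om in
theorem fun_uniq {f x y i m m' : M} (hf : IsFun E f x y) (hi : E i x) (h : Has E f [i, m])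
    (h' : Has E f [i, m']) : m = m' := (hf.2 i hi).unique h h'

theorem inI_mem {f i j : M} (hf : IsFun E f w w) (h : InI E w f i j) : E j w := by
  obtain ⟨hi, m, hm, hj⟩ := h
  exact om.mem _ _ hj (om.fm f w w i m hf hi hm)

theorem inI_down {f i j j' : M} (hf : IsFun E f w w) (h : InI E w f i j) (hj : LeN E j' j) :
    InI E w f i j' := by
  rcases hj with hj | rfl
  · obtain ⟨hi, m, hm, hjm⟩ := h
    exact ⟨hi, m, hm, om.tr _ _ _ hj hjm (om.fm f w w i m hf hi hm)⟩
  · exact h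

theorem inI_of_le {f g i j m n : M} (hg : IsFun E g w w) (h : InI E w f i j)
    (hf : IsFun E f w w) (hm : Has E f [i, m]) (hn : Has E g [i, n]) (hmn : LeN E m n) :
    InI E w g i j := by
  obtain ⟨hi, m', hm', hj⟩ := h
  have := fun_uniq hf hi hm hm'
  subst this
  refine ⟨hi, n, hn, ?_⟩
  rcases hmn with hmn | rfl
  · exact om.tr _ _ _ hj hmn (om.fm g w w i n hg hi hn)
  · exact hj

theorem inI_ptLe {f g i j : M} (hf : IsFun E f w w) (hg : IsFun E g w w) (h : InI E w f i j)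
    (hfg : PtLe E w f g) : InI E w g i j := by
  obtain ⟨m, hm⟩ := fun_val hf h.1
  obtain ⟨n, hn⟩ := fun_val hg h.1
  exact inI_of_le om hg h hf hm hn (hfg i m n h.1 hm hn)

theorem inI_evLe {f g : M} (hf : IsFun E f w w) (hg : IsFun E g w w) (hfg : EvLe E w f g) :
    Ev E w (fun i j => InI E w f i j → InI E w g i j) := by
  obtain ⟨N, hN, hfg⟩ := hfg
  refine ⟨N, hN, fun i j hi hl h => ?_⟩
  obtain ⟨m, hm⟩ := fun_val hf hi
  obtain ⟨n, hn⟩ := fun_val hg hi
  exact inI_of_le om hg h hf hm hn (hfg i m n hi hl hm hn)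

theorem ptLe_of {f g : M} (hf : IsFun E f w w) (hg : IsFun E g w w)
    (H : ∀ i j, InI E w f i j → InI E w g i j) : PtLe E w f g := by
  intro i m n hi hm hn
  have hm' := om.fm f w w i m hf hi hm
  have hn' := om.fm g w w i n hg hi hn
  rcases om.tri m n hm' hn' with h | h | h
  · exact Or.inl h
  · exact Or.inr h
  · obtain ⟨-, n', hn2, hnn⟩ := H i n ⟨hi, m, hm, h⟩
    have := fun_uniq hg hi hn hn2
    subst this
    exact absurd hnn (om.irr _ hn')

omit om in
theorem EvLt.le {f g : M} (h : EvLt E w f g) : EvLe E w f g := by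
  obtain ⟨N, hN, h⟩ := h
  exact ⟨N, hN, fun i m n hi hl hm hn => Or.inl (h i m n hi hl hm hn)⟩

theorem PtLe.refl {f : M} (hf : IsFun E f w w) : PtLe E w f f :=
  ptLe_of om hf hf fun i j h => h

theorem PtLe.trans {f g k : M} (hf : IsFun E f w w) (hg : IsFun E g w w) (hk : IsFun E k w w)
    (h1 : PtLe E w f g) (h2 : PtLe E w g k) : PtLe E w f k :=
  ptLe_of om hf hk fun i j h => inI_ptLe om hg hk (inI_ptLe om hf hg h h1) h2

theorem InStar.of_le {k F f g : M} (hF : ∀ a f, E a k → Has E F [a, f] → IsFun E f w w)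
    (hg : IsFun E g w w) (h : PtLe E w g f)
    (hf : InStar E w k F f) : InStar E w k F g := by
  refine ⟨hg, ?_⟩
  obtain ⟨hf1, a, fa, ha, hfa, N, hN, hle⟩ := hf
  refine ⟨a, fa, ha, hfa, N, hN, fun i m n hi hl hm hn => ?_⟩
  obtain ⟨p, hp⟩ := fun_val hf1 hi
  exact om.le_trans (om.fm fa w w i n (hF a fa ha hfa) hi hn) (h i m p hi hm hp)
    (hle i p n hi hl hp hn)

end om

section world

variable {w k F Z add zero c : M} (W : World E w k F Z add zero c)

open Classical in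
/-- The value of the cochain. -/
noncomputable def cv (W : World E w k F Z add zero c) (f₀ f₁ f₂ i j : M) : Zt W.grp :=
  if h : ∃ z : Zt W.grp, Has E c [f₀, f₁, f₂, i, j, z.1] then h.choose else 0

theorem cv_spec {f₀ f₁ f₂ i j : M} (h0 : InStar E w k F f₀) (h1 : InStar E w k F f₁)
    (h2 : InStar E w k F f₂) (h01 : PtLe E w f₀ f₁) (h12 : PtLe E w f₁ f₂)
    (hij : InI E w f₀ i j) (z : M) :
    Has E c [f₀, f₁, f₂, i, j, z] ↔ z = (cv W f₀ f₁ f₂ i j).1 := by
  obtain ⟨x, hx, hx'⟩ := (W.coch f₀ f₁ f₂ h0 h1 h2 h01 h12).1 i j hij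
  have hx2 : ∀ z', Has E c [f₀, f₁, f₂, i, j, z'] ↔ z' = x := hx'
  have hex : ∃ z : Zt W.grp, Has E c [f₀, f₁, f₂, i, j, z.1] := ⟨⟨x, hx⟩, (hx2 x).2 rfl⟩
  have h3 : cv W f₀ f₁ f₂ i j = hex.choose := by
    rw [cv, dif_pos hex]
  have h4 := hex.choose_spec
  rw [← h3, hx2] at h4
  rw [hx2, h4]

theorem cv_zero {f₀ f₁ f₂ : M} (h0 : InStar E w k F f₀) (h1 : InStar E w k F f₁)
    (h2 : InStar E w k F f₂) (h01 : PtLe E w f₀ f₁) (h12 : PtLe E w f₁ f₂) :
    Ev E w (fun i j => InI E w f₀ i j → cv W f₀ f₁ f₂ i j = 0) := by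
  obtain ⟨N, hN, h⟩ := (W.coch f₀ f₁ f₂ h0 h1 h2 h01 h12).2
  refine ⟨N, hN, fun i j hi hl hij => ?_⟩
  have h3 : Has E c [f₀, f₁, f₂, i, j, zero] := h i j hl hij
  rw [cv_spec W h0 h1 h2 h01 h12 hij] at h3
  apply Zt.ext
  rw [← h3]
  rfl

theorem cv_coc {f₀ f₁ f₂ f₃ i j : M} (h0 : InStar E w k F f₀) (h1 : InStar E w k F f₁)
    (h2 : InStar E w k F f₂) (h3 : InStar E w k F f₃) (h01 : PtLe E w f₀ f₁)
    (h12 : PtLe E w f₁ f₂) (h23 : PtLe E w f₂ f₃) (hij : InI E w f₀ i j) :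
    cv W f₁ f₂ f₃ i j + cv W f₀ f₁ f₃ i j = cv W f₀ f₂ f₃ i j + cv W f₀ f₁ f₂ i j := by
  have om := W.om
  have h02 := h01.trans om h0.1 h1.1 h2.1 h12
  have h13 := h12.trans om h1.1 h2.1 h3.1 h23
  have hij1 := inI_ptLe om h0.1 h1.1 hij h01
  obtain ⟨s, hs1, hs2⟩ := W.coc f₀ f₁ f₂ f₃ h0 h1 h2 h3 h01 h12 h23 i j hij _ _ _ _
    ((cv_spec W h1 h2 h3 h12 h23 hij1 _).2 rfl) ((cv_spec W h0 h2 h3 h02 h23 hij _).2 rfl)
    ((cv_spec W h0 h1 h3 h01 h13 hij _).2 rfl) ((cv_spec W h0 h1 h2 h01 h12 hij _).2 rfl)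
  rw [has_add] at hs1 hs2
  apply Zt.ext
  rw [← hs1, ← hs2]

open Classical in
/-- The point function. -/
noncomputable def ptf (W : World E w k F Z add zero c) (i j : M) : M :=
  if h : ∃ x, IsPt E w x i j then h.choose else w

theorem ptf_spec {i j : M} (hi : E i w) (hj : E j w) : IsPt E w (ptf W i j) i j := by
  have h := W.pt i j hi hj
  rw [ptf, dif_pos h]
  exact h.choose_spec

theorem ptf_uniq {i j x : M} (hi : E i w) (hj : E j w) (hx : IsPt E w x i j) :
    x = ptf W i j :=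
  W.ext _ _ hx.1 (ptf_spec W hi hj).1 fun i' j' => by
    rw [hx.2, (ptf_spec W hi hj).2]

open Classical in
/-- The meet. -/
noncomputable def mt (W : World E w k F Z add zero c) (f g : M) : M :=
  if h : ∃ x, IsMeet E w x f g then h.choose else w

theorem mt_spec {f g : M} (hf : IsFun E f w w) (hg : IsFun E g w w) :
    IsMeet E w (mt W f g) f g := by
  have h := W.meet f g hf hg
  rw [mt, dif_pos h]
  exact h.choose_spec

theorem mt_uniq {f g x : M} (hf : IsFun E f w w) (hg : IsFun E g w w)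
    (hx : IsMeet E w x f g) : x = mt W f g :=
  W.ext _ _ hx.1 (mt_spec W hf hg).1 fun i' j' => by
    rw [hx.2, (mt_spec W hf hg).2]

theorem ptf_le {f i j : M} (hf : IsFun E f w w) (h : InI E w f i j) :
    PtLe E w (ptf W i j) f := by
  have h1 := ptf_spec W h.1 (inI_mem W.om hf h)
  refine ptLe_of W.om h1.1 hf fun i' j' h' => ?_
  rw [h1.2] at h'
  obtain ⟨rfl, h'⟩ := h'
  exact inI_down W.om hf h h'

theorem ptf_in {i j : M} (hi : E i w) (hj : E j w) : InI E w (ptf W i j) i j :=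
  ((ptf_spec W hi hj).2 i j).2 ⟨rfl, Or.inr rfl⟩

include W in
theorem Wof_le {f g : M} (hg : IsFun E g w w) (h : PtLe E w g f)
    (hf : InStar E w k F f) : InStar E w k F g :=
  InStar.of_le W.om W.chain.2.1 hg h hf

/-- The cochain `b'`. -/
noncomputable def bp (W : World E w k F Z add zero c) (f g i j : M) : Zt W.grp :=
  cv W (ptf W i j) f g i j

theorem bp_coc {f₀ f₁ f₂ i j : M} (h0 : InStar E w k F f₀) (h1 : InStar E w k F f₁)
    (h2 : InStar E w k F f₂) (h01 : PtLe E w f₀ f₁) (h12 : PtLe E w f₁ f₂)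
    (hij : InI E w f₀ i j) :
    cv W f₀ f₁ f₂ i j = bp W f₁ f₂ i j - bp W f₀ f₂ i j + bp W f₀ f₁ i j := by
  have hj := inI_mem W.om h0.1 hij
  have hp := ptf_le W h0.1 hij
  have hps : InStar E w k F (ptf W i j) := Wof_le W (ptf_spec W hij.1 hj).1 hp h0
  have := cv_coc W hps h0 h1 h2 hp h01 h12 (ptf_in W hij.1 hj)
  unfold bp
  rw [eq_sub_of_add_eq this]
  abel

theorem bp_ev {f₀ f₁ f₂ : M} (h0 : InStar E w k F f₀) (h1 : InStar E w k F f₁)
    (h2 : InStar E w k F f₂) (h01 : PtLe E w f₀ f₁) (h12 : PtLe E w f₁ f₂) :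
    Ev E w (fun i j => InI E w f₀ i j →
      bp W f₀ f₂ i j = bp W f₁ f₂ i j + bp W f₀ f₁ i j) := by
  refine (cv_zero W h0 h1 h2 h01 h12).mono fun i j h hij => ?_
  have h3 := bp_coc W h0 h1 h2 h01 h12 hij
  rw [h hij] at h3
  have h4 : bp W f₀ f₂ i j = bp W f₁ f₂ i j - (bp W f₁ f₂ i j - bp W f₀ f₂ i j +
    bp W f₀ f₁ i j) + bp W f₀ f₁ i j := by abel
  rw [h4, ← h3]
  abel

/-- The mod finite cocycle on all pairs. -/
noncomputable def th (W : World E w k F Z add zero c) (f g i j : M) : Zt W.grp :=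
  bp W (mt W f g) g i j - bp W (mt W f g) f i j

theorem th_eq {f g m : M} (hf : InStar E w k F f) (hg : InStar E w k F g)
    (hm : IsFun E m w w) (hmf : PtLe E w m f) (hmg : PtLe E w m g) :
    Ev E w (fun i j => InI E w m i j → th W f g i j = bp W m g i j - bp W m f i j) := by
  have om := W.om
  have hM := mt_spec W hf.1 hg.1
  have hms := Wof_le W hm hmf hf
  have hMf : PtLe E w (mt W f g) f := ptLe_of om hM.1 hf.1 fun i j h => ((hM.2 i j).1 h).1
  have hMg : PtLe E w (mt W f g) g := ptLe_of om hM.1 hg.1 fun i j h => ((hM.2 i j).1 h).2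
  have hmM : PtLe E w m (mt W f g) := ptLe_of om hm hM.1 fun i j h =>
    (hM.2 i j).2 ⟨inI_ptLe om hm hf.1 h hmf, inI_ptLe om hm hg.1 h hmg⟩
  have hMs := Wof_le W hM.1 hMf hf
  refine ((bp_ev W hms hMs hg hmM hMg).and om (bp_ev W hms hMs hf hmM hMf)).mono
    fun i j h hij => ?_
  rw [h.1 hij, h.2 hij, th]
  abel

theorem th_coh {f g l : M} (hf : InStar E w k F f) (hg : InStar E w k F g)
    (hl : InStar E w k F l) :
    Ev E w (fun i j => InI E w f i j → InI E w g i j → InI E w l i j →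
      th W f g i j + th W g l i j = th W f l i j) := by
  have om := W.om
  have hM := mt_spec W hf.1 hg.1
  have hN := mt_spec W hM.1 hl.1
  have hNf : PtLe E w (mt W (mt W f g) l) f := ptLe_of om hN.1 hf.1 fun i j h =>
    ((hM.2 i j).1 ((hN.2 i j).1 h).1).1
  have hNg : PtLe E w (mt W (mt W f g) l) g := ptLe_of om hN.1 hg.1 fun i j h =>
    ((hM.2 i j).1 ((hN.2 i j).1 h).1).2
  have hNl : PtLe E w (mt W (mt W f g) l) l := ptLe_of om hN.1 hl.1 fun i j h =>
    ((hN.2 i j).1 h).2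
  refine ((th_eq W hf hg hN.1 hNf hNg).and om ((th_eq W hg hl hN.1 hNg hNl).and om
    (th_eq W hf hl hN.1 hNf hNl))).mono fun i j h h1 h2 h3 => ?_
  have hij := (hN.2 i j).2 ⟨(hM.2 i j).2 ⟨h1, h2⟩, h3⟩
  rw [h.1 hij, h.2.1 hij, h.2.2 hij]
  abel

theorem mt_comm {f g : M} (hf : IsFun E f w w) (hg : IsFun E g w w) : mt W f g = mt W g f := by
  refine mt_uniq W hg hf ⟨(mt_spec W hf hg).1, fun i j => ?_⟩
  rw [(mt_spec W hf hg).2, and_comm]

theorem th_antisymm {f g i j : M} (hf : InStar E w k F f) (hg : InStar E w k F g) :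
    th W f g i j = - th W g f i j := by
  unfold th
  rw [mt_comm W hf.1 hg.1]
  abel

theorem th_self {f i j : M} (hf : InStar E w k F f) : th W f f i j = 0 := by
  unfold th
  abel

theorem th_le {f g : M} (hf : InStar E w k F f) (hg : InStar E w k F g) (hfg : PtLe E w f g) :
    Ev E w (fun i j => InI E w f i j → th W f g i j = bp W f g i j) := by
  have om := W.om
  have hr := PtLe.refl om hf.1
  refine ((th_eq W hf hg hf.1 hr hfg).and om (bp_ev W hf hf hf hr hr)).mono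
    fun i j h hij => ?_
  have h1 := h.2 hij
  have h2 : bp W f f i j = 0 := by
    have : bp W f f i j + bp W f f i j = bp W f f i j + 0 := by rw [← h1, add_zero]
    exact add_left_cancel this
  rw [h.1 hij, h2, sub_zero]

end world

end Pool.Agent.MP63050e
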