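import Pool.Agent.MP_63050e_lc.D3

/-! The cochain `b`, inside an abstract model. -/

set_option linter.unusedVariables false
set_option linter.unusedSectionVars false

namespace Pool.Agent.MP63050e

universe u

variable {M : Type u} {E : M → M → Prop}

/-- `z = b'(f, g)(i, j)`. -/
def RelB (E : M → M → Prop) (w c f g i j z : M) : Prop :=
  ∃ x, IsPt E w x i j ∧ Has E c [x, f, g, i, j, z]

/-- `z = θ(f, g)(i, j)`. -/
def RelT (E : M → M → Prop) (w Z add c f g i j z : M) : Prop :=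
  E z Z ∧ ∃ m z₁ z₂, IsMeet E w m f g ∧ RelB E w c m g i j z₁ ∧ RelB E w c m f i j z₂ ∧
    Has E add [z, z₂, z₁]

/-- The set `P` trivialises `θ` along the chain. -/
structure Triv (E : M → M → Prop) (w k F Z add c P : M) : Prop where
  val : ∀ a i j, E a k → E i w → E j w → ∃ z, E z Z ∧ ∀ z', Has E P [a, i, j, z'] ↔ z' = z
  triv : ∀ a b f g, E a k → E b k → E a b → Has E F [a, f] → Has E F [b, g] →
    Ev E w (fun i j => InI E w f i j → InI E w g i j → ∀ z₁ z₂ z₃, Has E P [a, i, j, z₁] →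
      Has E P [b, i, j, z₂] → RelT E w Z add c f g i j z₃ → Has E add [z₁, z₃, z₂])

/-- `z = ψ_f(i, j)`. -/
def RelP (E : M → M → Prop) (w k F Z add zero c P f i j z : M) : Prop :=
  E z Z ∧ ∃ a g, RelA E w k F f a g ∧
    ((InI E w g i j ∧ ∃ z₁ z₂, Has E P [a, i, j, z₁] ∧ RelT E w Z add c f g i j z₂ ∧
      Has E add [z, z₂, z₁]) ∨ (¬ InI E w g i j ∧ z = zero))

/-- `z = b(f₀, f₁)(i, j)`. -/
def RelC (E : M → M → Prop) (w k F Z add zero c P f₀ f₁ i j z : M) : Prop :=
  E z Z ∧ ∃ z₁ z₂ z₃ s, RelB E w c f₀ f₁ i j z₁ ∧ RelP E w k F Z add zero c P f₁ i j z₂ ∧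
    RelP E w k F Z add zero c P f₀ i j z₃ ∧ Has E add [z, z₂, s] ∧ Has E add [z₁, z₃, s]

variable {w k F Z add zero c P : M} (W : World E w k F Z add zero c)

theorem relB_iff {f g i j z : M} (hf : InStar E w k F f) (hg : InStar E w k F g)
    (hfg : PtLe E w f g) (hij : InI E w f i j) :
    RelB E w c f g i j z ↔ z = (bp W f g i j).1 := by
  have hj := inI_mem W.om hf.1 hij
  have hp := ptf_le W hf.1 hij
  have hps : InStar E w k F (ptf W i j) := Wof_le W (ptf_spec W hij.1 hj).1 hp hf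
  have h1 := cv_spec W hps hf hg hp hfg (ptf_in W hij.1 hj) z
  constructor
  · rintro ⟨x, hx, hxc⟩
    rw [ptf_uniq W hij.1 hj hx] at hxc
    exact h1.1 hxc
  · intro h
    exact ⟨_, ptf_spec W hij.1 hj, h1.2 h⟩

theorem relT_iff {f g i j z : M} (hf : InStar E w k F f) (hg : InStar E w k F g)
    (hij : InI E w f i j) (hij' : InI E w g i j) :
    RelT E w Z add c f g i j z ↔ z = (th W f g i j).1 := by
  have om := W.om
  have hM := mt_spec W hf.1 hg.1
  have hMf : PtLe E w (mt W f g) f := ptLe_of om hM.1 hf.1 fun i j h => ((hM.2 i j).1 h).1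
  have hMg : PtLe E w (mt W f g) g := ptLe_of om hM.1 hg.1 fun i j h => ((hM.2 i j).1 h).2
  have hMs := Wof_le W hM.1 hMf hf
  have hMij := (hM.2 i j).2 ⟨hij, hij'⟩
  constructor
  · rintro ⟨hz, m, z₁, z₂, hm, h1, h2, h3⟩
    rw [mt_uniq W hf.1 hg.1 hm] at h1 h2
    rw [relB_iff W hMs hg hMg hMij] at h1
    rw [relB_iff W hMs hf hMf hMij] at h2
    subst h1 h2
    have h4 := (has_add (H := W.grp) (x := ⟨z, hz⟩)).1 h3
    have h5 : bp W (mt W f g) g i j = ⟨z, hz⟩ + bp W (mt W f g) f i j := Zt.ext h4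
    unfold th
    rw [h5, add_sub_cancel_right]
  · rintro rfl
    refine ⟨(th W f g i j).2, mt W f g, _, _, hM, (relB_iff W hMs hg hMg hMij).2 rfl,
      (relB_iff W hMs hf hMf hMij).2 rfl, ?_⟩
    rw [has_add, th, sub_add_cancel]

open Classical in
/-- The value of `P`. -/
noncomputable def Pv (W : World E w k F Z add zero c) (P a i j : M) : Zt W.grp :=
  if h : ∃ z : Zt W.grp, Has E P [a, i, j, z.1] then h.choose else 0

theorem Pv_spec (T : Triv E w k F Z add c P) {a i j : M} (ha : E a k) (hi : E i w)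
    (hj : E j w) (z : M) : Has E P [a, i, j, z] ↔ z = (Pv W P a i j).1 := by
  obtain ⟨x, hx, hx'⟩ := T.val a i j ha hi hj
  have hex : ∃ z : Zt W.grp, Has E P [a, i, j, z.1] := ⟨⟨x, hx⟩, (hx' x).2 rfl⟩
  have h3 : Pv W P a i j = hex.choose := by
    rw [Pv, dif_pos hex]
  have h4 := hex.choose_spec
  rw [← h3, hx'] at h4
  rw [hx', h4]

open Classical in
/-- The least index. -/
noncomputable def aF (W : World E w k F Z add zero c) (f : M) : M :=
  if h : ∃ a g, RelA E w k F f a g then h.choose else w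

open Classical in
/-- The value at the least index. -/
noncomputable def gF (W : World E w k F Z add zero c) (f : M) : M :=
  if h : ∃ a g, RelA E w k F f a g then h.choose_spec.choose else w

theorem relA_spec {f : M} (hf : InStar E w k F f) :
    RelA E w k F f (aF W f) (gF W f) := by
  have h := W.kmin f hf
  rw [aF, gF, dif_pos h, dif_pos h]
  exact h.choose_spec.choose_spec

theorem relA_uniq {f a g : M} (hf : InStar E w k F f) (h : RelA E w k F f a g) :
    a = aF W f ∧ g = gF W f := by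
  have h' := relA_spec W hf
  obtain ⟨Y, hY⟩ := W.chain.1
  have ha : a = aF W f := by
    rcases W.ktri a (aF W f) h.1 h'.1 with h1 | h1 | h1
    · exact absurd h.2.2.1 (h'.2.2.2 a h.1 h1 g h.2.1)
    · exact h1
    · exact absurd h'.2.2.1 (h.2.2.2 _ h'.1 h1 _ h'.2.1)
  refine ⟨ha, ?_⟩
  refine fun_uniq hY h.1 h.2.1 ?_
  rw [ha]
  exact h'.2.1

theorem gF_star {f : M} (hf : InStar E w k F f) : InStar E w k F (gF W f) := by
  have h := relA_spec W hf
  have hfun := W.chain.2.1 _ _ h.1 h.2.1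
  refine ⟨hfun, aF W f, gF W f, h.1, h.2.1, ?_⟩
  obtain ⟨e, he⟩ := W.om.ne
  exact ⟨e, he, fun i m n hi _ hm hn => PtLe.refl W.om hfun i m n hi hm hn⟩

open Classical in
/-- The function `ψ_f`. -/
noncomputable def ps (W : World E w k F Z add zero c) (P f i j : M) : Zt W.grp :=
  if InI E w (gF W f) i j then Pv W P (aF W f) i j - th W f (gF W f) i j else 0

theorem relP_iff (T : Triv E w k F Z add c P) {f i j z : M} (hf : InStar E w k F f)
    (hij : InI E w f i j) :
    RelP E w k F Z add zero c P f i j z ↔ z = (ps W P f i j).1 := by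
  have om := W.om
  have hA := relA_spec W hf
  have hgs := gF_star W hf
  have hj := inI_mem om hf.1 hij
  unfold ps
  by_cases hg : InI E w (gF W f) i j
  · rw [if_pos hg]
    constructor
    · rintro ⟨hz, a, g, hag, h⟩
      obtain ⟨rfl, rfl⟩ := relA_uniq W hf hag
      rcases h with ⟨-, z₁, z₂, h1, h2, h3⟩ | ⟨h, -⟩
      · rw [Pv_spec W T hA.1 hij.1 hj] at h1
        rw [relT_iff W hf hgs hij hg] at h2
        subst h1 h2
        have h4 := (has_add (H := W.grp) (x := ⟨z, hz⟩)).1 h3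
        have h5 : Pv W P (aF W f) i j = ⟨z, hz⟩ + th W f (gF W f) i j := Zt.ext h4
        rw [h5, add_sub_cancel_right]
      · exact absurd hg h
    · rintro rfl
      refine ⟨(Pv W P (aF W f) i j - th W f (gF W f) i j).2, _, _, hA, Or.inl ⟨hg, _, _, (Pv_spec W T hA.1 hij.1 hj _).2 rfl,
        (relT_iff W hf hgs hij hg).2 rfl, ?_⟩⟩
      rw [has_add, sub_add_cancel]
  · rw [if_neg hg]
    constructor
    · rintro ⟨hz, a, g, hag, h⟩
      obtain ⟨rfl, rfl⟩ := relA_uniq W hf hag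
      rcases h with ⟨h, -⟩ | ⟨-, h⟩
      · exact absurd h hg
      · exact h
    · rintro rfl
      exact ⟨W.grp.2.1, _, _, hA, Or.inr ⟨hg, rfl⟩⟩

/-- The cochain `b`. -/
noncomputable def bb (W : World E w k F Z add zero c) (P f₀ f₁ i j : M) : Zt W.grp :=
  bp W f₀ f₁ i j - (ps W P f₁ i j - ps W P f₀ i j)

theorem relC_iff (T : Triv E w k F Z add c P) {f₀ f₁ i j z : M} (h0 : InStar E w k F f₀)
    (h1 : InStar E w k F f₁) (h01 : PtLe E w f₀ f₁) (hij : InI E w f₀ i j) :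
    RelC E w k F Z add zero c P f₀ f₁ i j z ↔ z = (bb W P f₀ f₁ i j).1 := by
  have om := W.om
  have hij1 := inI_ptLe om h0.1 h1.1 hij h01
  constructor
  · rintro ⟨hz, z₁, z₂, z₃, s, e1, e2, e3, e4, e5⟩
    rw [relB_iff W h0 h1 h01 hij] at e1
    rw [relP_iff W T h1 hij1] at e2
    rw [relP_iff W T h0 hij] at e3
    subst e1 e2 e3
    obtain ⟨z', rfl⟩ : ∃ z' : Zt W.grp, z'.1 = z := ⟨⟨z, hz⟩, rfl⟩
    rw [has_add] at e4
    rw [has_add, e4] at e5
    have e7 : z' + ps W P f₁ i j = bp W f₀ f₁ i j + ps W P f₀ i j := Zt.ext e5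
    have e8 : z' = bb W P f₀ f₁ i j := by
      rw [bb, eq_sub_of_add_eq e7]
      abel
    rw [← e8]
  · rintro rfl
    refine ⟨(bb W P f₀ f₁ i j).2, _, _, _, (bp W f₀ f₁ i j + ps W P f₀ i j).1,
      (relB_iff W h0 h1 h01 hij).2 rfl, (relP_iff W T h1 hij1).2 rfl,
      (relP_iff W T h0 hij).2 rfl, ?_, ?_⟩
    · rw [has_add]
      congr 1
      unfold bb
      abel
    · rw [has_add]

theorem th_triv (T : Triv E w k F Z add c P) {a b f g : M} (ha : E a k) (hb : E b k)
    (hf : Has E F [a, f]) (hg : Has E F [b, g]) :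
    Ev E w (fun i j => InI E w f i j → InI E w g i j →
      Pv W P b i j - Pv W P a i j = th W f g i j) := by
  have om := W.om
  have hfun := W.chain.2.1 _ _ ha hf
  have hgun := W.chain.2.1 _ _ hb hg
  have hfs : InStar E w k F f := ⟨hfun, a, f, ha, hf, by
    obtain ⟨e, he⟩ := W.om.ne
    exact ⟨e, he, fun i m n hi _ hm hn => PtLe.refl W.om hfun i m n hi hm hn⟩⟩
  have hgs : InStar E w k F g := ⟨hgun, b, g, hb, hg, by
    obtain ⟨e, he⟩ := W.om.ne
    exact ⟨e, he, fun i m n hi _ hm hn => PtLe.refl W.om hgun i m n hi hm hn⟩⟩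
  have key : ∀ (a b f g : M), E a k → E b k → Has E F [a, f] → Has E F [b, g] →
      InStar E w k F f → InStar E w k F g → E a b →
      Ev E w (fun i j => InI E w f i j → InI E w g i j →
        Pv W P b i j - Pv W P a i j = th W f g i j) := by
    intro a b f g ha hb hf hg hfs hgs hab
    refine (T.triv a b f g ha hb hab hf hg).mono fun i j h hi hi' => ?_
    have hj := inI_mem om hfs.1 hi
    have h1 := h hi hi' _ _ _ ((Pv_spec W T ha hi.1 hj _).2 rfl)
      ((Pv_spec W T hb hi.1 hj _).2 rfl) ((relT_iff W hfs hgs hi hi').2 rfl)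
    rw [has_add] at h1
    have h2 : Pv W P b i j = Pv W P a i j + th W f g i j := Zt.ext h1
    rw [h2]
    abel
  rcases W.ktri a b ha hb with hab | hab | hab
  · exact key a b f g ha hb hf hg hfs hgs hab
  · subst hab
    obtain ⟨Y, hY⟩ := W.chain.1
    have := fun_uniq hY ha hf hg
    subst this
    refine Ev.all om fun i j _ _ => ?_
    rw [th_self W hfs, sub_self]
  · refine (key b a g f hb ha hg hf hgs hfs hab).mono fun i j h hi hi' => ?_
    rw [th_antisymm W hfs hgs, ← h hi' hi]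
    abel

theorem bb_ev (T : Triv E w k F Z add c P) {f₀ f₁ : M} (h0 : InStar E w k F f₀)
    (h1 : InStar E w k F f₁) (h01 : PtLe E w f₀ f₁) :
    Ev E w (fun i j => InI E w f₀ i j → bb W P f₀ f₁ i j = 0) := by
  have om := W.om
  have a0 := relA_spec W h0
  have a1 := relA_spec W h1
  have g0 := gF_star W h0
  have g1 := gF_star W h1
  have e1 := inI_evLe om h0.1 g0.1 a0.2.2.1
  have e2 := inI_evLe om h1.1 g1.1 a1.2.2.1
  have e3 := th_triv W T a0.1 a1.1 a0.2.1 a1.2.1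
  have e4 := th_coh W h0 g0 g1
  have e5 := th_coh W h0 h1 g1
  have e6 := th_le W h0 h1 h01
  refine (e1.and om (e2.and om (e3.and om (e4.and om (e5.and om e6))))).mono
    fun i j h hij => ?_
  obtain ⟨e1, e2, e3, e4, e5, e6⟩ := h
  have hij1 := inI_ptLe om h0.1 h1.1 hij h01
  have i0 := e1 hij
  have i1 := e2 hij1
  have e3 := e3 i0 i1
  have e4 := e4 hij i0 i1
  have e5 := e5 hij hij1 i1
  have e6 := e6 hij
  unfold bb ps
  rw [if_pos i0, if_pos i1, ← e6]
  have e7 : th W f₀ f₁ i j = th W f₀ (gF W f₀) i j + th W (gF W f₀) (gF W f₁) i j -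
      th W f₁ (gF W f₁) i j := by
    rw [e4, ← e5]; abel
  rw [e7, ← e3]
  abel

theorem bb_cobound {f₀ f₁ f₂ i j : M} (h0 : InStar E w k F f₀) (h1 : InStar E w k F f₁)
    (h2 : InStar E w k F f₂) (h01 : PtLe E w f₀ f₁) (h12 : PtLe E w f₁ f₂)
    (hij : InI E w f₀ i j) :
    bb W P f₁ f₂ i j + bb W P f₀ f₁ i j = bb W P f₀ f₂ i j + cv W f₀ f₁ f₂ i j := by
  rw [bp_coc W h0 h1 h2 h01 h12 hij]
  unfold bb
  abel

include W in
/-- The final step. -/
theorem cobound_of (T : Triv E w k F Z add c P) {b : M}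
    (hb : ∀ f₀ f₁ i j z, InStar E w k F f₀ → InStar E w k F f₁ → E i w → E j w →
      (Has E b [f₀, f₁, i, j, z] ↔ RelC E w k F Z add zero c P f₀ f₁ i j z)) :
    IsCochain1 E w k F Z zero b ∧ IsCobound E w k F add b c := by
  have om := W.om
  have key : ∀ f₀ f₁ i j z, InStar E w k F f₀ → InStar E w k F f₁ → PtLe E w f₀ f₁ →
      InI E w f₀ i j → (Has E b [f₀, f₁, i, j, z] ↔ z = (bb W P f₀ f₁ i j).1) := by
    intro f₀ f₁ i j z h0 h1 h01 hij
    rw [hb f₀ f₁ i j z h0 h1 hij.1 (inI_mem om h0.1 hij), relC_iff W T h0 h1 h01 hij]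
  constructor
  · intro f₀ f₁ h0 h1 h01
    refine ⟨fun i j hij => ⟨(bb W P f₀ f₁ i j).1, (bb W P f₀ f₁ i j).2,
      fun z' => key f₀ f₁ i j z' h0 h1 h01 hij⟩, ?_⟩
    obtain ⟨N, hN, h⟩ := bb_ev W T h0 h1 h01
    refine ⟨N, hN, fun i j hl hij => ?_⟩
    refine (key f₀ f₁ i j zero h0 h1 h01 hij).2 ?_
    rw [h i j hij.1 hl hij]
    rfl
  · intro f₀ f₁ f₂ h0 h1 h2 h01 h12 i j hij x₀ x₁ x₂ z e0 e1 e2 e3
    have h02 := h01.trans om h0.1 h1.1 h2.1 h12
    have hij1 := inI_ptLe om h0.1 h1.1 hij h01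
    rw [key _ _ _ _ _ h1 h2 h12 hij1] at e0
    rw [key _ _ _ _ _ h0 h2 h02 hij] at e1
    rw [key _ _ _ _ _ h0 h1 h01 hij] at e2
    rw [cv_spec W h0 h1 h2 h01 h12 hij] at e3
    subst e0 e1 e2 e3
    refine ⟨(bb W P f₁ f₂ i j + bb W P f₀ f₁ i j).1, has_add.2 rfl, ?_⟩
    rw [has_add, bb_cobound W h0 h1 h2 h01 h12 hij]

end Pool.Agent.MP63050e
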