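import Pool.Agent.MP_63050e_lc.D2
import Pool.Agent.MP_63050e_lc.D4

/-! Uniform definability of the vocabulary. -/

set_option linter.unusedVariables false
set_option linter.unusedSectionVars false
set_option linter.unreachableTactic false
set_option linter.unusedTactic false

namespace Pool.Agent.MP63050e

open BVM BName SetModel

universe v v' v''

section maps

variable {B : Type} [CompleteBooleanAlgebra B] {Γ : Type v} [BSet B Γ] {Δ : Type v'} [BSet B Δ]
  {Θ : Type v''} [BSet B Θ]

/-- Nonexpansive maps. -/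
def BMap (B : Type) [CompleteBooleanAlgebra B] {Γ : Type v} [BSet B Γ] {Δ : Type v'}
    [BSet B Δ] (f : Γ → Δ) : Prop :=
  ∀ γ γ', (BSet.eqv γ γ' : B) ≤ BSet.eqv (f γ) (f γ')

theorem BMap.id : BMap B (fun x : Γ => x) := fun _ _ => le_rfl

theorem BMap.fst {f : Γ → Δ × Θ} (hf : BMap B f) : BMap B (fun p => (f p).1) :=
  fun γ γ' => (hf γ γ').trans inf_le_left

theorem BMap.snd {f : Γ → Δ × Θ} (hf : BMap B f) : BMap B (fun p => (f p).2) :=
  fun γ γ' => (hf γ γ').trans inf_le_right

theorem BMap.pair {f : Γ → Δ} {g : Γ → Θ} (hf : BMap B f) (hg : BMap B g) :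
    BMap B (fun p => (f p, g p)) :=
  fun γ γ' => le_inf (hf γ γ') (hg γ γ')

theorem BMap.const (x : Δ) : BMap B (fun _ : Γ => x) := fun γ γ' => by
  rw [BSet.refl]; exact le_top

theorem BTerm.of {f : Γ → BName B} (hf : BMap B f) : BTerm f := hf

theorem BTerm.map {f : Γ → BName B} (hf : BTerm f) : BMap B f := hf

theorem BTerm.cmp {f : Γ → BName B} {g : Δ → Γ} (hf : BTerm f) (hg : BMap B g) :
    BTerm (fun p => f (g p)) := fun γ γ' => (hg γ γ').trans (hf _ _)

end maps

section closure

variable {B : Type} [CompleteBooleanAlgebra B] {J : Type*} {H : J → Ult B} {Γ : Type v}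
  [BSet B Γ]

variable {f1 f2 f3 f4 f5 f6 f7 f8 f9 f10 f11 f12 f13 f14 : Γ → BName B}

theorem bp_leN (h1 : BTerm f1) (h2 : BTerm f2) :
    BPred H (fun j γ => LeN (E (H j)) (Mdl.mk _ (f1 γ)) (Mdl.mk _ (f2 γ))) := by
  unfold LeN
  repeat' first
    | exact BMap.id
    | apply BMap.fst
    | apply BMap.snd
    | apply BTerm.cmp h1
    | apply BTerm.cmp h2
    | exact BTerm.const _
    | apply BTerm.of
    | apply bp_isUPair
    | apply bp_isPair
    | apply bp_isFun
    | apply bp_has2
    | apply bp_has3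
    | apply bp_has4
    | apply bp_has5
    | apply bp_has6
    | apply BPred.mem
    | apply BPred.eq
    | apply BPred.not
    | apply BPred.and
    | apply BPred.or
    | apply BPred.iff
    | apply BPred.imp
    | refine BPred.ex ?_
    | refine BPred.all ?_

theorem bp_inI (h1 : BTerm f1) (h2 : BTerm f2) (h3 : BTerm f3) (h4 : BTerm f4) :
    BPred H (fun j γ => InI (E (H j)) (Mdl.mk _ (f1 γ)) (Mdl.mk _ (f2 γ)) (Mdl.mk _ (f3 γ))
      (Mdl.mk _ (f4 γ))) := by
  unfold InI
  repeat' first
    | exact BMap.id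
    | apply BMap.fst
    | apply BMap.snd
    | apply BTerm.cmp h1
    | apply BTerm.cmp h2
    | apply BTerm.cmp h3
    | apply BTerm.cmp h4
    | exact BTerm.const _
    | apply BTerm.of
    | apply bp_leN
    | apply bp_isUPair
    | apply bp_isPair
    | apply bp_isFun
    | apply bp_has2
    | apply bp_has3
    | apply bp_has4
    | apply bp_has5
    | apply bp_has6
    | apply BPred.mem
    | apply BPred.eq
    | apply BPred.not
    | apply BPred.and
    | apply BPred.or
    | apply BPred.iff
    | apply BPred.imp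
    | refine BPred.ex ?_
    | refine BPred.all ?_

theorem bp_evLe (h1 : BTerm f1) (h2 : BTerm f2) (h3 : BTerm f3) :
    BPred H (fun j γ => EvLe (E (H j)) (Mdl.mk _ (f1 γ)) (Mdl.mk _ (f2 γ)) (Mdl.mk _ (f3 γ))) :=
      by
  unfold EvLe
  repeat' first
    | exact BMap.id
    | apply BMap.fst
    | apply BMap.snd
    | apply BTerm.cmp h1
    | apply BTerm.cmp h2
    | apply BTerm.cmp h3
    | exact BTerm.const _
    | apply BTerm.of
    | apply bp_inI
    | apply bp_leN
    | apply bp_isUPair
    | apply bp_isPair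
    | apply bp_isFun
    | apply bp_has2
    | apply bp_has3
    | apply bp_has4
    | apply bp_has5
    | apply bp_has6
    | apply BPred.mem
    | apply BPred.eq
    | apply BPred.not
    | apply BPred.and
    | apply BPred.or
    | apply BPred.iff
    | apply BPred.imp
    | refine BPred.ex ?_
    | refine BPred.all ?_

theorem bp_evLt (h1 : BTerm f1) (h2 : BTerm f2) (h3 : BTerm f3) :
    BPred H (fun j γ => EvLt (E (H j)) (Mdl.mk _ (f1 γ)) (Mdl.mk _ (f2 γ)) (Mdl.mk _ (f3 γ))) :=
      by
  unfold EvLt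
  repeat' first
    | exact BMap.id
    | apply BMap.fst
    | apply BMap.snd
    | apply BTerm.cmp h1
    | apply BTerm.cmp h2
    | apply BTerm.cmp h3
    | exact BTerm.const _
    | apply BTerm.of
    | apply bp_evLe
    | apply bp_inI
    | apply bp_leN
    | apply bp_isUPair
    | apply bp_isPair
    | apply bp_isFun
    | apply bp_has2
    | apply bp_has3
    | apply bp_has4
    | apply bp_has5
    | apply bp_has6
    | apply BPred.mem
    | apply BPred.eq
    | apply BPred.not
    | apply BPred.and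
    | apply BPred.or
    | apply BPred.iff
    | apply BPred.imp
    | refine BPred.ex ?_
    | refine BPred.all ?_

theorem bp_ptLe (h1 : BTerm f1) (h2 : BTerm f2) (h3 : BTerm f3) :
    BPred H (fun j γ => PtLe (E (H j)) (Mdl.mk _ (f1 γ)) (Mdl.mk _ (f2 γ)) (Mdl.mk _ (f3 γ))) :=
      by
  unfold PtLe
  repeat' first
    | exact BMap.id
    | apply BMap.fst
    | apply BMap.snd
    | apply BTerm.cmp h1
    | apply BTerm.cmp h2
    | apply BTerm.cmp h3
    | exact BTerm.const _
    | apply BTerm.of
    | apply bp_evLt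
    | apply bp_evLe
    | apply bp_inI
    | apply bp_leN
    | apply bp_isUPair
    | apply bp_isPair
    | apply bp_isFun
    | apply bp_has2
    | apply bp_has3
    | apply bp_has4
    | apply bp_has5
    | apply bp_has6
    | apply BPred.mem
    | apply BPred.eq
    | apply BPred.not
    | apply BPred.and
    | apply BPred.or
    | apply BPred.iff
    | apply BPred.imp
    | refine BPred.ex ?_
    | refine BPred.all ?_

theorem bp_inStar (h1 : BTerm f1) (h2 : BTerm f2) (h3 : BTerm f3) (h4 : BTerm f4) :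
    BPred H (fun j γ => InStar (E (H j)) (Mdl.mk _ (f1 γ)) (Mdl.mk _ (f2 γ)) (Mdl.mk _ (f3 γ))
      (Mdl.mk _ (f4 γ))) := by
  unfold InStar
  repeat' first
    | exact BMap.id
    | apply BMap.fst
    | apply BMap.snd
    | apply BTerm.cmp h1
    | apply BTerm.cmp h2
    | apply BTerm.cmp h3
    | apply BTerm.cmp h4
    | exact BTerm.const _
    | apply BTerm.of
    | apply bp_ptLe
    | apply bp_evLt
    | apply bp_evLe
    | apply bp_inI
    | apply bp_leN
    | apply bp_isUPair
    | apply bp_isPair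
    | apply bp_isFun
    | apply bp_has2
    | apply bp_has3
    | apply bp_has4
    | apply bp_has5
    | apply bp_has6
    | apply BPred.mem
    | apply BPred.eq
    | apply BPred.not
    | apply BPred.and
    | apply BPred.or
    | apply BPred.iff
    | apply BPred.imp
    | refine BPred.ex ?_
    | refine BPred.all ?_

theorem bp_isPt (h1 : BTerm f1) (h2 : BTerm f2) (h3 : BTerm f3) (h4 : BTerm f4) :
    BPred H (fun j γ => IsPt (E (H j)) (Mdl.mk _ (f1 γ)) (Mdl.mk _ (f2 γ)) (Mdl.mk _ (f3 γ))
      (Mdl.mk _ (f4 γ))) := by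
  unfold IsPt
  repeat' first
    | exact BMap.id
    | apply BMap.fst
    | apply BMap.snd
    | apply BTerm.cmp h1
    | apply BTerm.cmp h2
    | apply BTerm.cmp h3
    | apply BTerm.cmp h4
    | exact BTerm.const _
    | apply BTerm.of
    | apply bp_inStar
    | apply bp_ptLe
    | apply bp_evLt
    | apply bp_evLe
    | apply bp_inI
    | apply bp_leN
    | apply bp_isUPair
    | apply bp_isPair
    | apply bp_isFun
    | apply bp_has2
    | apply bp_has3
    | apply bp_has4
    | apply bp_has5
    | apply bp_has6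
    | apply BPred.mem
    | apply BPred.eq
    | apply BPred.not
    | apply BPred.and
    | apply BPred.or
    | apply BPred.iff
    | apply BPred.imp
    | refine BPred.ex ?_
    | refine BPred.all ?_

theorem bp_isMeet (h1 : BTerm f1) (h2 : BTerm f2) (h3 : BTerm f3) (h4 : BTerm f4) :
    BPred H (fun j γ => IsMeet (E (H j)) (Mdl.mk _ (f1 γ)) (Mdl.mk _ (f2 γ)) (Mdl.mk _ (f3 γ))
      (Mdl.mk _ (f4 γ))) := by
  unfold IsMeet
  repeat' first
    | exact BMap.id
    | apply BMap.fst
    | apply BMap.snd
    | apply BTerm.cmp h1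
    | apply BTerm.cmp h2
    | apply BTerm.cmp h3
    | apply BTerm.cmp h4
    | exact BTerm.const _
    | apply BTerm.of
    | apply bp_isPt
    | apply bp_inStar
    | apply bp_ptLe
    | apply bp_evLt
    | apply bp_evLe
    | apply bp_inI
    | apply bp_leN
    | apply bp_isUPair
    | apply bp_isPair
    | apply bp_isFun
    | apply bp_has2
    | apply bp_has3
    | apply bp_has4
    | apply bp_has5
    | apply bp_has6
    | apply BPred.mem
    | apply BPred.eq
    | apply BPred.not
    | apply BPred.and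
    | apply BPred.or
    | apply BPred.iff
    | apply BPred.imp
    | refine BPred.ex ?_
    | refine BPred.all ?_

theorem bp_relA (h1 : BTerm f1) (h2 : BTerm f2) (h3 : BTerm f3) (h4 : BTerm f4) (h5 : BTerm f5)
    (h6 : BTerm f6) :
    BPred H (fun j γ => RelA (E (H j)) (Mdl.mk _ (f1 γ)) (Mdl.mk _ (f2 γ)) (Mdl.mk _ (f3 γ))
      (Mdl.mk _ (f4 γ)) (Mdl.mk _ (f5 γ)) (Mdl.mk _ (f6 γ))) := by
  unfold RelA
  repeat' first
    | exact BMap.id
    | apply BMap.fst
    | apply BMap.snd
    | apply BTerm.cmp h1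
    | apply BTerm.cmp h2
    | apply BTerm.cmp h3
    | apply BTerm.cmp h4
    | apply BTerm.cmp h5
    | apply BTerm.cmp h6
    | exact BTerm.const _
    | apply BTerm.of
    | apply bp_isMeet
    | apply bp_isPt
    | apply bp_inStar
    | apply bp_ptLe
    | apply bp_evLt
    | apply bp_evLe
    | apply bp_inI
    | apply bp_leN
    | apply bp_isUPair
    | apply bp_isPair
    | apply bp_isFun
    | apply bp_has2
    | apply bp_has3
    | apply bp_has4
    | apply bp_has5
    | apply bp_has6
    | apply BPred.mem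
    | apply BPred.eq
    | apply BPred.not
    | apply BPred.and
    | apply BPred.or
    | apply BPred.iff
    | apply BPred.imp
    | refine BPred.ex ?_
    | refine BPred.all ?_

theorem bp_relB (h1 : BTerm f1) (h2 : BTerm f2) (h3 : BTerm f3) (h4 : BTerm f4) (h5 : BTerm f5)
    (h6 : BTerm f6) (h7 : BTerm f7) :
    BPred H (fun j γ => RelB (E (H j)) (Mdl.mk _ (f1 γ)) (Mdl.mk _ (f2 γ)) (Mdl.mk _ (f3 γ))
      (Mdl.mk _ (f4 γ)) (Mdl.mk _ (f5 γ)) (Mdl.mk _ (f6 γ)) (Mdl.mk _ (f7 γ))) := by
  unfold RelB
  repeat' first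
    | exact BMap.id
    | apply BMap.fst
    | apply BMap.snd
    | apply BTerm.cmp h1
    | apply BTerm.cmp h2
    | apply BTerm.cmp h3
    | apply BTerm.cmp h4
    | apply BTerm.cmp h5
    | apply BTerm.cmp h6
    | apply BTerm.cmp h7
    | exact BTerm.const _
    | apply BTerm.of
    | apply bp_relA
    | apply bp_isMeet
    | apply bp_isPt
    | apply bp_inStar
    | apply bp_ptLe
    | apply bp_evLt
    | apply bp_evLe
    | apply bp_inI
    | apply bp_leN
    | apply bp_isUPair
    | apply bp_isPair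
    | apply bp_isFun
    | apply bp_has2
    | apply bp_has3
    | apply bp_has4
    | apply bp_has5
    | apply bp_has6
    | apply BPred.mem
    | apply BPred.eq
    | apply BPred.not
    | apply BPred.and
    | apply BPred.or
    | apply BPred.iff
    | apply BPred.imp
    | refine BPred.ex ?_
    | refine BPred.all ?_

theorem bp_relT (h1 : BTerm f1) (h2 : BTerm f2) (h3 : BTerm f3) (h4 : BTerm f4) (h5 : BTerm f5)
    (h6 : BTerm f6) (h7 : BTerm f7) (h8 : BTerm f8) (h9 : BTerm f9) :
    BPred H (fun j γ => RelT (E (H j)) (Mdl.mk _ (f1 γ)) (Mdl.mk _ (f2 γ)) (Mdl.mk _ (f3 γ))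
      (Mdl.mk _ (f4 γ)) (Mdl.mk _ (f5 γ)) (Mdl.mk _ (f6 γ)) (Mdl.mk _ (f7 γ)) (Mdl.mk _ (f8 γ))
      (Mdl.mk _ (f9 γ))) := by
  unfold RelT
  repeat' first
    | exact BMap.id
    | apply BMap.fst
    | apply BMap.snd
    | apply BTerm.cmp h1
    | apply BTerm.cmp h2
    | apply BTerm.cmp h3
    | apply BTerm.cmp h4
    | apply BTerm.cmp h5
    | apply BTerm.cmp h6
    | apply BTerm.cmp h7
    | apply BTerm.cmp h8
    | apply BTerm.cmp h9
    | exact BTerm.const _
    | apply BTerm.of
    | apply bp_relB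
    | apply bp_relA
    | apply bp_isMeet
    | apply bp_isPt
    | apply bp_inStar
    | apply bp_ptLe
    | apply bp_evLt
    | apply bp_evLe
    | apply bp_inI
    | apply bp_leN
    | apply bp_isUPair
    | apply bp_isPair
    | apply bp_isFun
    | apply bp_has2
    | apply bp_has3
    | apply bp_has4
    | apply bp_has5
    | apply bp_has6
    | apply BPred.mem
    | apply BPred.eq
    | apply BPred.not
    | apply BPred.and
    | apply BPred.or
    | apply BPred.iff
    | apply BPred.imp
    | refine BPred.ex ?_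
    | refine BPred.all ?_

theorem bp_relP (h1 : BTerm f1) (h2 : BTerm f2) (h3 : BTerm f3) (h4 : BTerm f4) (h5 : BTerm f5)
    (h6 : BTerm f6) (h7 : BTerm f7) (h8 : BTerm f8) (h9 : BTerm f9) (h10 : BTerm f10) (h11
    : BTerm f11) (h12 : BTerm f12) :
    BPred H (fun j γ => RelP (E (H j)) (Mdl.mk _ (f1 γ)) (Mdl.mk _ (f2 γ)) (Mdl.mk _ (f3 γ))
      (Mdl.mk _ (f4 γ)) (Mdl.mk _ (f5 γ)) (Mdl.mk _ (f6 γ)) (Mdl.mk _ (f7 γ)) (Mdl.mk _ (f8 γ))
      (Mdl.mk _ (f9 γ)) (Mdl.mk _ (f10 γ)) (Mdl.mk _ (f11 γ)) (Mdl.mk _ (f12 γ))) := by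
  unfold RelP
  repeat' first
    | exact BMap.id
    | apply BMap.fst
    | apply BMap.snd
    | apply BTerm.cmp h1
    | apply BTerm.cmp h2
    | apply BTerm.cmp h3
    | apply BTerm.cmp h4
    | apply BTerm.cmp h5
    | apply BTerm.cmp h6
    | apply BTerm.cmp h7
    | apply BTerm.cmp h8
    | apply BTerm.cmp h9
    | apply BTerm.cmp h10
    | apply BTerm.cmp h11
    | apply BTerm.cmp h12
    | exact BTerm.const _
    | apply BTerm.of
    | apply bp_relT
    | apply bp_relB
    | apply bp_relA
    | apply bp_isMeet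
    | apply bp_isPt
    | apply bp_inStar
    | apply bp_ptLe
    | apply bp_evLt
    | apply bp_evLe
    | apply bp_inI
    | apply bp_leN
    | apply bp_isUPair
    | apply bp_isPair
    | apply bp_isFun
    | apply bp_has2
    | apply bp_has3
    | apply bp_has4
    | apply bp_has5
    | apply bp_has6
    | apply BPred.mem
    | apply BPred.eq
    | apply BPred.not
    | apply BPred.and
    | apply BPred.or
    | apply BPred.iff
    | apply BPred.imp
    | refine BPred.ex ?_
    | refine BPred.all ?_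

theorem bp_relC (h1 : BTerm f1) (h2 : BTerm f2) (h3 : BTerm f3) (h4 : BTerm f4) (h5 : BTerm f5)
    (h6 : BTerm f6) (h7 : BTerm f7) (h8 : BTerm f8) (h9 : BTerm f9) (h10 : BTerm f10) (h11
    : BTerm f11) (h12 : BTerm f12) (h13 : BTerm f13) :
    BPred H (fun j γ => RelC (E (H j)) (Mdl.mk _ (f1 γ)) (Mdl.mk _ (f2 γ)) (Mdl.mk _ (f3 γ))
      (Mdl.mk _ (f4 γ)) (Mdl.mk _ (f5 γ)) (Mdl.mk _ (f6 γ)) (Mdl.mk _ (f7 γ)) (Mdl.mk _ (f8 γ))
      (Mdl.mk _ (f9 γ)) (Mdl.mk _ (f10 γ)) (Mdl.mk _ (f11 γ)) (Mdl.mk _ (f12 γ)) (Mdl.mk _ (f13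
      γ))) := by
  unfold RelC
  repeat' first
    | exact BMap.id
    | apply BMap.fst
    | apply BMap.snd
    | apply BTerm.cmp h1
    | apply BTerm.cmp h2
    | apply BTerm.cmp h3
    | apply BTerm.cmp h4
    | apply BTerm.cmp h5
    | apply BTerm.cmp h6
    | apply BTerm.cmp h7
    | apply BTerm.cmp h8
    | apply BTerm.cmp h9
    | apply BTerm.cmp h10
    | apply BTerm.cmp h11
    | apply BTerm.cmp h12
    | apply BTerm.cmp h13
    | exact BTerm.const _
    | apply BTerm.of
    | apply bp_relP
    | apply bp_relT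
    | apply bp_relB
    | apply bp_relA
    | apply bp_isMeet
    | apply bp_isPt
    | apply bp_inStar
    | apply bp_ptLe
    | apply bp_evLt
    | apply bp_evLe
    | apply bp_inI
    | apply bp_leN
    | apply bp_isUPair
    | apply bp_isPair
    | apply bp_isFun
    | apply bp_has2
    | apply bp_has3
    | apply bp_has4
    | apply bp_has5
    | apply bp_has6
    | apply BPred.mem
    | apply BPred.eq
    | apply BPred.not
    | apply BPred.and
    | apply BPred.or
    | apply BPred.iff
    | apply BPred.imp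
    | refine BPred.ex ?_
    | refine BPred.all ?_

theorem bp_isCochain2 (h1 : BTerm f1) (h2 : BTerm f2) (h3 : BTerm f3) (h4 : BTerm f4) (h5
    : BTerm f5) (h6 : BTerm f6) :
    BPred H (fun j γ => IsCochain2 (E (H j)) (Mdl.mk _ (f1 γ)) (Mdl.mk _ (f2 γ)) (Mdl.mk _ (f3
      γ)) (Mdl.mk _ (f4 γ)) (Mdl.mk _ (f5 γ)) (Mdl.mk _ (f6 γ))) := by
  unfold IsCochain2 IsElt
  repeat' first
    | exact BMap.id
    | apply BMap.fst
    | apply BMap.snd
    | apply BTerm.cmp h1
    | apply BTerm.cmp h2
    | apply BTerm.cmp h3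
    | apply BTerm.cmp h4
    | apply BTerm.cmp h5
    | apply BTerm.cmp h6
    | exact BTerm.const _
    | apply BTerm.of
    | apply bp_relC
    | apply bp_relP
    | apply bp_relT
    | apply bp_relB
    | apply bp_relA
    | apply bp_isMeet
    | apply bp_isPt
    | apply bp_inStar
    | apply bp_ptLe
    | apply bp_evLt
    | apply bp_evLe
    | apply bp_inI
    | apply bp_leN
    | apply bp_isUPair
    | apply bp_isPair
    | apply bp_isFun
    | apply bp_has2
    | apply bp_has3
    | apply bp_has4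
    | apply bp_has5
    | apply bp_has6
    | apply BPred.mem
    | apply BPred.eq
    | apply BPred.not
    | apply BPred.and
    | apply BPred.or
    | apply BPred.iff
    | apply BPred.imp
    | refine BPred.ex ?_
    | refine BPred.all ?_

theorem bp_isCocycle2 (h1 : BTerm f1) (h2 : BTerm f2) (h3 : BTerm f3) (h4 : BTerm f4) (h5
    : BTerm f5) :
    BPred H (fun j γ => IsCocycle2 (E (H j)) (Mdl.mk _ (f1 γ)) (Mdl.mk _ (f2 γ)) (Mdl.mk _ (f3
      γ)) (Mdl.mk _ (f4 γ)) (Mdl.mk _ (f5 γ))) := by
  unfold IsCocycle2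
  repeat' first
    | exact BMap.id
    | apply BMap.fst
    | apply BMap.snd
    | apply BTerm.cmp h1
    | apply BTerm.cmp h2
    | apply BTerm.cmp h3
    | apply BTerm.cmp h4
    | apply BTerm.cmp h5
    | exact BTerm.const _
    | apply BTerm.of
    | apply bp_isCochain2
    | apply bp_relC
    | apply bp_relP
    | apply bp_relT
    | apply bp_relB
    | apply bp_relA
    | apply bp_isMeet
    | apply bp_isPt
    | apply bp_inStar
    | apply bp_ptLe
    | apply bp_evLt
    | apply bp_evLe
    | apply bp_inI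
    | apply bp_leN
    | apply bp_isUPair
    | apply bp_isPair
    | apply bp_isFun
    | apply bp_has2
    | apply bp_has3
    | apply bp_has4
    | apply bp_has5
    | apply bp_has6
    | apply BPred.mem
    | apply BPred.eq
    | apply BPred.not
    | apply BPred.and
    | apply BPred.or
    | apply BPred.iff
    | apply BPred.imp
    | refine BPred.ex ?_
    | refine BPred.all ?_

end closure

end Pool.Agent.MP63050e
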