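import Pool.Agent.MP_63050e_lc.D2

/-! `ω` and `ω₂` in the Boolean valued models. -/

set_option linter.unusedVariables false
set_option linter.unusedSectionVars false

namespace Pool.Agent.MP63050e

open BVM BName SetModel

universe v

section closure

variable {B : Type} [CompleteBooleanAlgebra B] {J : Type*} {H : J → Ult B} {Γ : Type v}
  [BSet B Γ] {f g k e r s t u : Γ → BName B}

theorem bp_isEmp (hf : BTerm f) : BPred H (fun j γ => IsEmp (E (H j)) (Mdl.mk _ (f γ))) := by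
  unfold IsEmp
  refine BPred.all ?_
  refine BPred.not ?_
  exact BPred.mem BTerm.snd hf.fst

theorem bp_isTrans (hf : BTerm f) : BPred H (fun j γ => IsTrans (E (H j)) (Mdl.mk _ (f γ))) := by
  unfold IsTrans
  refine BPred.all (BPred.all (BPred.imp ?_ (BPred.imp ?_ ?_)))
  · exact BPred.mem BTerm.snd.fst hf.fst.fst
  · exact BPred.mem BTerm.snd BTerm.snd.fst
  · exact BPred.mem BTerm.snd hf.fst.fst

theorem bp_isOrd (hf : BTerm f) : BPred H (fun j γ => IsOrd (E (H j)) (Mdl.mk _ (f γ))) := by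
  unfold IsOrd
  refine BPred.and (bp_isTrans hf) ?_
  refine BPred.all (BPred.imp ?_ ?_)
  · exact BPred.mem BTerm.snd hf.fst
  · exact bp_isTrans BTerm.snd

theorem bp_isSucc (hf : BTerm f) (hg : BTerm g) :
    BPred H (fun j γ => IsSucc (E (H j)) (Mdl.mk _ (f γ)) (Mdl.mk _ (g γ))) := by
  unfold IsSucc
  refine BPred.all (BPred.iff ?_ (BPred.or ?_ ?_))
  · exact BPred.mem BTerm.snd hf.fst
  · exact BPred.mem BTerm.snd hg.fst
  · exact BPred.eq BTerm.snd hg.fst

theorem bp_injects (hf : BTerm f) (hg : BTerm g) :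
    BPred H (fun j γ => Injects (E (H j)) (Mdl.mk _ (f γ)) (Mdl.mk _ (g γ))) := by
  unfold Injects
  refine BPred.ex (BPred.and ?_ ?_)
  · exact bp_isFun BTerm.snd hf.fst hg.fst
  · refine BPred.all (BPred.all (BPred.all (BPred.imp ?_ (BPred.imp ?_ (BPred.imp ?_
      (BPred.imp ?_ ?_))))))
    · exact BPred.mem BTerm.snd.fst.fst hf.fst.fst.fst.fst
    · exact BPred.mem BTerm.snd.fst hf.fst.fst.fst.fst
    · exact bp_has2 BTerm.snd.fst.fst.fst BTerm.snd.fst.fst BTerm.snd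
    · exact bp_has2 BTerm.snd.fst.fst.fst BTerm.snd.fst BTerm.snd
    · exact BPred.eq BTerm.snd.fst.fst BTerm.snd.fst

end closure

section ord

variable {B : Type} [CompleteBooleanAlgebra B] {α : Type} [LinearOrder α] [WellFoundedLT α]

theorem E_of_full {ι : Type} (e : ι → BName B) (h : Ult B) (i : ι) :
    E h (Mdl.mk h (e i)) (Mdl.mk h (BName.mk ι e (fun _ => ⊤))) := by
  rw [E_mk, bmem_full]
  refine h.iSup_of _ i ?_
  rw [beq_refl]; exact h.top'

theorem vN_subset_vNset (h : Ult B) (a : α) (z : Mdl h) (hz : E h z (Mdl.mk h (vN a))) :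
    E h z (Mdl.mk h (vNset B α)) := by
  rw [vN_eq] at hz
  refine forall_full (P := fun h z => E h z (Mdl.mk h (vNset B α))) _ ?_ ⊤ ?_ h h.top' z hz
  · exact BPred.mem BTerm.id (BTerm.const _)
  · intro h' _ b
    exact E_vN_vNset b.1

theorem isTrans_vN (h : Ult B) (a : α) : IsTrans (E h) (Mdl.mk h (vN a)) := by
  intro y z hy hz
  rw [vN_eq] at hy
  refine forall_full (P := fun h y => ∀ z, E h z y → E h z (Mdl.mk h (vN a))) _ ?_ ⊤ ?_ h h.top'
    y hy z hz
  · refine BPred.all (BPred.imp ?_ ?_)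
    · exact BPred.mem BTerm.snd BTerm.id.fst
    · exact BPred.mem BTerm.snd (BTerm.const _)
  · intro h' _ b z hz
    rw [vN_eq] at hz
    refine forall_full (P := fun h z => E h z (Mdl.mk h (vN a))) _ ?_ ⊤ ?_ h' h'.top' z hz
    · exact BPred.mem BTerm.id (BTerm.const _)
    · intro h'' _ c
      exact E_vN_vN.2 (c.2.trans b.2)

theorem isOrd_vN (h : Ult B) (a : α) : IsOrd (E h) (Mdl.mk h (vN a)) := by
  refine ⟨isTrans_vN h a, fun y hy => ?_⟩
  rw [vN_eq] at hy
  refine forall_full (P := fun h y => IsTrans (E h) y) _ ?_ ⊤ ?_ h h.top' y hy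
  · exact bp_isTrans BTerm.id
  · intro h' _ b
    exact isTrans_vN h' b.1

theorem isOrd_vNset (h : Ult B) : IsOrd (E h) (Mdl.mk h (vNset B α)) := by
  constructor
  · intro y z hy hz
    refine forall_full (P := fun h y => ∀ z, E h z y → E h z (Mdl.mk h (vNset B α))) _ ?_ ⊤ ?_ h
      h.top' y hy z hz
    · refine BPred.all (BPred.imp ?_ ?_)
      · exact BPred.mem BTerm.snd BTerm.id.fst
      · exact BPred.mem BTerm.snd (BTerm.const _)
    · intro h' _ b z hz
      exact vN_subset_vNset h' b z hz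
  · intro y hy
    refine forall_full (P := fun h y => IsTrans (E h) y) _ ?_ ⊤ ?_ h h.top' y hy
    · exact bp_isTrans BTerm.id
    · intro h' _ b
      exact isTrans_vN h' b

end ord

section omega

variable {B : Type} [CompleteBooleanAlgebra B]

theorem isEmp_vN_zero (h : Ult B) : IsEmp (E h) (Mdl.mk h (vN (0 : ℕ))) := by
  intro z hz
  obtain ⟨z, rfl⟩ := z.exists_rep
  rw [E_mk, bmem_vN] at hz
  refine h.bot (h.mono (iSup_le fun c => ?_) hz)
  exact absurd c.2 (Nat.not_lt_zero _)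

theorem isOmega (h : Ult B) : IsOmega (E h) (Mdl.mk h (omN B)) := by
  refine ⟨isOrd_vNset h, ⟨Mdl.mk h (vN (0 : ℕ)), isEmp_vN_zero h, E_vN_vNset 0⟩, ?_, ?_⟩
  · intro x hx
    refine forall_full (P := fun h x => ∃ y, E h y (Mdl.mk h (omN B)) ∧ IsSucc (E h) y x) _ ?_ ⊤ ?_
      h h.top' x hx
    · refine BPred.ex (BPred.and ?_ ?_)
      · exact BPred.mem BTerm.snd (BTerm.const _)
      · exact bp_isSucc BTerm.snd BTerm.id.fst
    · intro h' _ n
      exact ⟨Mdl.mk h' (vN (n + 1)), E_vN_vNset _, fun z => E_vN_succ n z⟩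
  · intro x hx
    refine forall_full (P := fun h x => IsEmp (E h) x ∨
      ∃ y, E h y (Mdl.mk h (omN B)) ∧ IsSucc (E h) x y) _ ?_ ⊤ ?_ h h.top' x hx
    · refine BPred.or (bp_isEmp BTerm.id) (BPred.ex (BPred.and ?_ ?_))
      · exact BPred.mem BTerm.snd (BTerm.const _)
      · exact bp_isSucc BTerm.id.fst BTerm.snd
    · intro h' _ n
      cases n with
      | zero => exact Or.inl (isEmp_vN_zero h')
      | succ n => exact Or.inr ⟨Mdl.mk h' (vN n), E_vN_vNset _, fun z => E_vN_succ n z⟩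

end omega

section inj

variable {B : Type} [CompleteBooleanAlgebra B]

/-- The name of a function between full names. -/
def funN {X Y : Type} (ex : X → BName B) (ey : Y → BName B) (g : X → Y) : BName B :=
  BName.mk X (fun x => opair (ex x) (ey (g x))) (fun _ => ⊤)

variable {X Y : Type} {ex : X → BName B} {ey : Y → BName B} {g : X → Y}

theorem ne_of_beq_bot {a b : BName B} (hab : beq a b = ⊥) (h : Ult B) :
    Mdl.mk h a ≠ Mdl.mk h b := by
  intro H
  rw [Mdl.mk_eq, hab] at H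
  exact h.bot H

theorem has_funN (h : Ult B) (x : X) :
    Has (E h) (Mdl.mk h (funN ex ey g)) [Mdl.mk h (ex x), Mdl.mk h (ey (g x))] := by
  rw [has_iff (by simp)]
  exact E_of_full (fun x => opair (ex x) (ey (g x))) h x

theorem has_funN_iff (hX : ∀ x x', x ≠ x' → beq (ex x) (ex x') = ⊥) (h : Ult B) (x : X)
    (b : Mdl h) :
    Has (E h) (Mdl.mk h (funN ex ey g)) [Mdl.mk h (ex x), b] ↔ b = Mdl.mk h (ey (g x)) := by
  constructor
  · intro H
    rw [has_iff (by simp)] at H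
    refine forall_full (P := fun h p => ∀ b, p = pr h (Mdl.mk h (ex x)) b →
      b = Mdl.mk h (ey (g x))) (fun x => opair (ex x) (ey (g x))) ?_ ⊤ ?_ h h.top' _ H b rfl
    · refine BPred.all (BPred.imp ?_ ?_)
      · exact BPred.eq BTerm.id.fst (bterm_opair (BTerm.const _) BTerm.snd)
      · exact BPred.eq BTerm.snd (BTerm.const _)
    · intro h' _ x' b hb
      rw [← pr_mk, pr_inj] at hb
      by_cases hxx : x' = x
      · subst hxx; exact hb.2.symm
      · exact absurd hb.1 (ne_of_beq_bot (hX _ _ hxx) h')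
  · rintro rfl
    exact has_funN h x

theorem isFun_funN (hX : ∀ x x', x ≠ x' → beq (ex x) (ex x') = ⊥) (h : Ult B) :
    IsFun (E h) (Mdl.mk h (funN ex ey g)) (Mdl.mk h (BName.mk X ex (fun _ => ⊤)))
      (Mdl.mk h (BName.mk Y ey (fun _ => ⊤))) := by
  constructor
  · intro p hp
    refine forall_full (P := fun h p => ∃ a b, E h a (Mdl.mk h (BName.mk X ex (fun _ => ⊤))) ∧
      E h b (Mdl.mk h (BName.mk Y ey (fun _ => ⊤))) ∧ IsPair (E h) p a b)
      (fun x => opair (ex x) (ey (g x))) ?_ ⊤ ?_ h h.top' p hp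
    · refine BPred.ex (BPred.ex (BPred.and ?_ (BPred.and ?_ ?_)))
      · exact BPred.mem BTerm.snd.fst (BTerm.const _)
      · exact BPred.mem BTerm.snd (BTerm.const _)
      · exact bp_isPair BTerm.id.fst.fst BTerm.snd.fst BTerm.snd
    · intro h' _ x
      exact ⟨Mdl.mk h' (ex x), Mdl.mk h' (ey (g x)), E_of_full _ _ _, E_of_full _ _ _,
        isPair_iff.2 rfl⟩
  · intro a ha
    refine forall_full (P := fun h a => ∃! b, Has (E h) (Mdl.mk h (funN ex ey g)) [a, b])
      ex ?_ ⊤ ?_ h h.top' a ha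
    · unfold ExistsUnique
      refine BPred.ex (BPred.and ?_ (BPred.all (BPred.imp ?_ ?_)))
      · exact bp_has2 (BTerm.const _) BTerm.id.fst BTerm.snd
      · exact bp_has2 (BTerm.const _) BTerm.id.fst.fst BTerm.snd
      · exact BPred.eq BTerm.snd BTerm.snd.fst
    · intro h' _ x
      exact ⟨Mdl.mk h' (ey (g x)), has_funN h' x, fun b hb => (has_funN_iff hX h' x b).1 hb⟩

theorem injects_full (hX : ∀ x x', x ≠ x' → beq (ex x) (ex x') = ⊥)
    (hY : ∀ y y', y ≠ y' → beq (ey y) (ey y') = ⊥) (hg : Function.Injective g) (h : Ult B) :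
    Injects (E h) (Mdl.mk h (BName.mk X ex (fun _ => ⊤)))
      (Mdl.mk h (BName.mk Y ey (fun _ => ⊤))) := by
  refine ⟨Mdl.mk h (funN ex ey g), isFun_funN hX h, ?_⟩
  intro a a' b ha ha' h1 h2
  refine forall_full (P := fun h a => ∀ a' b, E h a' (Mdl.mk h (BName.mk X ex (fun _ => ⊤))) →
    Has (E h) (Mdl.mk h (funN ex ey g)) [a, b] → Has (E h) (Mdl.mk h (funN ex ey g)) [a', b] →
    a = a') ex ?_ ⊤ ?_ h h.top' a ha a' b ha' h1 h2
  · refine BPred.all (BPred.all (BPred.imp ?_ (BPred.imp ?_ (BPred.imp ?_ ?_))))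
    · exact BPred.mem BTerm.snd.fst (BTerm.const _)
    · exact bp_has2 (BTerm.const _) BTerm.id.fst.fst BTerm.snd
    · exact bp_has2 (BTerm.const _) BTerm.snd.fst BTerm.snd
    · exact BPred.eq BTerm.id.fst.fst BTerm.snd.fst
  · intro h' _ x a' b ha' h1 h2
    rw [has_funN_iff hX] at h1
    subst h1
    refine forall_full (P := fun h a' => Has (E h) (Mdl.mk h (funN ex ey g))
      [a', Mdl.mk h (ey (g x))] → Mdl.mk h (ex x) = a') ex ?_ ⊤ ?_ h' h'.top' a' ha' h2
    · refine BPred.imp ?_ ?_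
      · exact bp_has2 (BTerm.const _) BTerm.id (BTerm.const _)
      · exact BPred.eq (BTerm.const _) BTerm.id
    · intro h'' _ x' h3
      rw [has_funN_iff hX] at h3
      by_cases hgx : g x = g x'
      · rw [hg hgx]
      · exact absurd h3 (ne_of_beq_bot (hY _ _ hgx) h'')

theorem not_injects_full (hccc : CCC B) (hX : ∀ x x', x ≠ x' → beq (ex x) (ex x') = ⊥)
    (hbig : ∀ g : X → Y, ∃ y, ¬ Countable {x // g x = y}) (h : Ult B) :
    ¬ Injects (E h) (Mdl.mk h (BName.mk X ex (fun _ => ⊤)))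
      (Mdl.mk h (BName.mk Y ey (fun _ => ⊤))) := by
  rintro ⟨f, hf, hinj⟩
  obtain ⟨f, rfl⟩ := f.exists_rep
  set NX : BName B := BName.mk X ex (fun _ => ⊤) with hNX
  set NY : BName B := BName.mk Y ey (fun _ => ⊤) with hNY
  -- the Boolean value of the assumption
  let Q : Ult B → PUnit.{1} → Prop := fun h _ => IsFun (E h) (Mdl.mk h f) (Mdl.mk h NX) (Mdl.mk h NY) ∧
    ∀ a a' b, E h a (Mdl.mk h NX) → E h a' (Mdl.mk h NX) → Has (E h) (Mdl.mk h f) [a, b] →
      Has (E h) (Mdl.mk h f) [a', b] → a = a'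
  have hQ : BPred (fun h : Ult B => h) Q := by
    refine BPred.and ?_ ?_
    · exact bp_isFun (BTerm.const _) (BTerm.const _) (BTerm.const _)
    · refine BPred.all (BPred.all (BPred.all (BPred.imp ?_ (BPred.imp ?_ (BPred.imp ?_
        (BPred.imp ?_ ?_))))))
      · exact BPred.mem BTerm.snd.fst.fst (BTerm.const _)
      · exact BPred.mem BTerm.snd.fst (BTerm.const _)
      · exact bp_has2 (BTerm.const _) BTerm.snd.fst.fst BTerm.snd
      · exact bp_has2 (BTerm.const _) BTerm.snd.fst BTerm.snd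
      · exact BPred.eq BTerm.snd.fst.fst BTerm.snd.fst
  have hQc := hQ.clop PUnit.unit
  set b : B := bval (fun h => Q h PUnit.unit) with hb
  have hbV : h.V b := (hQc.iff h).1 ⟨hf, hinj⟩
  have hbne : b ≠ ⊥ := h.ne_bot hbV
  -- the matrix of `f`
  have hR : ∀ (x : X), BPred (fun h : Ult B => h)
      (fun h (y : BName B) => Has (E h) (Mdl.mk h f) [Mdl.mk h (ex x), Mdl.mk h y]) :=
    fun x => bp_has2 (BTerm.const _) (BTerm.const _) BTerm.id
  let c : X → Y → B := fun x y =>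
    bval (fun h => Has (E h) (Mdl.mk h f) [Mdl.mk h (ex x), Mdl.mk h (ey y)])
  have hc : ∀ x y (h : Ult B), Has (E h) (Mdl.mk h f) [Mdl.mk h (ex x), Mdl.mk h (ey y)] ↔
      h.V (c x y) := fun x y h => ((hR x).clop (ey y)).iff h
  have hsup : ∀ x, b ≤ ⨆ y, c x y := by
    intro x
    refine exists_full (P := fun h y => Has (E h) (Mdl.mk h f) [Mdl.mk h (ex x), y]) ey (hR x) ?_
    intro h' hb'
    have hq : Q h' PUnit.unit := (hQc.iff h').2 hb'
    obtain ⟨y, hy, -⟩ := hq.1.2 (Mdl.mk h' (ex x)) (E_of_full _ _ _)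
    rw [has_iff (by simp)] at hy
    obtain ⟨a, y', ha, hy', hp⟩ := hq.1.1 _ hy
    rw [isPair_iff] at hp
    have h1 := pr_inj.1 (show pr h' (Mdl.mk h' (ex x)) y = pr h' a y' from hp)
    refine ⟨y, ?_, (has_iff (by simp)).2 hy⟩
    rw [h1.2]; exact hy'
  have hne : ∀ x, ∃ y, b ⊓ c x y ≠ ⊥ := by
    intro x
    by_contra hcon
    push Not at hcon
    apply hbne
    have h1 : b ⊓ ⨆ y, c x y = ⊥ := by
      rw [inf_iSup_eq]
      simp only [hcon, iSup_bot]
    rwa [inf_eq_left.2 (hsup x)] at h1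
  choose g hg using hne
  obtain ⟨y, hy⟩ := hbig g
  apply hy
  refine hccc {x // g x = y} (fun x => b ⊓ c x.1 (g x.1)) (fun x => hg x.1) ?_
  intro x x' hxx
  rw [disjoint_iff]
  by_contra hcon
  obtain ⟨h', hh⟩ := Ult.exists_of_ne_bot hcon
  rw [h'.inf', h'.inf', h'.inf', ← hc, ← hc] at hh
  have hq : Q h' PUnit.unit := (hQc.iff h').2 hh.1.1
  have h1 := hh.1.2
  have h2 := hh.2.2
  rw [x.2] at h1
  rw [x'.2] at h2
  have h3 := hq.2 _ _ _ (E_of_full ex h' x.1) (E_of_full ex h' x'.1) h1 h2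
  exact ne_of_beq_bot (hX x.1 x'.1 (fun h => hxx (Subtype.ext h))) h' h3

end inj

section card

open Cardinal

theorem exists_big_fibre {X Y : Type} (h : max #Y ℵ₀ < #X) (g : X → Y) :
    ∃ y, ¬ Countable {x // g x = y} := by
  by_contra hcon
  push Not at hcon
  have h1 : #X ≤ #Y * ℵ₀ := by
    have h2 : #X = Cardinal.sum (fun y => #{x // g x = y}) := by
      rw [← Cardinal.mk_sigma]
      exact Cardinal.mk_congr (Equiv.sigmaFiberEquiv g).symm
    rw [h2]
    refine (Cardinal.sum_le_sum _ (fun _ => ℵ₀) fun y => ?_).trans ?_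
    · exact Cardinal.mk_le_aleph0_iff.2 (hcon y)
    · simp
  have h3 : #Y * ℵ₀ ≤ max #Y ℵ₀ := by
    refine (Cardinal.mul_le_max _ _).trans ?_
    simp
  exact absurd (h1.trans h3) (not_le.2 h)

theorem exists_omega2 : ∃ (κ : Type) (_ : LinearOrder κ) (_ : WellFoundedLT κ), Nonempty κ ∧
    ∀ (B : Type) [CompleteBooleanAlgebra B], CCC B → ∀ h : Ult B,
      IsOmega2 (E h) (Mdl.mk h (vNset B κ)) := by
  let κ : Type := (Cardinal.aleph 2).ord.ToType
  have hκ : #κ = ℵ_ 2 := Cardinal.mk_ord_toType _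
  have h12 : Order.succ (ℵ_ 1) = ℵ_ 2 := by
    rw [Cardinal.succ_aleph]
    congr 1
    norm_num
  have hlt12 : ℵ_ 1 < ℵ_ 2 := by rw [← h12]; exact Order.lt_succ _
  have hseg : ∀ x : κ, #{y : κ // y < x} < ℵ_ 2 := fun x => by
    have := Cardinal.mk_Iio_lt x (by simp [κ])
    rwa [hκ] at this
  let x₁ : κ := Ordinal.enum (α := κ) (· < ·) ⟨(ℵ_ 1).ord, by
    rw [Set.mem_Iio, Ordinal.type_toType]
    exact Cardinal.ord_lt_ord.2 hlt12⟩
  have hx₁ : Ordinal.typein (α := κ) (· < ·) x₁ = (ℵ_ 1).ord := Ordinal.typein_enum _ _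
  have hcard : ∀ x : κ, #{y : κ // y < x} = (Ordinal.typein (α := κ) (· < ·) x).card := fun x => rfl
  have hcx₁ : #{y : κ // y < x₁} = ℵ_ 1 := by rw [hcard, hx₁, Cardinal.card_ord]
  have hsmall : ∀ y : κ, y < x₁ → #{z : κ // z < y} ≤ ℵ₀ := fun y hy => by
    rw [← Cardinal.lt_aleph_one_iff, hcard, ← Cardinal.lt_ord, ← hx₁]
    exact (Ordinal.typein_lt_typein (· < ·)).2 hy
  refine ⟨κ, inferInstance, inferInstance, ⟨x₁⟩, ?_⟩
  intro B _ hccc h
  have hd : ∀ (Y : Type) [LinearOrder Y] [WellFoundedLT Y] (y y' : Y), y ≠ y' →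
      beq (vN y : BName B) (vN y') = ⊥ := fun Y _ _ y y' hyy => beq_vN_ne hyy
  have hds : ∀ (x : κ) (y y' : {y : κ // y < x}), y ≠ y' →
      beq (vN y.1 : BName B) (vN y'.1) = ⊥ := fun x y y' hyy =>
    beq_vN_ne fun h => hyy (Subtype.ext h)
  refine ⟨Mdl.mk h (vN x₁), ⟨Mdl.mk h (omN B), isOmega h, isOrd_vN h x₁, ?_, ?_⟩,
    isOrd_vNset h, ?_, ?_⟩
  · intro a ha
    rw [vN_eq] at ha
    refine forall_full (P := fun h a => Injects (E h) a (Mdl.mk h (omN B))) _ ?_ ⊤ ?_ h h.top' a ha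
    · exact bp_injects BTerm.id (BTerm.const _)
    · intro h' _ y
      obtain ⟨⟨g, hg⟩⟩ : Nonempty ({z : κ // z < y.1} ↪ ℕ) := by
        rw [← Cardinal.le_def, Cardinal.mk_nat]
        exact hsmall y.1 y.2
      rw [vN_eq]
      exact injects_full (hds y.1) (hd ℕ) hg h'
  · rw [vN_eq]
    refine not_injects_full hccc (hds x₁) (fun g => exists_big_fibre ?_ g) h
    rw [hcx₁, Cardinal.mk_nat, max_self]
    exact Cardinal.aleph0_lt_aleph_one
  · intro a ha
    refine forall_full (P := fun h a => Injects (E h) a (Mdl.mk h (vN x₁))) _ ?_ ⊤ ?_ h h.top' a ha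
    · exact bp_injects BTerm.id (BTerm.const _)
    · intro h' _ y
      obtain ⟨⟨g, hg⟩⟩ : Nonempty ({z : κ // z < y} ↪ {z : κ // z < x₁}) := by
        rw [← Cardinal.le_def, hcx₁, ← Order.lt_succ_iff, h12]
        exact hseg y
      rw [vN_eq y, vN_eq x₁]
      exact injects_full (hds y) (hds x₁) hg h'
  · rw [vN_eq x₁]
    refine not_injects_full hccc (hd κ) (fun g => exists_big_fibre ?_ g) h
    rw [hcx₁, hκ, max_eq_left Cardinal.aleph0_lt_aleph_one.le]
    exact hlt12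

end card

end Pool.Agent.MP63050e
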