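import Pool.Agent.MP_63050e_lc.D5
import Pool.Agent.MP_63050e_lc.E1

/-! Names with full values. -/

set_option linter.unusedVariables false
set_option linter.unusedSectionVars false
set_option linter.unreachableTactic false
set_option linter.unusedTactic false

namespace Pool.Agent.MP63050e

open BVM BName SetModel

universe v

section names

variable {B : Type} [CompleteBooleanAlgebra B]

theorem bmem_inj {ι : Type} {t : ι → BName B} (ht : ∀ x y, x ≠ y → beq (t x) (t y) = ⊥)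
    (c : ι → B) (x : ι) : bmem (t x) (BName.mk ι t c) = c x := by
  rw [bmem_mk]
  apply le_antisymm
  · refine iSup_le fun y => ?_
    by_cases hxy : x = y
    · subst hxy; exact inf_le_left
    · rw [ht x y hxy, inf_bot_eq]; exact bot_le
  · refine le_iSup_of_le x ?_
    rw [beq_refl, inf_top_eq]

theorem beq_opair (a b c d : BName B) : beq (opair a b) (opair c d) = beq a c ⊓ beq b d := by
  refine le_antisymm (Ult.le_iff.2 fun h hh => ?_) (Ult.le_iff.2 fun h hh => ?_)
  · rw [h.inf']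
    rw [← Mdl.mk_eq, ← pr_mk, ← pr_mk, pr_inj, Mdl.mk_eq, Mdl.mk_eq] at hh
    exact hh
  · rw [h.inf'] at hh
    rw [← Mdl.mk_eq, ← pr_mk, ← pr_mk, pr_inj, Mdl.mk_eq, Mdl.mk_eq]
    exact hh

theorem zN_inj {x y : ℤ} {h : Ult B} : Mdl.mk h (zN x) = Mdl.mk h (zN y) ↔ x = y := by
  unfold zN
  rw [vN_inj]
  exact Equiv.intEquivNat.injective.eq_iff

theorem E_full_of {ι : Type} {t : ι → BName B} {c : ι → B} {h : Ult B} {z : Mdl h}
    (hz : E h z (Mdl.mk h (BName.mk ι t c))) :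
    E h z (Mdl.mk h (BName.mk ι t (fun _ => ⊤))) := by
  obtain ⟨z, rfl⟩ := z.exists_rep
  rw [E_mk] at hz ⊢
  refine h.mono ?_ hz
  rw [bmem_mk, bmem_mk]
  exact iSup_mono fun i => inf_le_inf_right _ le_top

/-- If the supremum of `g i` holds and `g i` implies `P (e i)`, then some element of the full name
has the property `P`. -/
theorem exists_of_iSup {ι : Type} (e : ι → BName B) (g : ι → B)
    {P : (h : Ult B) → Mdl h → Prop}
    (hP : BPred (fun h : Ult B => h) (fun h (x : BName B) => P h (Mdl.mk h x))) {b : B}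
    (H : ∀ h : Ult B, h.V b → ∀ i, h.V (g i) → P h (Mdl.mk h (e i))) {h : Ult B}
    (hb : h.V b) (hg : h.V (⨆ i, g i)) :
    ∃ z, E h z (Mdl.mk h (BName.mk ι e (fun _ => ⊤))) ∧ P h z := by
  obtain ⟨φ, hφ, hφ'⟩ := hP
  have h1 : ∀ i, b ⊓ g i ≤ φ (e i) := fun i => Ult.le_iff.2 fun h hh =>
    (hφ' h (e i)).1 (H h ((h.inf' _ _).1 hh).1 i ((h.inf' _ _).1 hh).2)
  have hext : Ext φ := hφ
  have h2 : b ⊓ (⨆ i, g i) ≤ ⨆ z, bmem z (BName.mk ι e (fun _ => ⊤)) ⊓ φ z := by
    rw [bex_eq hext, inf_iSup_eq]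
    exact iSup_mono fun i => le_inf le_top (h1 i)
  have h3 := h.mono h2 ((h.inf' _ _).2 ⟨hb, hg⟩)
  have hext2 : Ext (fun z => bmem z (BName.mk ι e (fun _ => ⊤)) ⊓ φ z) := by
    intro x y
    exact le_inf ((inf_le_inf_left _ inf_le_left).trans (bmem_congr_left _ _ _))
      ((inf_le_inf_left _ inf_le_right).trans (hext _ _))
  rw [h.exists_iff hext2] at h3
  obtain ⟨z, hz⟩ := h3
  rw [h.inf'] at hz
  exact ⟨Mdl.mk h z, hz.1, (hφ' h z).2 hz.2⟩

theorem has_addN {h : Ult B} (x y : ℤ) (z : ℤ) :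
    Has (E h) (Mdl.mk h (addN B)) [Mdl.mk h (zN x), Mdl.mk h (zN y), Mdl.mk h (zN z)] ↔
      x + y = z := by
  rw [has_iff (by simp)]
  constructor
  · intro H
    refine forall_full (P := fun h p => p = pr h (Mdl.mk h (zN x)) (pr h (Mdl.mk h (zN y))
      (Mdl.mk h (zN z))) → x + y = z) (fun p : ℤ × ℤ => opair (zN p.1)
      (opair (zN p.2) (zN (p.1 + p.2)))) ?_ ⊤ ?_ h h.top' _ H rfl
    · refine BPred.imp ?_ (BPred.const _)
      exact BPred.eq BTerm.id (bterm_opair (BTerm.const _) (bterm_opair (BTerm.const _)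
        (BTerm.const _)))
    · intro h' _ p hp
      rw [← pr_mk, ← pr_mk, pr_inj, pr_inj, zN_inj, zN_inj, zN_inj] at hp
      obtain ⟨rfl, rfl, hp⟩ := hp
      exact hp
  · rintro rfl
    exact E_of_full (fun p : ℤ × ℤ => opair (zN p.1) (opair (zN p.2) (zN (p.1 + p.2)))) h (x, y)

theorem subset_in_pow {h : Ult B} (A : Mdl h) :
    ∃ D : Mdl h, ∀ z, (∀ w, E h w z → E h w A) → E h z D := by
  obtain ⟨A, rfl⟩ := A.exists_rep
  exact ⟨_, subset_mem_spow h A⟩

theorem exists_prod {h : Ult B} (A C : Mdl h) :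
    ∃ D : Mdl h, ∀ x y, E h x A → E h y C → E h (pr h x y) D := by
  obtain ⟨U, hU⟩ : ∃ U : Mdl h, ∀ z, E h z U ↔ E h z A ∨ E h z C := by
    obtain ⟨A, rfl⟩ := A.exists_rep
    obtain ⟨C, rfl⟩ := C.exists_rep
    refine ⟨Mdl.mk h (sunion (upair A C)), fun z => ?_⟩
    rw [E_sunion]
    constructor
    · rintro ⟨y, hy, hz⟩
      rw [E_upair] at hy
      rcases hy with rfl | rfl
      · exact Or.inl hz
      · exact Or.inr hz
    · rintro (hz | hz)
      · exact ⟨_, (E_upair _ _ _ _).2 (Or.inl rfl), hz⟩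
      · exact ⟨_, (E_upair _ _ _ _).2 (Or.inr rfl), hz⟩
  obtain ⟨V, hV⟩ := subset_in_pow U
  obtain ⟨D, hD⟩ := subset_in_pow V
  refine ⟨D, fun x y hx hy => hD _ fun s hs => hV _ fun t ht => ?_⟩
  have hx' := (hU x).2 (Or.inl hx)
  have hy' := (hU y).2 (Or.inr hy)
  unfold pr at hs
  rw [E_up] at hs
  rcases hs with rfl | rfl
  · rw [E_up, or_self] at ht
    rw [ht]; exact hx'
  · rw [E_up] at ht
    rcases ht with rfl | rfl
    · exact hx'
    · exact hy'

theorem inI_realN {κ : Type} [LinearOrder κ] {em : PP κ → B} (hem : DenseEmb em) {h : Ult B}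
    (α : κ) (i j : ℕ) :
    InI (E h) (Mdl.mk h (omN B)) (Mdl.mk h (realN (fB em α))) (Mdl.mk h (vN i))
      (Mdl.mk h (vN j)) ↔ h.V (fgt (fB em) α i j) := by
  have hinj : ∀ x y : ℕ × ℕ, x ≠ y → beq (opair (vN x.1) (vN x.2) : BName B)
      (opair (vN y.1) (vN y.2)) = ⊥ := by
    intro x y hxy
    rw [beq_opair]
    by_cases h1 : x.1 = y.1
    · have h2 : x.2 ≠ y.2 := fun h2 => hxy (Prod.ext h1 h2)
      rw [beq_vN_ne h2, inf_bot_eq]
    · rw [beq_vN_ne h1, bot_inf_eq]
  have hval : ∀ (h : Ult B) n, Has (E h) (Mdl.mk h (realN (fB em α)))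
      [Mdl.mk h (vN i), Mdl.mk h (vN n)] ↔ h.V (fB em α i n) := by
    intro h n
    rw [has_iff (by simp)]
    change h.V (bmem (opair (vN i) (vN n)) (realN (fB em α))) ↔ _
    have := bmem_inj hinj (fun p => fB em α p.1 p.2) (i, n)
    simp only at this
    rw [realN, this]
  constructor
  · rintro ⟨-, m, hm, hj⟩
    rw [has_iff (by simp)] at hm
    have hm' := E_full_of hm
    have hmw : E h m (Mdl.mk h (omN B)) := by
      refine forall_full (P := fun h p => ∀ m, p = pr h (Mdl.mk h (vN i)) m →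
        E h m (Mdl.mk h (omN B))) (fun x : ℕ × ℕ => opair (vN x.1) (vN x.2)) ?_ ⊤ ?_ h h.top' _
        hm' m rfl
      · refine BPred.all (BPred.imp ?_ ?_)
        · exact BPred.eq BTerm.id.fst (bterm_opair (BTerm.const _) BTerm.snd)
        · exact BPred.mem BTerm.snd (BTerm.const _)
      · intro h' _ x m hx
        rw [← pr_mk, pr_inj] at hx
        rw [← hx.2]
        exact E_vN_vNset _
    have hm2 : Has (E h) (Mdl.mk h (realN (fB em α))) [Mdl.mk h (vN i), m] :=
      (has_iff (by simp)).2 hm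
    by_contra hne
    rw [← h.compl'] at hne
    refine forall_full (P := fun h m => Has (E h) (Mdl.mk h (realN (fB em α)))
      [Mdl.mk h (vN i), m] → E h (Mdl.mk h (vN j)) m → False) (fun n : ℕ => vN n) ?_ _ ?_ h hne
      m hmw hm2 hj
    · refine BPred.imp ?_ (BPred.imp ?_ (BPred.const _))
      · exact bp_has2 (BTerm.const _) (BTerm.const _) BTerm.id
      · exact BPred.mem (BTerm.const _) BTerm.id
    · intro h' hh' n hn hjn
      rw [hval] at hn
      rw [E_vN_vN] at hjn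
      rw [h'.compl'] at hh'
      exact hh' (h'.iSup_of (fun n : {n : ℕ // j < n} => fB em α i n.1) ⟨n, hjn⟩ hn)
  · intro hV
    refine ⟨E_vN_vNset i, ?_⟩
    obtain ⟨m, -, hm⟩ := exists_of_iSup (P := fun h m => Has (E h) (Mdl.mk h (realN (fB em α)))
      [Mdl.mk h (vN i), m] ∧ E h (Mdl.mk h (vN j)) m) (fun n : {n : ℕ // j < n} => vN n.1)
      (fun n => fB em α i n.1) (by
        refine BPred.and ?_ ?_
        · exact bp_has2 (BTerm.const _) (BTerm.const _) BTerm.id
        · exact BPred.mem (BTerm.const _) BTerm.id) (b := ⊤) (by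
        intro h' _ n hn
        exact ⟨(hval h' n.1).2 hn, E_vN_vN.2 n.2⟩) h.top' hV
    exact ⟨m, hm⟩

end names

end Pool.Agent.MP63050e
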