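import Pool.Agent.MP_63050e_lc.D6

/-! The trivialising set. -/

set_option linter.unusedVariables false
set_option linter.unusedSectionVars false
set_option linter.unreachableTactic false
set_option linter.unusedTactic false

namespace Pool.Agent.MP63050e

open BVM BName SetModel

universe v

/-- The relation `RelT`, extended by `0`. -/
def RelT2 {M : Type v} (E : M → M → Prop) (w Z add zero c f g i j z : M) : Prop :=
  ((InI E w f i j ∧ InI E w g i j) ∧ RelT E w Z add c f g i j z) ∨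
    (¬ (InI E w f i j ∧ InI E w g i j) ∧ z = zero)

section closure

variable {B : Type} [CompleteBooleanAlgebra B] {J : Type*} {H : J → Ult B} {Γ : Type v}
  [BSet B Γ]

variable {f1 f2 f3 f4 f5 f6 f7 f8 f9 f10 f11 f12 f13 f14 : Γ → BName B}

theorem bp_relT2 (h1 : BTerm f1) (h2 : BTerm f2) (h3 : BTerm f3) (h4 : BTerm f4)
    (h5 : BTerm f5) (h6 : BTerm f6) (h7 : BTerm f7) (h8 : BTerm f8) (h9 : BTerm f9)
    (h10 : BTerm f10) :
    BPred H (fun j γ => RelT2 (E (H j)) (Mdl.mk _ (f1 γ)) (Mdl.mk _ (f2 γ)) (Mdl.mk _ (f3 γ))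
      (Mdl.mk _ (f4 γ)) (Mdl.mk _ (f5 γ)) (Mdl.mk _ (f6 γ)) (Mdl.mk _ (f7 γ)) (Mdl.mk _ (f8 γ))
      (Mdl.mk _ (f9 γ)) (Mdl.mk _ (f10 γ))) := by
  unfold RelT2
  repeat' first
    | exact BMap.id
    | apply BMap.fst
    | apply BMap.snd
    | apply BTerm.cmp h1
    | apply BTerm.cmp h2
    | apply BTerm.cmp h3
    | apply BTerm.cmp h4
    | apply BTerm.cmp h5
    | apply BTerm.cmp h6
    | apply BTerm.cmp h7
    | apply BTerm.cmp h8
    | apply BTerm.cmp h9
    | apply BTerm.cmp h10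
    | exact BTerm.const _
    | apply BTerm.of
    | apply bp_isCocycle2
    | apply bp_isCochain2
    | apply bp_relC
    | apply bp_relP
    | apply bp_relT
    | apply bp_relB
    | apply bp_relA
    | apply bp_isMeet
    | apply bp_isPt
    | apply bp_inStar
    | apply bp_ptLe
    | apply bp_evLt
    | apply bp_evLe
    | apply bp_inI
    | apply bp_leN
    | apply bp_isUPair
    | apply bp_isPair
    | apply bp_isFun
    | apply bp_has2
    | apply bp_has3
    | apply bp_has4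
    | apply bp_has5
    | apply bp_has6
    | apply BPred.mem
    | apply BPred.eq
    | apply BPred.not
    | apply BPred.and
    | apply BPred.or
    | apply BPred.iff
    | apply BPred.imp
    | refine BPred.ex ?_
    | refine BPred.all ?_

end closure

section main

variable {κ : Type} [LinearOrder κ] [WellFoundedLT κ] {B : Type} [CompleteBooleanAlgebra B]
  {em : PP κ → B}

/-- The generic real. -/
noncomputable abbrev rl (em : PP κ → B) (α : κ) : BName B := realN (fB em α)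

/-- The Boolean values of `θ(F_α, F_β)(i, j) = z`. -/
noncomputable def PhiN (em : PP κ → B) (c : BName B) (α β : κ) (i j : ℕ) (z : ℤ) : B :=
  bval (fun h => RelT2 (E h) (Mdl.mk h (omN B)) (Mdl.mk h (ZN B)) (Mdl.mk h (addN B))
    (Mdl.mk h (zN 0)) (Mdl.mk h c) (Mdl.mk h (rl em α)) (Mdl.mk h (rl em β)) (Mdl.mk h (vN i))
    (Mdl.mk h (vN j)) (Mdl.mk h (zN z)))

theorem PhiN_iff (c : BName B) (α β : κ) (i j : ℕ) (z : ℤ) (h : Ult B) :
    RelT2 (E h) (Mdl.mk h (omN B)) (Mdl.mk h (ZN B)) (Mdl.mk h (addN B))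
    (Mdl.mk h (zN 0)) (Mdl.mk h c) (Mdl.mk h (rl em α)) (Mdl.mk h (rl em β)) (Mdl.mk h (vN i))
    (Mdl.mk h (vN j)) (Mdl.mk h (zN z)) ↔ h.V (PhiN em c α β i j z) := by
  have hP : BPred (fun h : Ult B => h) (fun h (_ : PUnit.{1}) =>
      RelT2 (E h) (Mdl.mk h (omN B)) (Mdl.mk h (ZN B)) (Mdl.mk h (addN B))
      (Mdl.mk h (zN 0)) (Mdl.mk h c) (Mdl.mk h (rl em α)) (Mdl.mk h (rl em β)) (Mdl.mk h (vN i))
      (Mdl.mk h (vN j)) (Mdl.mk h (zN z))) := by
    repeat' first
      | exact BMap.id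
      | apply BMap.fst
      | apply BMap.snd
      | exact BTerm.const _
      | apply BTerm.of
      | apply bp_relT2
      | apply bp_isCocycle2
      | apply bp_isCochain2
      | apply bp_relC
      | apply bp_relP
      | apply bp_relT
      | apply bp_relB
      | apply bp_relA
      | apply bp_isMeet
      | apply bp_isPt
      | apply bp_inStar
      | apply bp_ptLe
      | apply bp_evLt
      | apply bp_evLe
      | apply bp_inI
      | apply bp_leN
      | apply bp_isUPair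
      | apply bp_isPair
      | apply bp_isFun
      | apply bp_has2
      | apply bp_has3
      | apply bp_has4
      | apply bp_has5
      | apply bp_has6
      | apply BPred.mem
      | apply BPred.eq
      | apply BPred.not
      | apply BPred.and
      | apply BPred.or
      | apply BPred.iff
      | apply BPred.imp
      | refine BPred.ex ?_
      | refine BPred.all ?_
  exact (hP.clop PUnit.unit).iff h

/-- The hypothesis on `b₀`. -/
def AllWorld (em : PP κ → B) (c : BName B) (b₀ : B) : Prop :=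
  ∀ h : Ult B, h.V b₀ → World (E h) (Mdl.mk h (omN B)) (Mdl.mk h (vNset B κ))
    (Mdl.mk h (chainN em)) (Mdl.mk h (ZN B)) (Mdl.mk h (addN B)) (Mdl.mk h (zN 0)) (Mdl.mk h c)

theorem has_chainN (em : PP κ → B) (h : Ult B) (α : κ) :
    Has (E h) (Mdl.mk h (chainN em)) [Mdl.mk h (vN α), Mdl.mk h (rl em α)] :=
  has_funN (ex := vN) (ey := rl em) (g := id) h α

theorem has_chainN_iff (em : PP κ → B) (h : Ult B) (α : κ) (f : Mdl h) :
    Has (E h) (Mdl.mk h (chainN em)) [Mdl.mk h (vN α), f] ↔ f = Mdl.mk h (rl em α) :=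
  has_funN_iff (ex := vN) (ey := rl em) (g := id) (fun x x' hx => beq_vN_ne hx) h α f

theorem rl_fun {c : BName B} {b₀ : B} (hW : AllWorld em c b₀) {h : Ult B} (hb : h.V b₀)
    (α : κ) : IsFun (E h) (Mdl.mk h (rl em α)) (Mdl.mk h (omN B)) (Mdl.mk h (omN B)) :=
  (hW h hb).chain.2.1 _ _ (E_vN_vNset α) (has_chainN em h α)

theorem rl_star {c : BName B} {b₀ : B} (hW : AllWorld em c b₀) {h : Ult B} (hb : h.V b₀)
    (α : κ) : InStar (E h) (Mdl.mk h (omN B)) (Mdl.mk h (vNset B κ)) (Mdl.mk h (chainN em))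
      (Mdl.mk h (rl em α)) := by
  refine ⟨rl_fun hW hb α, Mdl.mk h (vN α), _, E_vN_vNset α, has_chainN em h α, ?_⟩
  obtain ⟨e, he⟩ := (hW h hb).om.ne
  exact ⟨e, he, fun i m n hi _ hm hn =>
    PtLe.refl (hW h hb).om (rl_fun hW hb α) i m n hi hm hn⟩

theorem phi_sup {c : BName B} {b₀ : B} (hW : AllWorld em c b₀) (α β : κ) (i j : ℕ) :
    b₀ ≤ ⨆ z, PhiN em c α β i j z := by
  refine exists_full (zN (B := B)) (P := fun h z => RelT2 (E h) (Mdl.mk h (omN B))
    (Mdl.mk h (ZN B)) (Mdl.mk h (addN B)) (Mdl.mk h (zN 0)) (Mdl.mk h c) (Mdl.mk h (rl em α))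
    (Mdl.mk h (rl em β)) (Mdl.mk h (vN i)) (Mdl.mk h (vN j)) z) ?_ ?_
  · repeat' first
   | exact BMap.id
   | apply BMap.fst
   | apply BMap.snd
   | exact BTerm.const _
   | apply BTerm.of
   | apply bp_relT2
   | apply bp_isCocycle2
   | apply bp_isCochain2
   | apply bp_relC
   | apply bp_relP
   | apply bp_relT
   | apply bp_relB
   | apply bp_relA
   | apply bp_isMeet
   | apply bp_isPt
   | apply bp_inStar
   | apply bp_ptLe
   | apply bp_evLt
   | apply bp_evLe
   | apply bp_inI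
   | apply bp_leN
   | apply bp_isUPair
   | apply bp_isPair
   | apply bp_isFun
   | apply bp_has2
   | apply bp_has3
   | apply bp_has4
   | apply bp_has5
   | apply bp_has6
   | apply BPred.mem
   | apply BPred.eq
   | apply BPred.not
   | apply BPred.and
   | apply BPred.or
   | apply BPred.iff
   | apply BPred.imp
   | refine BPred.ex ?_
   | refine BPred.all ?_
  · intro h hb
    have W := hW h hb
    by_cases hI : InI (E h) (Mdl.mk h (omN B)) (Mdl.mk h (rl em α)) (Mdl.mk h (vN i))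
        (Mdl.mk h (vN j)) ∧ InI (E h) (Mdl.mk h (omN B)) (Mdl.mk h (rl em β)) (Mdl.mk h (vN i))
        (Mdl.mk h (vN j))
    · refine ⟨(th W (Mdl.mk h (rl em α)) (Mdl.mk h (rl em β)) (Mdl.mk h (vN i))
        (Mdl.mk h (vN j))).1, (th W _ _ _ _).2, Or.inl ⟨hI, ?_⟩⟩
      exact (relT_iff W (rl_star hW hb α) (rl_star hW hb β) hI.1 hI.2).2 rfl
    · exact ⟨Mdl.mk h (zN 0), E_of_full _ _ _, Or.inr ⟨hI, rfl⟩⟩

theorem relT2_uniq {c : BName B} {b₀ : B} (hW : AllWorld em c b₀) (α β : κ) {h : Ult B}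
    (hb : h.V b₀) {i j z z' : Mdl h}
    (h1 : RelT2 (E h) (Mdl.mk h (omN B)) (Mdl.mk h (ZN B)) (Mdl.mk h (addN B))
      (Mdl.mk h (zN 0)) (Mdl.mk h c) (Mdl.mk h (rl em α)) (Mdl.mk h (rl em β)) i j z)
    (h2 : RelT2 (E h) (Mdl.mk h (omN B)) (Mdl.mk h (ZN B)) (Mdl.mk h (addN B))
      (Mdl.mk h (zN 0)) (Mdl.mk h c) (Mdl.mk h (rl em α)) (Mdl.mk h (rl em β)) i j z') :
    z = z' := by
  have W := hW h hb
  rcases h1 with ⟨hI, h1⟩ | ⟨hI, h1⟩
  · rcases h2 with ⟨-, h2⟩ | ⟨hI', -⟩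
    · rw [relT_iff W (rl_star hW hb α) (rl_star hW hb β) hI.1 hI.2] at h1 h2
      rw [h1, h2]
    · exact absurd hI hI'
  · rcases h2 with ⟨hI', -⟩ | ⟨-, h2⟩
    · exact absurd hI' hI
    · rw [h1, h2]

theorem phi_disj {c : BName B} {b₀ : B} (hW : AllWorld em c b₀) (α β : κ) (i j : ℕ)
    (z z' : ℤ) (hz : z ≠ z') :
    b₀ ⊓ (PhiN em c α β i j z ⊓ PhiN em c α β i j z') = ⊥ := by
  by_contra hne
  obtain ⟨h, hh⟩ := Ult.exists_of_ne_bot hne
  rw [h.inf', h.inf', ← PhiN_iff, ← PhiN_iff] at hh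
  exact hz (zN_inj.1 (relT2_uniq hW α β hh.1 hh.2.1 hh.2.2))

theorem phi_coh (hem : DenseEmb em) {c : BName B} {b₀ : B} (hW : AllWorld em c b₀)
    (α β γ : κ) : b₀ ≤ ⨆ N : ℕ, cohS (fB em) (PhiN em c) α β γ N := by
  have h1 := exists_full (fun n : ℕ => vN n) (P := fun h N => ∀ i j, E h i (Mdl.mk h (omN B)) →
    LeN (E h) N i → InI (E h) (Mdl.mk h (omN B)) (Mdl.mk h (rl em α)) i j →
    InI (E h) (Mdl.mk h (omN B)) (Mdl.mk h (rl em β)) i j →
    InI (E h) (Mdl.mk h (omN B)) (Mdl.mk h (rl em γ)) i j → ∀ z₁ z₂ z₃,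
    RelT (E h) (Mdl.mk h (omN B)) (Mdl.mk h (ZN B)) (Mdl.mk h (addN B))
      (Mdl.mk h c) (Mdl.mk h (rl em α)) (Mdl.mk h (rl em β)) i j z₁ →
    RelT (E h) (Mdl.mk h (omN B)) (Mdl.mk h (ZN B)) (Mdl.mk h (addN B))
      (Mdl.mk h c) (Mdl.mk h (rl em β)) (Mdl.mk h (rl em γ)) i j z₂ →
    RelT (E h) (Mdl.mk h (omN B)) (Mdl.mk h (ZN B)) (Mdl.mk h (addN B))
      (Mdl.mk h c) (Mdl.mk h (rl em α)) (Mdl.mk h (rl em γ)) i j z₃ →
    Has (E h) (Mdl.mk h (addN B)) [z₁, z₂, z₃]) (b := b₀) (by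
    repeat' first
      | exact BMap.id
      | apply BMap.fst
      | apply BMap.snd
      | exact BTerm.const _
      | apply BTerm.of
      | apply bp_relT2
      | apply bp_isCocycle2
      | apply bp_isCochain2
      | apply bp_relC
      | apply bp_relP
      | apply bp_relT
      | apply bp_relB
      | apply bp_relA
      | apply bp_isMeet
      | apply bp_isPt
      | apply bp_inStar
      | apply bp_ptLe
      | apply bp_evLt
      | apply bp_evLe
      | apply bp_inI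
      | apply bp_leN
      | apply bp_isUPair
      | apply bp_isPair
      | apply bp_isFun
      | apply bp_has2
      | apply bp_has3
      | apply bp_has4
      | apply bp_has5
      | apply bp_has6
      | apply BPred.mem
      | apply BPred.eq
      | apply BPred.not
      | apply BPred.and
      | apply BPred.or
      | apply BPred.iff
      | apply BPred.imp
      | refine BPred.ex ?_
      | refine BPred.all ?_
    ) (by
    intro h hb
    have W := hW h hb
    have hα := rl_star hW hb α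
    have hβ := rl_star hW hb β
    have hγ := rl_star hW hb γ
    obtain ⟨N, hN, hco⟩ := th_coh W hα hβ hγ
    refine ⟨N, hN, fun i j hi hl h1 h2 h3 z₁ z₂ z₃ t1 t2 t3 => ?_⟩
    rw [relT_iff W hα hβ h1 h2] at t1
    rw [relT_iff W hβ hγ h2 h3] at t2
    rw [relT_iff W hα hγ h1 h3] at t3
    subst t1 t2 t3
    rw [has_add, hco i j hi hl h1 h2 h3])
  refine h1.trans (iSup_mono fun N => ?_)
  refine le_iInf fun i => le_iInf fun j => le_iInf fun z => ?_
  rw [Ult.le_iff]
  intro h hh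
  rw [h.compl', h.inf', h.inf', h.inf', h.inf', h.inf']
  rintro ⟨⟨⟨hi1, hi2⟩, hi3⟩, ⟨hz1, hz2⟩, hz3⟩
  rw [← inI_realN hem] at hi1 hi2 hi3
  rw [← PhiN_iff] at hz1 hz2 hz3
  have e1 : ∀ {α β : κ} {z : ℤ}, RelT2 (E h) (Mdl.mk h (omN B)) (Mdl.mk h (ZN B))
      (Mdl.mk h (addN B)) (Mdl.mk h (zN 0)) (Mdl.mk h c) (Mdl.mk h (rl em α))
      (Mdl.mk h (rl em β)) (Mdl.mk h (vN i.1)) (Mdl.mk h (vN j)) (Mdl.mk h (zN z)) →
      InI (E h) (Mdl.mk h (omN B)) (Mdl.mk h (rl em α)) (Mdl.mk h (vN i.1)) (Mdl.mk h (vN j)) →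
      InI (E h) (Mdl.mk h (omN B)) (Mdl.mk h (rl em β)) (Mdl.mk h (vN i.1)) (Mdl.mk h (vN j)) →
      RelT (E h) (Mdl.mk h (omN B)) (Mdl.mk h (ZN B))
      (Mdl.mk h (addN B)) (Mdl.mk h c) (Mdl.mk h (rl em α))
      (Mdl.mk h (rl em β)) (Mdl.mk h (vN i.1)) (Mdl.mk h (vN j)) (Mdl.mk h (zN z)) := by
    intro α β z h1 h2 h3
    rcases h1 with h1 | h1
    · exact h1.2
    · exact absurd ⟨h2, h3⟩ h1.1
  have h2 := (Clop.iff (BPred.clop (Γ := BName B) (P := fun h N => ∀ i j, E h i (Mdl.mk h (omN B)) →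
    LeN (E h) (Mdl.mk h N) i → InI (E h) (Mdl.mk h (omN B)) (Mdl.mk h (rl em α)) i j →
    InI (E h) (Mdl.mk h (omN B)) (Mdl.mk h (rl em β)) i j →
    InI (E h) (Mdl.mk h (omN B)) (Mdl.mk h (rl em γ)) i j → ∀ z₁ z₂ z₃,
    RelT (E h) (Mdl.mk h (omN B)) (Mdl.mk h (ZN B)) (Mdl.mk h (addN B))
      (Mdl.mk h c) (Mdl.mk h (rl em α)) (Mdl.mk h (rl em β)) i j z₁ →
    RelT (E h) (Mdl.mk h (omN B)) (Mdl.mk h (ZN B)) (Mdl.mk h (addN B))
      (Mdl.mk h c) (Mdl.mk h (rl em β)) (Mdl.mk h (rl em γ)) i j z₂ →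
    RelT (E h) (Mdl.mk h (omN B)) (Mdl.mk h (ZN B)) (Mdl.mk h (addN B))
      (Mdl.mk h c) (Mdl.mk h (rl em α)) (Mdl.mk h (rl em γ)) i j z₃ →
    Has (E h) (Mdl.mk h (addN B)) [z₁, z₂, z₃]) (by
    repeat' first
      | exact BMap.id
      | apply BMap.fst
      | apply BMap.snd
      | exact BTerm.const _
      | apply BTerm.of
      | apply bp_relT2
      | apply bp_isCocycle2
      | apply bp_isCochain2
      | apply bp_relC
      | apply bp_relP
      | apply bp_relT
      | apply bp_relB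
      | apply bp_relA
      | apply bp_isMeet
      | apply bp_isPt
      | apply bp_inStar
      | apply bp_ptLe
      | apply bp_evLt
      | apply bp_evLe
      | apply bp_inI
      | apply bp_leN
      | apply bp_isUPair
      | apply bp_isPair
      | apply bp_isFun
      | apply bp_has2
      | apply bp_has3
      | apply bp_has4
      | apply bp_has5
      | apply bp_has6
      | apply BPred.mem
      | apply BPred.eq
      | apply BPred.not
      | apply BPred.and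
      | apply BPred.or
      | apply BPred.iff
      | apply BPred.imp
      | refine BPred.ex ?_
      | refine BPred.all ?_
    ) (vN N)) h).2 hh
  have hle : LeN (E h) (Mdl.mk h (vN N)) (Mdl.mk h (vN i.1)) := by
    rcases Nat.lt_or_eq_of_le i.2 with h3 | h3
    · exact Or.inl (E_vN_vN.2 h3)
    · exact Or.inr (by rw [← h3])
  have h3 := h2 _ _ (E_vN_vNset i.1) hle hi1 hi2 hi3 _ _ _ (e1 hz1 hi1 hi2) (e1 hz2 hi2 hi3)
    (e1 hz3 hi1 hi3)
  rw [has_addN] at h3
  exact z.2 h3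

end main

end Pool.Agent.MP63050e
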