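import Pool.Agent.MP_63050e_lc.D7

/-! The trivialising set. -/

set_option linter.unusedVariables false
set_option linter.unusedSectionVars false
set_option linter.unreachableTactic false
set_option linter.unusedTactic false

namespace Pool.Agent.MP63050e

open BVM BName SetModel

universe v

section full

variable {B : Type} [CompleteBooleanAlgebra B]

theorem forall_full2 {ι1 ι2 : Type}
    (e1 : ι1 → BName B) (e2 : ι2 → BName B)
    {P : (h : Ult B) → Mdl h → Mdl h → Prop}
    (hP : ∀ (Γ : Type 1) [BSet B Γ] (f1 f2 : Γ → BName B),
      BTerm f1 → BTerm f2 →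
      BPred (fun h : Ult B => h) (fun h γ => P h (Mdl.mk h (f1 γ)) (Mdl.mk h (f2 γ))))
    (b : B) (H : ∀ h : Ult B, h.V b → ∀ i1 i2,
      P h (Mdl.mk h (e1 i1)) (Mdl.mk h (e2 i2))) :
    ∀ h : Ult B, h.V b → ∀ x1, E h x1 (Mdl.mk h (BName.mk ι1 e1 (fun _ => ⊤))) →
      ∀ x2, E h x2 (Mdl.mk h (BName.mk ι2 e2 (fun _ => ⊤))) →
      P h x1 x2 := by
  refine forall_full (P := fun h x1 => ∀ x2, E h x2 (Mdl.mk h (BName.mk ι2 e2 (fun _ => ⊤))) →
      P h x1 x2) e1 ?_ b ?_
  · repeat' first
      | apply bterm_opair
      | exact BMap.id
      | apply BMap.fst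
      | apply BMap.snd
      | exact BTerm.const _
      | apply BTerm.of
      | apply hP
      | apply bp_relT2
      | apply bp_isCocycle2
      | apply bp_isCochain2
      | apply bp_relC
      | apply bp_relP
      | apply bp_relT
      | apply bp_relB
      | apply bp_relA
      | apply bp_isMeet
      | apply bp_isPt
      | apply bp_inStar
      | apply bp_ptLe
      | apply bp_evLt
      | apply bp_evLe
      | apply bp_inI
      | apply bp_leN
      | apply bp_isUPair
      | apply bp_isPair
      | apply bp_isFun
      | apply bp_has2
      | apply bp_has3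
      | apply bp_has4
      | apply bp_has5
      | apply bp_has6
      | apply bterm_opair
      | apply BPred.mem
      | apply BPred.eq
      | apply BPred.not
      | apply BPred.and
      | apply BPred.or
      | apply BPred.iff
      | apply BPred.imp
      | refine BPred.ex ?_
      | refine BPred.all ?_
  · intro h hb i1
    refine forall_full (P := fun h x2 => P h (Mdl.mk h (e1 i1)) x2) e2 ?_ b ?_ h hb
    · repeat' first
        | apply bterm_opair
        | exact BMap.id
        | apply BMap.fst
        | apply BMap.snd
        | exact BTerm.const _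
        | apply BTerm.of
        | apply hP
        | apply bp_relT2
        | apply bp_isCocycle2
        | apply bp_isCochain2
        | apply bp_relC
        | apply bp_relP
        | apply bp_relT
        | apply bp_relB
        | apply bp_relA
        | apply bp_isMeet
        | apply bp_isPt
        | apply bp_inStar
        | apply bp_ptLe
        | apply bp_evLt
        | apply bp_evLe
        | apply bp_inI
        | apply bp_leN
        | apply bp_isUPair
        | apply bp_isPair
        | apply bp_isFun
        | apply bp_has2
        | apply bp_has3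
        | apply bp_has4
        | apply bp_has5
        | apply bp_has6
        | apply bterm_opair
        | apply BPred.mem
        | apply BPred.eq
        | apply BPred.not
        | apply BPred.and
        | apply BPred.or
        | apply BPred.iff
        | apply BPred.imp
        | refine BPred.ex ?_
        | refine BPred.all ?_
    · clear hb h
      intro h hb i2
      exact H h hb i1 i2

theorem forall_full3 {ι1 ι2 ι3 : Type}
    (e1 : ι1 → BName B) (e2 : ι2 → BName B) (e3 : ι3 → BName B)
    {P : (h : Ult B) → Mdl h → Mdl h → Mdl h → Prop}
    (hP : ∀ (Γ : Type 1) [BSet B Γ] (f1 f2 f3 : Γ → BName B),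
      BTerm f1 → BTerm f2 → BTerm f3 →
      BPred (fun h : Ult B => h) (fun h γ => P h (Mdl.mk h (f1 γ)) (Mdl.mk h (f2 γ)) (Mdl.mk h (f3 γ))))
    (b : B) (H : ∀ h : Ult B, h.V b → ∀ i1 i2 i3,
      P h (Mdl.mk h (e1 i1)) (Mdl.mk h (e2 i2)) (Mdl.mk h (e3 i3))) :
    ∀ h : Ult B, h.V b → ∀ x1, E h x1 (Mdl.mk h (BName.mk ι1 e1 (fun _ => ⊤))) →
      ∀ x2, E h x2 (Mdl.mk h (BName.mk ι2 e2 (fun _ => ⊤))) →
      ∀ x3, E h x3 (Mdl.mk h (BName.mk ι3 e3 (fun _ => ⊤))) →
      P h x1 x2 x3 := by
  refine forall_full (P := fun h x1 => ∀ x2, E h x2 (Mdl.mk h (BName.mk ι2 e2 (fun _ => ⊤))) →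
      ∀ x3, E h x3 (Mdl.mk h (BName.mk ι3 e3 (fun _ => ⊤))) →
      P h x1 x2 x3) e1 ?_ b ?_
  · repeat' first
      | apply bterm_opair
      | exact BMap.id
      | apply BMap.fst
      | apply BMap.snd
      | exact BTerm.const _
      | apply BTerm.of
      | apply hP
      | apply bp_relT2
      | apply bp_isCocycle2
      | apply bp_isCochain2
      | apply bp_relC
      | apply bp_relP
      | apply bp_relT
      | apply bp_relB
      | apply bp_relA
      | apply bp_isMeet
      | apply bp_isPt
      | apply bp_inStar
      | apply bp_ptLe
      | apply bp_evLt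
      | apply bp_evLe
      | apply bp_inI
      | apply bp_leN
      | apply bp_isUPair
      | apply bp_isPair
      | apply bp_isFun
      | apply bp_has2
      | apply bp_has3
      | apply bp_has4
      | apply bp_has5
      | apply bp_has6
      | apply bterm_opair
      | apply BPred.mem
      | apply BPred.eq
      | apply BPred.not
      | apply BPred.and
      | apply BPred.or
      | apply BPred.iff
      | apply BPred.imp
      | refine BPred.ex ?_
      | refine BPred.all ?_
  · intro h hb i1
    refine forall_full (P := fun h x2 => ∀ x3, E h x3 (Mdl.mk h (BName.mk ι3 e3 (fun _ => ⊤))) →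
        P h (Mdl.mk h (e1 i1)) x2 x3) e2 ?_ b ?_ h hb
    · repeat' first
        | apply bterm_opair
        | exact BMap.id
        | apply BMap.fst
        | apply BMap.snd
        | exact BTerm.const _
        | apply BTerm.of
        | apply hP
        | apply bp_relT2
        | apply bp_isCocycle2
        | apply bp_isCochain2
        | apply bp_relC
        | apply bp_relP
        | apply bp_relT
        | apply bp_relB
        | apply bp_relA
        | apply bp_isMeet
        | apply bp_isPt
        | apply bp_inStar
        | apply bp_ptLe
        | apply bp_evLt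
        | apply bp_evLe
        | apply bp_inI
        | apply bp_leN
        | apply bp_isUPair
        | apply bp_isPair
        | apply bp_isFun
        | apply bp_has2
        | apply bp_has3
        | apply bp_has4
        | apply bp_has5
        | apply bp_has6
        | apply bterm_opair
        | apply BPred.mem
        | apply BPred.eq
        | apply BPred.not
        | apply BPred.and
        | apply BPred.or
        | apply BPred.iff
        | apply BPred.imp
        | refine BPred.ex ?_
        | refine BPred.all ?_
    · clear hb h
      intro h hb i2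
      refine forall_full (P := fun h x3 => P h (Mdl.mk h (e1 i1)) (Mdl.mk h (e2 i2)) x3) e3 ?_ b ?_ h hb
      · repeat' first
          | apply bterm_opair
          | exact BMap.id
          | apply BMap.fst
          | apply BMap.snd
          | exact BTerm.const _
          | apply BTerm.of
          | apply hP
          | apply bp_relT2
          | apply bp_isCocycle2
          | apply bp_isCochain2
          | apply bp_relC
          | apply bp_relP
          | apply bp_relT
          | apply bp_relB
          | apply bp_relA
          | apply bp_isMeet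
          | apply bp_isPt
          | apply bp_inStar
          | apply bp_ptLe
          | apply bp_evLt
          | apply bp_evLe
          | apply bp_inI
          | apply bp_leN
          | apply bp_isUPair
          | apply bp_isPair
          | apply bp_isFun
          | apply bp_has2
          | apply bp_has3
          | apply bp_has4
          | apply bp_has5
          | apply bp_has6
          | apply bterm_opair
          | apply BPred.mem
          | apply BPred.eq
          | apply BPred.not
          | apply BPred.and
          | apply BPred.or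
          | apply BPred.iff
          | apply BPred.imp
          | refine BPred.ex ?_
          | refine BPred.all ?_
      · clear hb h
        intro h hb i3
        exact H h hb i1 i2 i3

theorem forall_full5 {ι1 ι2 ι3 ι4 ι5 : Type}
    (e1 : ι1 → BName B) (e2 : ι2 → BName B) (e3 : ι3 → BName B) (e4 : ι4 → BName B) (e5 : ι5 → BName B)
    {P : (h : Ult B) → Mdl h → Mdl h → Mdl h → Mdl h → Mdl h → Prop}
    (hP : ∀ (Γ : Type 1) [BSet B Γ] (f1 f2 f3 f4 f5 : Γ → BName B),
      BTerm f1 → BTerm f2 → BTerm f3 → BTerm f4 → BTerm f5 →
      BPred (fun h : Ult B => h) (fun h γ => P h (Mdl.mk h (f1 γ)) (Mdl.mk h (f2 γ)) (Mdl.mk h (f3 γ)) (Mdl.mk h (f4 γ)) (Mdl.mk h (f5 γ))))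
    (b : B) (H : ∀ h : Ult B, h.V b → ∀ i1 i2 i3 i4 i5,
      P h (Mdl.mk h (e1 i1)) (Mdl.mk h (e2 i2)) (Mdl.mk h (e3 i3)) (Mdl.mk h (e4 i4)) (Mdl.mk h (e5 i5))) :
    ∀ h : Ult B, h.V b → ∀ x1, E h x1 (Mdl.mk h (BName.mk ι1 e1 (fun _ => ⊤))) →
      ∀ x2, E h x2 (Mdl.mk h (BName.mk ι2 e2 (fun _ => ⊤))) →
      ∀ x3, E h x3 (Mdl.mk h (BName.mk ι3 e3 (fun _ => ⊤))) →
      ∀ x4, E h x4 (Mdl.mk h (BName.mk ι4 e4 (fun _ => ⊤))) →
      ∀ x5, E h x5 (Mdl.mk h (BName.mk ι5 e5 (fun _ => ⊤))) →
      P h x1 x2 x3 x4 x5 := by
  refine forall_full (P := fun h x1 => ∀ x2, E h x2 (Mdl.mk h (BName.mk ι2 e2 (fun _ => ⊤))) →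
      ∀ x3, E h x3 (Mdl.mk h (BName.mk ι3 e3 (fun _ => ⊤))) →
      ∀ x4, E h x4 (Mdl.mk h (BName.mk ι4 e4 (fun _ => ⊤))) →
      ∀ x5, E h x5 (Mdl.mk h (BName.mk ι5 e5 (fun _ => ⊤))) →
      P h x1 x2 x3 x4 x5) e1 ?_ b ?_
  · repeat' first
      | apply bterm_opair
      | exact BMap.id
      | apply BMap.fst
      | apply BMap.snd
      | exact BTerm.const _
      | apply BTerm.of
      | apply hP
      | apply bp_relT2
      | apply bp_isCocycle2
      | apply bp_isCochain2
      | apply bp_relC
      | apply bp_relP
      | apply bp_relT
      | apply bp_relB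
      | apply bp_relA
      | apply bp_isMeet
      | apply bp_isPt
      | apply bp_inStar
      | apply bp_ptLe
      | apply bp_evLt
      | apply bp_evLe
      | apply bp_inI
      | apply bp_leN
      | apply bp_isUPair
      | apply bp_isPair
      | apply bp_isFun
      | apply bp_has2
      | apply bp_has3
      | apply bp_has4
      | apply bp_has5
      | apply bp_has6
      | apply bterm_opair
      | apply BPred.mem
      | apply BPred.eq
      | apply BPred.not
      | apply BPred.and
      | apply BPred.or
      | apply BPred.iff
      | apply BPred.imp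
      | refine BPred.ex ?_
      | refine BPred.all ?_
  · intro h hb i1
    refine forall_full (P := fun h x2 => ∀ x3, E h x3 (Mdl.mk h (BName.mk ι3 e3 (fun _ => ⊤))) →
        ∀ x4, E h x4 (Mdl.mk h (BName.mk ι4 e4 (fun _ => ⊤))) →
        ∀ x5, E h x5 (Mdl.mk h (BName.mk ι5 e5 (fun _ => ⊤))) →
        P h (Mdl.mk h (e1 i1)) x2 x3 x4 x5) e2 ?_ b ?_ h hb
    · repeat' first
        | apply bterm_opair
        | exact BMap.id
        | apply BMap.fst
        | apply BMap.snd
        | exact BTerm.const _
        | apply BTerm.of
        | apply hP
        | apply bp_relT2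
        | apply bp_isCocycle2
        | apply bp_isCochain2
        | apply bp_relC
        | apply bp_relP
        | apply bp_relT
        | apply bp_relB
        | apply bp_relA
        | apply bp_isMeet
        | apply bp_isPt
        | apply bp_inStar
        | apply bp_ptLe
        | apply bp_evLt
        | apply bp_evLe
        | apply bp_inI
        | apply bp_leN
        | apply bp_isUPair
        | apply bp_isPair
        | apply bp_isFun
        | apply bp_has2
        | apply bp_has3
        | apply bp_has4
        | apply bp_has5
        | apply bp_has6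
        | apply bterm_opair
        | apply BPred.mem
        | apply BPred.eq
        | apply BPred.not
        | apply BPred.and
        | apply BPred.or
        | apply BPred.iff
        | apply BPred.imp
        | refine BPred.ex ?_
        | refine BPred.all ?_
    · clear hb h
      intro h hb i2
      refine forall_full (P := fun h x3 => ∀ x4, E h x4 (Mdl.mk h (BName.mk ι4 e4 (fun _ => ⊤))) →
          ∀ x5, E h x5 (Mdl.mk h (BName.mk ι5 e5 (fun _ => ⊤))) →
          P h (Mdl.mk h (e1 i1)) (Mdl.mk h (e2 i2)) x3 x4 x5) e3 ?_ b ?_ h hb
      · repeat' first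
          | apply bterm_opair
          | exact BMap.id
          | apply BMap.fst
          | apply BMap.snd
          | exact BTerm.const _
          | apply BTerm.of
          | apply hP
          | apply bp_relT2
          | apply bp_isCocycle2
          | apply bp_isCochain2
          | apply bp_relC
          | apply bp_relP
          | apply bp_relT
          | apply bp_relB
          | apply bp_relA
          | apply bp_isMeet
          | apply bp_isPt
          | apply bp_inStar
          | apply bp_ptLe
          | apply bp_evLt
          | apply bp_evLe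
          | apply bp_inI
          | apply bp_leN
          | apply bp_isUPair
          | apply bp_isPair
          | apply bp_isFun
          | apply bp_has2
          | apply bp_has3
          | apply bp_has4
          | apply bp_has5
          | apply bp_has6
          | apply bterm_opair
          | apply BPred.mem
          | apply BPred.eq
          | apply BPred.not
          | apply BPred.and
          | apply BPred.or
          | apply BPred.iff
          | apply BPred.imp
          | refine BPred.ex ?_
          | refine BPred.all ?_
      · clear hb h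
        intro h hb i3
        refine forall_full (P := fun h x4 => ∀ x5, E h x5 (Mdl.mk h (BName.mk ι5 e5 (fun _ => ⊤))) →
            P h (Mdl.mk h (e1 i1)) (Mdl.mk h (e2 i2)) (Mdl.mk h (e3 i3)) x4 x5) e4 ?_ b ?_ h hb
        · repeat' first
            | apply bterm_opair
            | exact BMap.id
            | apply BMap.fst
            | apply BMap.snd
            | exact BTerm.const _
            | apply BTerm.of
            | apply hP
            | apply bp_relT2
            | apply bp_isCocycle2
            | apply bp_isCochain2
            | apply bp_relC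
            | apply bp_relP
            | apply bp_relT
            | apply bp_relB
            | apply bp_relA
            | apply bp_isMeet
            | apply bp_isPt
            | apply bp_inStar
            | apply bp_ptLe
            | apply bp_evLt
            | apply bp_evLe
            | apply bp_inI
            | apply bp_leN
            | apply bp_isUPair
            | apply bp_isPair
            | apply bp_isFun
            | apply bp_has2
            | apply bp_has3
            | apply bp_has4
            | apply bp_has5
            | apply bp_has6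
            | apply bterm_opair
            | apply BPred.mem
            | apply BPred.eq
            | apply BPred.not
            | apply BPred.and
            | apply BPred.or
            | apply BPred.iff
            | apply BPred.imp
            | refine BPred.ex ?_
            | refine BPred.all ?_
        · clear hb h
          intro h hb i4
          refine forall_full (P := fun h x5 => P h (Mdl.mk h (e1 i1)) (Mdl.mk h (e2 i2)) (Mdl.mk h (e3 i3)) (Mdl.mk h (e4 i4)) x5) e5 ?_ b ?_ h hb
          · repeat' first
              | apply bterm_opair
              | exact BMap.id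
              | apply BMap.fst
              | apply BMap.snd
              | exact BTerm.const _
              | apply BTerm.of
              | apply hP
              | apply bp_relT2
              | apply bp_isCocycle2
              | apply bp_isCochain2
              | apply bp_relC
              | apply bp_relP
              | apply bp_relT
              | apply bp_relB
              | apply bp_relA
              | apply bp_isMeet
              | apply bp_isPt
              | apply bp_inStar
              | apply bp_ptLe
              | apply bp_evLt
              | apply bp_evLe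
              | apply bp_inI
              | apply bp_leN
              | apply bp_isUPair
              | apply bp_isPair
              | apply bp_isFun
              | apply bp_has2
              | apply bp_has3
              | apply bp_has4
              | apply bp_has5
              | apply bp_has6
              | apply bterm_opair
              | apply BPred.mem
              | apply BPred.eq
              | apply BPred.not
              | apply BPred.and
              | apply BPred.or
              | apply BPred.iff
              | apply BPred.imp
              | refine BPred.ex ?_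
              | refine BPred.all ?_
          · clear hb h
            intro h hb i5
            exact H h hb i1 i2 i3 i4 i5


end full

section psi

variable {κ : Type} [LinearOrder κ] [WellFoundedLT κ] {B : Type} [CompleteBooleanAlgebra B]
  {em : PP κ → B}

/-- The tuples of the name of `Ψ`. -/
noncomputable def tPsi (B : Type) [CompleteBooleanAlgebra B] (p : κ × ℕ × ℕ × ℤ) : BName B :=
  opair (vN p.1) (opair (vN p.2.1) (opair (vN p.2.2.1) (zN p.2.2.2)))

/-- The name of `Ψ`. -/
noncomputable def psiN (Ψ : κ → ℕ → ℕ → ℤ → B) : BName B :=
  BName.mk (κ × ℕ × ℕ × ℤ) (tPsi B) (fun p => Ψ p.1 p.2.1 p.2.2.1 p.2.2.2)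

theorem tPsi_inj (x y : κ × ℕ × ℕ × ℤ) (hxy : x ≠ y) : beq (tPsi B x) (tPsi B y) = ⊥ := by
  by_contra hne
  obtain ⟨h, hh⟩ := Ult.exists_of_ne_bot hne
  unfold tPsi at hh
  rw [beq_opair, beq_opair, beq_opair, h.inf', h.inf', h.inf', ← Mdl.mk_eq, ← Mdl.mk_eq,
    ← Mdl.mk_eq, ← Mdl.mk_eq, vN_inj, vN_inj, vN_inj, zN_inj] at hh
  exact hxy (Prod.ext hh.1 (Prod.ext hh.2.1 (Prod.ext hh.2.2.1 hh.2.2.2)))

theorem has_psiN (Ψ : κ → ℕ → ℕ → ℤ → B) (h : Ult B) (α : κ) (i j : ℕ) (z : ℤ) :
    Has (E h) (Mdl.mk h (psiN Ψ)) [Mdl.mk h (vN α), Mdl.mk h (vN i), Mdl.mk h (vN j),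
      Mdl.mk h (zN z)] ↔ h.V (Ψ α i j z) := by
  rw [has_iff (by simp)]
  change h.V (bmem (tPsi B (α, i, j, z)) (psiN Ψ)) ↔ _
  rw [psiN, bmem_inj tPsi_inj]

theorem psiN_mem (Ψ : κ → ℕ → ℕ → ℤ → B) (h : Ult B) (a i j z : Mdl h)
    (H : Has (E h) (Mdl.mk h (psiN Ψ)) [a, i, j, z]) : E h z (Mdl.mk h (ZN B)) := by
  rw [has_iff (by simp)] at H
  refine forall_full (P := fun h t => ∀ a i j z, t = pr h a (pr h i (pr h j z)) →
    E h z (Mdl.mk h (ZN B))) (tPsi B (κ := κ)) ?_ ⊤ ?_ h h.top' _ (E_full_of H) a i j z rfl
  · refine BPred.all (BPred.all (BPred.all (BPred.all (BPred.imp ?_ ?_))))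
    · refine (BPred.eq (f := fun p => p.1.1.1.1) (g := fun p => opair p.1.1.1.2
        (opair p.1.1.2 (opair p.1.2 p.2))) ?_ ?_).congr fun h p => Iff.rfl
      · repeat' first
          | apply bterm_opair
          | exact BMap.id
          | apply BMap.fst
          | apply BMap.snd
          | exact BTerm.const _
          | apply BTerm.of
          | apply bp_relT2
          | apply bp_isCocycle2
          | apply bp_isCochain2
          | apply bp_relC
          | apply bp_relP
          | apply bp_relT
          | apply bp_relB
          | apply bp_relA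
          | apply bp_isMeet
          | apply bp_isPt
          | apply bp_inStar
          | apply bp_ptLe
          | apply bp_evLt
          | apply bp_evLe
          | apply bp_inI
          | apply bp_leN
          | apply bp_isUPair
          | apply bp_isPair
          | apply bp_isFun
          | apply bp_has2
          | apply bp_has3
          | apply bp_has4
          | apply bp_has5
          | apply bp_has6
          | apply bterm_opair
          | apply BPred.mem
          | apply BPred.eq
          | apply BPred.not
          | apply BPred.and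
          | apply BPred.or
          | apply BPred.iff
          | apply BPred.imp
          | refine BPred.ex ?_
          | refine BPred.all ?_
      · repeat' first
          | apply bterm_opair
          | exact BMap.id
          | apply BMap.fst
          | apply BMap.snd
          | exact BTerm.const _
          | apply BTerm.of
          | apply bp_relT2
          | apply bp_isCocycle2
          | apply bp_isCochain2
          | apply bp_relC
          | apply bp_relP
          | apply bp_relT
          | apply bp_relB
          | apply bp_relA
          | apply bp_isMeet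
          | apply bp_isPt
          | apply bp_inStar
          | apply bp_ptLe
          | apply bp_evLt
          | apply bp_evLe
          | apply bp_inI
          | apply bp_leN
          | apply bp_isUPair
          | apply bp_isPair
          | apply bp_isFun
          | apply bp_has2
          | apply bp_has3
          | apply bp_has4
          | apply bp_has5
          | apply bp_has6
          | apply bterm_opair
          | apply BPred.mem
          | apply BPred.eq
          | apply BPred.not
          | apply BPred.and
          | apply BPred.or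
          | apply BPred.iff
          | apply BPred.imp
          | refine BPred.ex ?_
          | refine BPred.all ?_
    · exact BPred.mem BTerm.snd (BTerm.const _)
  · intro h' _ p a i j z hp
    unfold tPsi at hp
    rw [← pr_mk, ← pr_mk, ← pr_mk, pr_inj, pr_inj, pr_inj] at hp
    rw [← hp.2.2.2]
    exact E_of_full _ _ _

theorem psiN_val {Ψ : κ → ℕ → ℕ → ℤ → B} (hpart : ∀ α i j, IsPart (Ψ α i j)) (h : Ult B)
    (a i j : Mdl h) (ha : E h a (Mdl.mk h (vNset B κ))) (hi : E h i (Mdl.mk h (omN B)))
    (hj : E h j (Mdl.mk h (omN B))) : ∃ z, E h z (Mdl.mk h (ZN B)) ∧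
      ∀ z', Has (E h) (Mdl.mk h (psiN Ψ)) [a, i, j, z'] ↔ z' = z := by
  refine forall_full3 (B := B) (fun α : κ => vN α) (fun n : ℕ => vN n) (fun n : ℕ => vN n)
    (P := fun h a i j => ∃ z, E h z (Mdl.mk h (ZN B)) ∧
      ∀ z', Has (E h) (Mdl.mk h (psiN Ψ)) [a, i, j, z'] ↔ z' = z) ?_ ⊤ ?_ h h.top' a ha i hi j hj
  · intro Γ _ f1 f2 f3 h1 h2 h3
    repeat' first
      | apply bterm_opair
      | exact BMap.id
      | apply BMap.fst
      | apply BMap.snd
      | apply BTerm.cmp h1
      | apply BTerm.cmp h2
      | apply BTerm.cmp h3
      | exact BTerm.const _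
      | apply BTerm.of
      | apply bp_relT2
      | apply bp_isCocycle2
      | apply bp_isCochain2
      | apply bp_relC
      | apply bp_relP
      | apply bp_relT
      | apply bp_relB
      | apply bp_relA
      | apply bp_isMeet
      | apply bp_isPt
      | apply bp_inStar
      | apply bp_ptLe
      | apply bp_evLt
      | apply bp_evLe
      | apply bp_inI
      | apply bp_leN
      | apply bp_isUPair
      | apply bp_isPair
      | apply bp_isFun
      | apply bp_has2
      | apply bp_has3
      | apply bp_has4
      | apply bp_has5
      | apply bp_has6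
      | apply bterm_opair
      | apply BPred.mem
      | apply BPred.eq
      | apply BPred.not
      | apply BPred.and
      | apply BPred.or
      | apply BPred.iff
      | apply BPred.imp
      | refine BPred.ex ?_
      | refine BPred.all ?_
  · intro h _ α i j
    refine exists_of_iSup (zN (B := B)) (Ψ α i j) (P := fun h z => ∀ z', Has (E h)
      (Mdl.mk h (psiN Ψ)) [Mdl.mk h (vN α), Mdl.mk h (vN i), Mdl.mk h (vN j), z'] ↔ z' = z)
      ?_ (b := ⊤) ?_ h.top' ?_
    · repeat' first
        | apply bterm_opair
        | exact BMap.id
        | apply BMap.fst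
        | apply BMap.snd
        | exact BTerm.const _
        | apply BTerm.of
        | apply bp_relT2
        | apply bp_isCocycle2
        | apply bp_isCochain2
        | apply bp_relC
        | apply bp_relP
        | apply bp_relT
        | apply bp_relB
        | apply bp_relA
        | apply bp_isMeet
        | apply bp_isPt
        | apply bp_inStar
        | apply bp_ptLe
        | apply bp_evLt
        | apply bp_evLe
        | apply bp_inI
        | apply bp_leN
        | apply bp_isUPair
        | apply bp_isPair
        | apply bp_isFun
        | apply bp_has2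
        | apply bp_has3
        | apply bp_has4
        | apply bp_has5
        | apply bp_has6
        | apply bterm_opair
        | apply BPred.mem
        | apply BPred.eq
        | apply BPred.not
        | apply BPred.and
        | apply BPred.or
        | apply BPred.iff
        | apply BPred.imp
        | refine BPred.ex ?_
        | refine BPred.all ?_
    · intro h _ z hz z'
      constructor
      · intro hz'
        refine forall_full (P := fun h z' => Has (E h) (Mdl.mk h (psiN Ψ))
          [Mdl.mk h (vN α), Mdl.mk h (vN i), Mdl.mk h (vN j), z'] → z' = Mdl.mk h (zN z))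
          (zN (B := B)) ?_ (Ψ α i j z) ?_ h hz z' (psiN_mem Ψ h _ _ _ _ hz') hz'
        · repeat' first
            | apply bterm_opair
            | exact BMap.id
            | apply BMap.fst
            | apply BMap.snd
            | exact BTerm.const _
            | apply BTerm.of
            | apply bp_relT2
            | apply bp_isCocycle2
            | apply bp_isCochain2
            | apply bp_relC
            | apply bp_relP
            | apply bp_relT
            | apply bp_relB
            | apply bp_relA
            | apply bp_isMeet
            | apply bp_isPt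
            | apply bp_inStar
            | apply bp_ptLe
            | apply bp_evLt
            | apply bp_evLe
            | apply bp_inI
            | apply bp_leN
            | apply bp_isUPair
            | apply bp_isPair
            | apply bp_isFun
            | apply bp_has2
            | apply bp_has3
            | apply bp_has4
            | apply bp_has5
            | apply bp_has6
            | apply bterm_opair
            | apply BPred.mem
            | apply BPred.eq
            | apply BPred.not
            | apply BPred.and
            | apply BPred.or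
            | apply BPred.iff
            | apply BPred.imp
            | refine BPred.ex ?_
            | refine BPred.all ?_
        · intro h hz z' hz'
          rw [has_psiN] at hz'
          by_cases hzz : z' = z
          · rw [hzz]
          · exfalso
            have := ((hpart α i j).2 hzz).le_bot
            exact h.bot (h.mono this ((h.inf' _ _).2 ⟨hz', hz⟩))
      · rintro rfl
        rw [has_psiN]
        exact hz
    · have := (hpart α i j).1
      rw [this]
      exact h.top'

theorem psi_ev {c : BName B} {b₀ : B} (hem : DenseEmb em)
    {Ψ : κ → ℕ → ℕ → ℤ → B} {α β : κ}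
    (htriv : b₀ ≤ ⨆ N : ℕ, trivS (fB em) (PhiN em c) Ψ α β N) {h : Ult B} (hb : h.V b₀) :
    ∃ N, E h N (Mdl.mk h (omN B)) ∧ ∀ i, E h i (Mdl.mk h (omN B)) →
      ∀ j, E h j (Mdl.mk h (omN B)) → ∀ z₁, E h z₁ (Mdl.mk h (ZN B)) →
      ∀ z₂, E h z₂ (Mdl.mk h (ZN B)) → ∀ z₃, E h z₃ (Mdl.mk h (ZN B)) → LeN (E h) N i →
      InI (E h) (Mdl.mk h (omN B)) (Mdl.mk h (rl em α)) i j →
      InI (E h) (Mdl.mk h (omN B)) (Mdl.mk h (rl em β)) i j →
      Has (E h) (Mdl.mk h (psiN Ψ)) [Mdl.mk h (vN α), i, j, z₁] →
      Has (E h) (Mdl.mk h (psiN Ψ)) [Mdl.mk h (vN β), i, j, z₂] →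
      RelT (E h) (Mdl.mk h (omN B)) (Mdl.mk h (ZN B)) (Mdl.mk h (addN B))
        (Mdl.mk h c) (Mdl.mk h (rl em α)) (Mdl.mk h (rl em β)) i j z₃ →
      Has (E h) (Mdl.mk h (addN B)) [z₁, z₃, z₂] := by
  refine exists_of_iSup (fun n : ℕ => vN (B := B) n)
    (fun N => trivS (fB em) (PhiN em c) Ψ α β N)
    (P := fun h N => ∀ i, E h i (Mdl.mk h (omN B)) →
      ∀ j, E h j (Mdl.mk h (omN B)) → ∀ z₁, E h z₁ (Mdl.mk h (ZN B)) →
      ∀ z₂, E h z₂ (Mdl.mk h (ZN B)) → ∀ z₃, E h z₃ (Mdl.mk h (ZN B)) → LeN (E h) N i →
      InI (E h) (Mdl.mk h (omN B)) (Mdl.mk h (rl em α)) i j →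
      InI (E h) (Mdl.mk h (omN B)) (Mdl.mk h (rl em β)) i j →
      Has (E h) (Mdl.mk h (psiN Ψ)) [Mdl.mk h (vN α), i, j, z₁] →
      Has (E h) (Mdl.mk h (psiN Ψ)) [Mdl.mk h (vN β), i, j, z₂] →
      RelT (E h) (Mdl.mk h (omN B)) (Mdl.mk h (ZN B)) (Mdl.mk h (addN B))
        (Mdl.mk h c) (Mdl.mk h (rl em α)) (Mdl.mk h (rl em β)) i j z₃ →
      Has (E h) (Mdl.mk h (addN B)) [z₁, z₃, z₂]) ?_ (b := b₀) ?_ hb (h.mono htriv hb)
  · repeat' first
      | apply bterm_opair
      | exact BMap.id
      | apply BMap.fst
      | apply BMap.snd
      | exact BTerm.const _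
      | apply BTerm.of
      | apply bp_relT2
      | apply bp_isCocycle2
      | apply bp_isCochain2
      | apply bp_relC
      | apply bp_relP
      | apply bp_relT
      | apply bp_relB
      | apply bp_relA
      | apply bp_isMeet
      | apply bp_isPt
      | apply bp_inStar
      | apply bp_ptLe
      | apply bp_evLt
      | apply bp_evLe
      | apply bp_inI
      | apply bp_leN
      | apply bp_isUPair
      | apply bp_isPair
      | apply bp_isFun
      | apply bp_has2
      | apply bp_has3
      | apply bp_has4
      | apply bp_has5
      | apply bp_has6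
      | apply bterm_opair
      | apply BPred.mem
      | apply BPred.eq
      | apply BPred.not
      | apply BPred.and
      | apply BPred.or
      | apply BPred.iff
      | apply BPred.imp
      | refine BPred.ex ?_
      | refine BPred.all ?_
  · intro h hb N hN
    refine forall_full5 (B := B) (fun n : ℕ => vN n) (fun n : ℕ => vN n) (fun z : ℤ => zN z)
      (fun z : ℤ => zN z) (fun z : ℤ => zN z)
      (P := fun h i j z₁ z₂ z₃ => LeN (E h) (Mdl.mk h (vN N)) i →
      InI (E h) (Mdl.mk h (omN B)) (Mdl.mk h (rl em α)) i j →
      InI (E h) (Mdl.mk h (omN B)) (Mdl.mk h (rl em β)) i j →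
      Has (E h) (Mdl.mk h (psiN Ψ)) [Mdl.mk h (vN α), i, j, z₁] →
      Has (E h) (Mdl.mk h (psiN Ψ)) [Mdl.mk h (vN β), i, j, z₂] →
      RelT (E h) (Mdl.mk h (omN B)) (Mdl.mk h (ZN B)) (Mdl.mk h (addN B))
        (Mdl.mk h c) (Mdl.mk h (rl em α)) (Mdl.mk h (rl em β)) i j z₃ →
      Has (E h) (Mdl.mk h (addN B)) [z₁, z₃, z₂]) ?_ (trivS (fB em) (PhiN em c) Ψ α β N) ?_
      h hN
    · intro Γ _ f1 f2 f3 f4 f5 h1 h2 h3 h4 h5
      repeat' first
        | apply bterm_opair
        | exact BMap.id
        | apply BMap.fst
        | apply BMap.snd
        | apply BTerm.cmp h1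
        | apply BTerm.cmp h2
        | apply BTerm.cmp h3
        | apply BTerm.cmp h4
        | apply BTerm.cmp h5
        | exact BTerm.const _
        | apply BTerm.of
        | apply bp_relT2
        | apply bp_isCocycle2
        | apply bp_isCochain2
        | apply bp_relC
        | apply bp_relP
        | apply bp_relT
        | apply bp_relB
        | apply bp_relA
        | apply bp_isMeet
        | apply bp_isPt
        | apply bp_inStar
        | apply bp_ptLe
        | apply bp_evLt
        | apply bp_evLe
        | apply bp_inI
        | apply bp_leN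
        | apply bp_isUPair
        | apply bp_isPair
        | apply bp_isFun
        | apply bp_has2
        | apply bp_has3
        | apply bp_has4
        | apply bp_has5
        | apply bp_has6
        | apply bterm_opair
        | apply BPred.mem
        | apply BPred.eq
        | apply BPred.not
        | apply BPred.and
        | apply BPred.or
        | apply BPred.iff
        | apply BPred.imp
        | refine BPred.ex ?_
        | refine BPred.all ?_
    · intro h hN i j z₁ z₂ z₃ hle hi1 hi2 hp1 hp2 ht
      have hle' : N ≤ i := by
        rcases hle with h1 | h1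
        · exact (E_vN_vN.1 h1).le
        · exact (vN_inj.1 h1).le
      rw [has_psiN] at hp1 hp2
      have ht2 := (PhiN_iff (em := em) c α β i j z₃ h).1 (Or.inl ⟨⟨hi1, hi2⟩, ht⟩)
      rw [inI_realN hem] at hi1 hi2
      rw [has_addN]
      by_contra hne
      have hne' : z₂ - z₁ ≠ z₃ := fun h1 => hne (by rw [← h1]; abel)
      have h1 : trivS (fB em) (PhiN em c) Ψ α β N ≤ ((fgt (fB em) α i j ⊓ fgt (fB em) β i j) ⊓
          (Ψ α i j z₁ ⊓ Ψ β i j z₂ ⊓ PhiN em c α β i j z₃))ᶜ := by
        unfold trivS
        exact (iInf_le _ (⟨i, hle'⟩ : {i : ℕ // N ≤ i})).trans ((iInf_le _ j).trans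
          (iInf_le _ (⟨(z₁, z₂, z₃), hne'⟩ : {z : ℤ × ℤ × ℤ // z.2.1 - z.1 ≠ z.2.2})))
      have h2 := h.mono h1 hN
      rw [h.compl', h.inf', h.inf', h.inf', h.inf'] at h2
      exact h2 ⟨⟨hi1, hi2⟩, ⟨hp1, hp2⟩, ht2⟩

theorem psi_triv {c : BName B} {b₀ : B} (hW : AllWorld em c b₀) (hem : DenseEmb em)
    {Ψ : κ → ℕ → ℕ → ℤ → B} (hpart : ∀ α i j, IsPart (Ψ α i j))
    (htriv : ∀ α β, α < β → b₀ ≤ ⨆ N : ℕ, trivS (fB em) (PhiN em c) Ψ α β N) {h : Ult B}
    (hb : h.V b₀) : Triv (E h) (Mdl.mk h (omN B)) (Mdl.mk h (vNset B κ))
    (Mdl.mk h (chainN em)) (Mdl.mk h (ZN B)) (Mdl.mk h (addN B)) (Mdl.mk h c)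
    (Mdl.mk h (psiN Ψ)) := by
  refine ⟨psiN_val hpart h, ?_⟩
  intro a b f g ha hb' hab hf hg
  refine forall_full2 (B := B) (fun α : κ => vN α) (fun α : κ => vN α)
    (P := fun h a b => ∀ f g, E h a b → Has (E h) (Mdl.mk h (chainN em)) [a, f] →
      Has (E h) (Mdl.mk h (chainN em)) [b, g] → ∃ N, E h N (Mdl.mk h (omN B)) ∧
      ∀ i j, E h i (Mdl.mk h (omN B)) → LeN (E h) N i →
      InI (E h) (Mdl.mk h (omN B)) f i j →
      InI (E h) (Mdl.mk h (omN B)) g i j →
      ∀ z₁ z₂ z₃,
      Has (E h) (Mdl.mk h (psiN Ψ)) [a, i, j, z₁] →
      Has (E h) (Mdl.mk h (psiN Ψ)) [b, i, j, z₂] →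
      RelT (E h) (Mdl.mk h (omN B)) (Mdl.mk h (ZN B)) (Mdl.mk h (addN B))
        (Mdl.mk h c) f g i j z₃ →
      Has (E h) (Mdl.mk h (addN B)) [z₁, z₃, z₂]) ?_ b₀ ?_ h hb a ha b hb' f g hab hf hg
  · intro Γ _ f1 f2 h1 h2
    repeat' first
      | apply bterm_opair
      | exact BMap.id
      | apply BMap.fst
      | apply BMap.snd
      | apply BTerm.cmp h1
      | apply BTerm.cmp h2
      | exact BTerm.const _
      | apply BTerm.of
      | apply bp_relT2
      | apply bp_isCocycle2
      | apply bp_isCochain2
      | apply bp_relC
      | apply bp_relP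
      | apply bp_relT
      | apply bp_relB
      | apply bp_relA
      | apply bp_isMeet
      | apply bp_isPt
      | apply bp_inStar
      | apply bp_ptLe
      | apply bp_evLt
      | apply bp_evLe
      | apply bp_inI
      | apply bp_leN
      | apply bp_isUPair
      | apply bp_isPair
      | apply bp_isFun
      | apply bp_has2
      | apply bp_has3
      | apply bp_has4
      | apply bp_has5
      | apply bp_has6
      | apply bterm_opair
      | apply BPred.mem
      | apply BPred.eq
      | apply BPred.not
      | apply BPred.and
      | apply BPred.or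
      | apply BPred.iff
      | apply BPred.imp
      | refine BPred.ex ?_
      | refine BPred.all ?_
  · intro h hb α β f g hαβ hf hg
    rw [E_vN_vN] at hαβ
    rw [has_chainN_iff] at hf hg
    subst hf hg
    obtain ⟨N, hN, hev⟩ := psi_ev hem (htriv α β hαβ) hb
    refine ⟨N, hN, fun i j hi hl h1 h2 z₁ z₂ z₃ hp1 hp2 ht => ?_⟩
    exact hev i hi j (inI_mem (hW h hb).om (rl_fun hW hb α) h1) z₁ (psiN_mem Ψ h _ _ _ _ hp1)
      z₂ (psiN_mem Ψ h _ _ _ _ hp2) z₃ ht.1 hl h1 h2 hp1 hp2 ht

/-- There is a trivialising set in all the models containing `b₀`. -/
theorem exists_triv (hem : DenseEmb em) {c : BName B} {b₀ : B} (hW : AllWorld em c b₀) :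
    ∃ P : BName B, ∀ h : Ult B, h.V b₀ → Triv (E h) (Mdl.mk h (omN B)) (Mdl.mk h (vNset B κ))
      (Mdl.mk h (chainN em)) (Mdl.mk h (ZN B)) (Mdl.mk h (addN B)) (Mdl.mk h c)
      (Mdl.mk h P) := by
  obtain ⟨Ψ, hpart, htriv⟩ := core_scalar hem (PhiN em c) b₀
    (fun α β i j _ => phi_sup hW α β i j)
    (fun α β i j _ z z' hz => phi_disj hW α β i j z z' hz)
    (fun α β γ _ _ => phi_coh hem hW α β γ)
  exact ⟨psiN Ψ, fun h hb => psi_triv hW hem hpart htriv hb⟩

end psi

end Pool.Agent.MP63050e
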