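import Pool.Agent.MP_63050e_lc.D8

/-! The vanishing of the second derived limit in the models. -/

set_option linter.unusedVariables false
set_option linter.unusedSectionVars false
set_option linter.unreachableTactic false
set_option linter.unusedTactic false

namespace Pool.Agent.MP63050e

open BVM BName SetModel

universe v

section fin

variable {κ : Type} [LinearOrder κ] [WellFoundedLT κ] {B : Type} [CompleteBooleanAlgebra B]
  {em : PP κ → B}

theorem exists_b (em : PP κ → B) (h : Ult B) (c P : BName B) : ∃ b : Mdl h, ∀ f₀ f₁ i j z,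
    InStar (E h) (Mdl.mk h (omN B)) (Mdl.mk h (vNset B κ)) (Mdl.mk h (chainN em)) f₀ →
    InStar (E h) (Mdl.mk h (omN B)) (Mdl.mk h (vNset B κ)) (Mdl.mk h (chainN em)) f₁ →
    E h i (Mdl.mk h (omN B)) → E h j (Mdl.mk h (omN B)) →
    (Has (E h) b [f₀, f₁, i, j, z] ↔ RelC (E h) (Mdl.mk h (omN B)) (Mdl.mk h (vNset B κ))
      (Mdl.mk h (chainN em)) (Mdl.mk h (ZN B)) (Mdl.mk h (addN B)) (Mdl.mk h (zN 0))
      (Mdl.mk h c) (Mdl.mk h P) f₀ f₁ i j z) := by
  obtain ⟨D0, hD0⟩ := exists_prod (Mdl.mk h (omN B)) (Mdl.mk h (omN B))
  obtain ⟨R, hR⟩ := subset_in_pow D0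
  have hfR : ∀ f, IsFun (E h) f (Mdl.mk h (omN B)) (Mdl.mk h (omN B)) → E h f R := by
    intro f hf
    refine hR f fun p hp => ?_
    obtain ⟨a, b, ha, hb, hab⟩ := hf.1 p hp
    rw [isPair_iff] at hab
    rw [hab]
    exact hD0 a b ha hb
  obtain ⟨X4, hX4⟩ := exists_prod (Mdl.mk h (omN B)) (Mdl.mk h (ZN B))
  obtain ⟨X3, hX3⟩ := exists_prod (Mdl.mk h (omN B)) X4
  obtain ⟨X2, hX2⟩ := exists_prod R X3
  obtain ⟨X1, hX1⟩ := exists_prod R X2
  obtain ⟨X, rfl⟩ := X1.exists_rep
  obtain ⟨b, hb⟩ := separation_name (H := fun _ : Unit => h)
    (D := fun _ t => ∃ f₀ f₁ i j z, t = pr h f₀ (pr h f₁ (pr h i (pr h j z))) ∧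
      RelC (E h) (Mdl.mk h (omN B)) (Mdl.mk h (vNset B κ))
      (Mdl.mk h (chainN em)) (Mdl.mk h (ZN B)) (Mdl.mk h (addN B)) (Mdl.mk h (zN 0))
      (Mdl.mk h c) (Mdl.mk h P) f₀ f₁ i j z) (by
    refine BPred.ex (BPred.ex (BPred.ex (BPred.ex (BPred.ex (BPred.and ?_ ?_)))))
    · refine (BPred.eq (H := fun _ : Unit => h) (f := fun p => p.1.1.1.1.1)
        (g := fun p => opair p.1.1.1.1.2 (opair p.1.1.1.2 (opair p.1.1.2 (opair p.1.2 p.2))))
        ?_ ?_).congr fun _ p => Iff.rfl
      · repeat' first
          | apply bterm_opair
          | exact BMap.id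
          | apply BMap.fst
          | apply BMap.snd
          | exact BTerm.const _
          | apply BTerm.of
          | apply bp_relT2
          | apply bp_isCocycle2
          | apply bp_isCochain2
          | apply bp_relC
          | apply bp_relP
          | apply bp_relT
          | apply bp_relB
          | apply bp_relA
          | apply bp_isMeet
          | apply bp_isPt
          | apply bp_inStar
          | apply bp_ptLe
          | apply bp_evLt
          | apply bp_evLe
          | apply bp_inI
          | apply bp_leN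
          | apply bp_isUPair
          | apply bp_isPair
          | apply bp_isFun
          | apply bp_has2
          | apply bp_has3
          | apply bp_has4
          | apply bp_has5
          | apply bp_has6
          | apply bterm_opair
          | apply BPred.mem
          | apply BPred.eq
          | apply BPred.not
          | apply BPred.and
          | apply BPred.or
          | apply BPred.iff
          | apply BPred.imp
          | refine BPred.ex ?_
          | refine BPred.all ?_
      · repeat' first
          | apply bterm_opair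
          | exact BMap.id
          | apply BMap.fst
          | apply BMap.snd
          | exact BTerm.const _
          | apply BTerm.of
          | apply bp_relT2
          | apply bp_isCocycle2
          | apply bp_isCochain2
          | apply bp_relC
          | apply bp_relP
          | apply bp_relT
          | apply bp_relB
          | apply bp_relA
          | apply bp_isMeet
          | apply bp_isPt
          | apply bp_inStar
          | apply bp_ptLe
          | apply bp_evLt
          | apply bp_evLe
          | apply bp_inI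
          | apply bp_leN
          | apply bp_isUPair
          | apply bp_isPair
          | apply bp_isFun
          | apply bp_has2
          | apply bp_has3
          | apply bp_has4
          | apply bp_has5
          | apply bp_has6
          | apply bterm_opair
          | apply BPred.mem
          | apply BPred.eq
          | apply BPred.not
          | apply BPred.and
          | apply BPred.or
          | apply BPred.iff
          | apply BPred.imp
          | refine BPred.ex ?_
          | refine BPred.all ?_
    · repeat' first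
        | apply bterm_opair
        | exact BMap.id
        | apply BMap.fst
        | apply BMap.snd
        | exact BTerm.const _
        | apply BTerm.of
        | apply bp_relT2
        | apply bp_isCocycle2
        | apply bp_isCochain2
        | apply bp_relC
        | apply bp_relP
        | apply bp_relT
        | apply bp_relB
        | apply bp_relA
        | apply bp_isMeet
        | apply bp_isPt
        | apply bp_inStar
        | apply bp_ptLe
        | apply bp_evLt
        | apply bp_evLe
        | apply bp_inI
        | apply bp_leN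
        | apply bp_isUPair
        | apply bp_isPair
        | apply bp_isFun
        | apply bp_has2
        | apply bp_has3
        | apply bp_has4
        | apply bp_has5
        | apply bp_has6
        | apply bterm_opair
        | apply BPred.mem
        | apply BPred.eq
        | apply BPred.not
        | apply BPred.and
        | apply BPred.or
        | apply BPred.iff
        | apply BPred.imp
        | refine BPred.ex ?_
        | refine BPred.all ?_
    ) X
  refine ⟨Mdl.mk h b, fun f₀ f₁ i j z h0 h1 hi hj => ?_⟩
  rw [has_iff (by simp), hb ()]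
  change E h (pr h f₀ (pr h f₁ (pr h i (pr h j z)))) _ ∧ (∃ f₀' f₁' i' j' z', _) ↔ _
  constructor
  · rintro ⟨-, f₀', f₁', i', j', z', he, hr⟩
    change pr h f₀ (pr h f₁ (pr h i (pr h j z))) = _ at he
    rw [pr_inj, pr_inj, pr_inj, pr_inj] at he
    obtain ⟨rfl, rfl, rfl, rfl, rfl⟩ := he
    exact hr
  · intro hr
    refine ⟨hX1 _ _ (hfR _ h0.1) (hX2 _ _ (hfR _ h1.1) (hX3 _ _ hi (hX4 _ _ hj hr.1))),
      f₀, f₁, i, j, z, rfl, hr⟩

theorem limTwo_of (hem : DenseEmb em)
    (hworld : ∀ (h : Ult B) (c : Mdl h), IsCochain2 (E h) (Mdl.mk h (omN B))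
      (Mdl.mk h (vNset B κ)) (Mdl.mk h (chainN em)) (Mdl.mk h (ZN B)) (Mdl.mk h (zN 0)) c →
      IsCocycle2 (E h) (Mdl.mk h (omN B)) (Mdl.mk h (vNset B κ)) (Mdl.mk h (chainN em))
        (Mdl.mk h (addN B)) c →
      World (E h) (Mdl.mk h (omN B)) (Mdl.mk h (vNset B κ)) (Mdl.mk h (chainN em))
        (Mdl.mk h (ZN B)) (Mdl.mk h (addN B)) (Mdl.mk h (zN 0)) c) (h : Ult B) :
    LimTwoZero (E h) (Mdl.mk h (omN B)) (Mdl.mk h (vNset B κ)) (Mdl.mk h (chainN em))
      (Mdl.mk h (ZN B)) (Mdl.mk h (addN B)) (Mdl.mk h (zN 0)) := by
  intro c hc hcc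
  obtain ⟨c, rfl⟩ := c.exists_rep
  have hP : BPred (fun h : Ult B => h) (fun h (_ : PUnit.{1}) =>
      IsCochain2 (E h) (Mdl.mk h (omN B))
      (Mdl.mk h (vNset B κ)) (Mdl.mk h (chainN em)) (Mdl.mk h (ZN B)) (Mdl.mk h (zN 0))
        (Mdl.mk h c) ∧
      IsCocycle2 (E h) (Mdl.mk h (omN B)) (Mdl.mk h (vNset B κ)) (Mdl.mk h (chainN em))
        (Mdl.mk h (addN B)) (Mdl.mk h c)) := by
    repeat' first
      | apply bterm_opair
      | exact BMap.id
      | apply BMap.fst
      | apply BMap.snd
      | exact BTerm.const _
      | apply BTerm.of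
      | apply bp_relT2
      | apply bp_isCocycle2
      | apply bp_isCochain2
      | apply bp_relC
      | apply bp_relP
      | apply bp_relT
      | apply bp_relB
      | apply bp_relA
      | apply bp_isMeet
      | apply bp_isPt
      | apply bp_inStar
      | apply bp_ptLe
      | apply bp_evLt
      | apply bp_evLe
      | apply bp_inI
      | apply bp_leN
      | apply bp_isUPair
      | apply bp_isPair
      | apply bp_isFun
      | apply bp_has2
      | apply bp_has3
      | apply bp_has4
      | apply bp_has5
      | apply bp_has6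
      | apply bterm_opair
      | apply BPred.mem
      | apply BPred.eq
      | apply BPred.not
      | apply BPred.and
      | apply BPred.or
      | apply BPred.iff
      | apply BPred.imp
      | refine BPred.ex ?_
      | refine BPred.all ?_
  have hclop := hP.clop PUnit.unit
  have hW : AllWorld em c (bval (fun h => IsCochain2 (E h) (Mdl.mk h (omN B))
      (Mdl.mk h (vNset B κ)) (Mdl.mk h (chainN em)) (Mdl.mk h (ZN B)) (Mdl.mk h (zN 0))
        (Mdl.mk h c) ∧
      IsCocycle2 (E h) (Mdl.mk h (omN B)) (Mdl.mk h (vNset B κ)) (Mdl.mk h (chainN em))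
        (Mdl.mk h (addN B)) (Mdl.mk h c))) := by
    intro h hh
    have h1 := (hclop.iff h).2 hh
    exact hworld h _ h1.1 h1.2
  have hb := (hclop.iff h).1 ⟨hc, hcc⟩
  obtain ⟨P, hT⟩ := exists_triv hem hW
  obtain ⟨b, hb'⟩ := exists_b em h c P
  exact ⟨b, cobound_of (hW h hb) (hT h hb) hb'⟩

/-- The poset is not empty. -/
theorem nonempty_PP (κ : Type) [LinearOrder κ] : Nonempty (PP κ) := by
  refine ⟨⟨⟨fun _ => Dat.empty, ?_⟩, ?_⟩⟩
  · simp [Dat.empty]
  · intro χ hχ
    simp [Cond.a, Dat.empty] at hχ

end fin

end Pool.Agent.MP63050e
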