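import Pool.Agent.MP_63050e_lc.E1

/-! The integers in the Boolean valued models. -/

set_option linter.unusedVariables false
set_option linter.unusedSectionVars false

namespace Pool.Agent.MP63050e.Ints

open BVM BName SetModel

universe v

section tools

variable {B : Type} [CompleteBooleanAlgebra B]

/-- Double induction over the elements of full names. -/
theorem forall_full2 {ι ι' : Type} (e : ι → BName B) (e' : ι' → BName B)
    {P : (h : Ult B) → Mdl h → Mdl h → Prop}
    (hP : BPred (fun h : Ult B => h)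
      (fun h (p : BName B × BName B) => P h (Mdl.mk h p.1) (Mdl.mk h p.2)))
    (H : ∀ (h : Ult B) i j, P h (Mdl.mk h (e i)) (Mdl.mk h (e' j))) :
    ∀ (h : Ult B) x y, E h x (Mdl.mk h (BName.mk ι e (fun _ => ⊤))) →
      E h y (Mdl.mk h (BName.mk ι' e' (fun _ => ⊤))) → P h x y := by
  intro h x y hx hy
  refine forall_full (P := fun h x => ∀ y, E h y (Mdl.mk h (BName.mk ι' e' (fun _ => ⊤))) →
    P h x y) e ?_ ⊤ ?_ h h.top' x hx y hy
  · exact BPred.all (BPred.imp (BPred.mem BTerm.snd (BTerm.const _)) hP)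
  · intro h' _ i y hy
    refine forall_full (P := fun h y => P h (Mdl.mk h (e i)) y) e' ?_ ⊤ ?_ h' h'.top' y hy
    · refine BPred.comp (Δ := BName B) hP (f := fun y => (e i, y)) ?_
      intro p q
      refine le_inf ?_ le_rfl
      change _ ≤ beq (e i) (e i)
      rw [beq_refl]; exact le_top
    · intro h'' _ j
      exact H h'' i j

/-- To prove a clopen statement under a supremum it suffices to prove it under each member. -/
theorem of_iSup {P : Ult B → Prop} (hP : Clop P) {ι : Sort*} (c : ι → B)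
    (H : ∀ j (h : Ult B), h.V (c j) → P h) {h : Ult B} (hc : h.V (⨆ j, c j)) : P h := by
  obtain ⟨b, hb⟩ := hP
  rw [hb]
  refine h.mono (iSup_le fun j => Ult.le_iff.2 fun h' hh => ?_) hc
  exact (hb h').1 (H j h' hh)

end tools

section integers

variable {B : Type} [CompleteBooleanAlgebra B]

theorem beq_zN_ne (a b : ℤ) (hab : a ≠ b) : beq (zN a : BName B) (zN b) = ⊥ :=
  beq_vN_ne fun h => hab (Equiv.intEquivNat.injective h)

theorem zN_inj {h : Ult B} {a b : ℤ} : Mdl.mk h (zN a) = Mdl.mk h (zN b) ↔ a = b := by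
  unfold zN
  rw [vN_inj]
  exact Equiv.intEquivNat.injective.eq_iff

theorem E_zN (h : Ult B) (a : ℤ) : E h (Mdl.mk h (zN a)) (Mdl.mk h (ZN B)) :=
  E_of_full (zN : ℤ → BName B) h a

theorem has_add (h : Ult B) (a b : ℤ) :
    Has (E h) (Mdl.mk h (addN B)) [Mdl.mk h (zN a), Mdl.mk h (zN b), Mdl.mk h (zN (a + b))] := by
  rw [has_iff (by simp)]
  exact E_of_full (fun p : ℤ × ℤ => opair (zN p.1) (opair (zN p.2) (zN (p.1 + p.2)))) h (a, b)

theorem has_add_iff (h : Ult B) (a b : ℤ) (z : Mdl h) :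
    Has (E h) (Mdl.mk h (addN B)) [Mdl.mk h (zN a), Mdl.mk h (zN b), z] ↔
      z = Mdl.mk h (zN (a + b)) := by
  constructor
  · intro H
    rw [has_iff (by simp)] at H
    refine forall_full (P := fun h p => ∀ z, p = pr h (Mdl.mk h (zN a)) (pr h (Mdl.mk h (zN b)) z) →
      z = Mdl.mk h (zN (a + b)))
      (fun p : ℤ × ℤ => opair (zN p.1) (opair (zN p.2) (zN (p.1 + p.2)))) ?_ ⊤ ?_ h h.top' _ H z rfl
    · refine BPred.all (BPred.imp ?_ ?_)
      · exact BPred.eq BTerm.id.fst (bterm_opair (BTerm.const _) (bterm_opair (BTerm.const _)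
          BTerm.snd))
      · exact BPred.eq BTerm.snd (BTerm.const _)
    · intro h' _ p z hz
      rw [← pr_mk, ← pr_mk, pr_inj, pr_inj, zN_inj, zN_inj] at hz
      obtain ⟨h1, h2, h3⟩ := hz
      rw [← h3, h1, h2]
  · rintro rfl
    exact has_add h a b

theorem isAbGroup (h : Ult B) :
    IsAbGroup (E h) (Mdl.mk h (ZN B)) (Mdl.mk h (addN B)) (Mdl.mk h (zN 0)) := by
  refine ⟨?_, E_zN h 0, ?_, ?_, ?_, ?_⟩
  · refine forall_full2 (P := fun h x y => ∃ z, E h z (Mdl.mk h (ZN B)) ∧
      ∀ z', Has (E h) (Mdl.mk h (addN B)) [x, y, z'] ↔ z' = z) zN zN ?_ ?_ h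
    · refine BPred.ex (BPred.and ?_ (BPred.all (BPred.iff ?_ ?_)))
      · exact BPred.mem BTerm.snd (BTerm.const _)
      · exact bp_has3 (BTerm.const _) BTerm.id.fst.fst.fst BTerm.snd.fst.fst BTerm.snd
      · exact BPred.eq BTerm.snd BTerm.snd.fst
    · intro h a b
      exact ⟨_, E_zN h (a + b), fun z' => has_add_iff h a b z'⟩
  · intro x hx
    refine forall_full (P := fun h x => Has (E h) (Mdl.mk h (addN B)) [x, Mdl.mk h (zN 0), x])
      zN ?_ ⊤ ?_ h h.top' x hx
    · exact bp_has3 (BTerm.const _) BTerm.id (BTerm.const _) BTerm.id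
    · intro h' _ a
      rw [has_add_iff, add_zero]
  · intro x hx
    refine forall_full (P := fun h x => ∃ y, E h y (Mdl.mk h (ZN B)) ∧
      Has (E h) (Mdl.mk h (addN B)) [x, y, Mdl.mk h (zN 0)])
      zN ?_ ⊤ ?_ h h.top' x hx
    · refine BPred.ex (BPred.and ?_ ?_)
      · exact BPred.mem BTerm.snd (BTerm.const _)
      · exact bp_has3 (BTerm.const _) BTerm.id.fst BTerm.snd (BTerm.const _)
    · intro h' _ a
      refine ⟨_, E_zN h' (-a), ?_⟩
      rw [has_add_iff, add_neg_cancel]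
  · intro x y s hx hy
    refine forall_full2 (P := fun h x y => ∀ s, Has (E h) (Mdl.mk h (addN B)) [x, y, s] →
      Has (E h) (Mdl.mk h (addN B)) [y, x, s]) zN zN ?_ ?_ h x y hx hy s
    · refine BPred.all (BPred.imp ?_ ?_)
      · exact bp_has3 (BTerm.const _) BTerm.id.fst.fst BTerm.snd.fst BTerm.snd
      · exact bp_has3 (BTerm.const _) BTerm.snd.fst BTerm.id.fst.fst BTerm.snd
    · intro h' a b s hs
      rw [has_add_iff] at hs ⊢
      rw [hs, add_comm]
  · intro x y z s t u hx hy hz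
    refine forall_full2 (P := fun h x y => ∀ z s t u, E h z (Mdl.mk h (ZN B)) →
      Has (E h) (Mdl.mk h (addN B)) [x, y, s] → Has (E h) (Mdl.mk h (addN B)) [s, z, t] →
      Has (E h) (Mdl.mk h (addN B)) [y, z, u] → Has (E h) (Mdl.mk h (addN B)) [x, u, t])
      zN zN ?_ ?_ h x y hx hy z s t u hz
    · refine BPred.all (BPred.all (BPred.all (BPred.all (BPred.imp ?_ (BPred.imp ?_
        (BPred.imp ?_ (BPred.imp ?_ ?_)))))))
      · exact BPred.mem BTerm.snd.fst.fst.fst (BTerm.const _)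
      · exact bp_has3 (BTerm.const _) BTerm.id.fst.fst.fst.fst.fst BTerm.snd.fst.fst.fst.fst
          BTerm.snd.fst.fst
      · exact bp_has3 (BTerm.const _) BTerm.snd.fst.fst BTerm.snd.fst.fst.fst
          BTerm.snd.fst
      · exact bp_has3 (BTerm.const _) BTerm.snd.fst.fst.fst.fst BTerm.snd.fst.fst.fst BTerm.snd
      · exact bp_has3 (BTerm.const _) BTerm.id.fst.fst.fst.fst.fst BTerm.snd BTerm.snd.fst
    · intro h' a b z s t u hz hs
      rw [has_add_iff] at hs
      subst hs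
      refine forall_full (P := fun h z => ∀ t u,
        Has (E h) (Mdl.mk h (addN B)) [Mdl.mk h (zN (a + b)), z, t] →
        Has (E h) (Mdl.mk h (addN B)) [Mdl.mk h (zN b), z, u] →
        Has (E h) (Mdl.mk h (addN B)) [Mdl.mk h (zN a), u, t]) zN ?_ ⊤ ?_ h' h'.top' z hz t u
      · refine BPred.all (BPred.all (BPred.imp ?_ (BPred.imp ?_ ?_)))
        · exact bp_has3 (BTerm.const _) (BTerm.const _) BTerm.id.fst.fst BTerm.snd.fst
        · exact bp_has3 (BTerm.const _) (BTerm.const _) BTerm.id.fst.fst BTerm.snd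
        · exact bp_has3 (BTerm.const _) (BTerm.const _) BTerm.snd BTerm.snd.fst
      · intro h'' _ c t u h1 h2
        rw [has_add_iff] at h1 h2
        rw [h2, has_add_iff, h1, add_assoc]

theorem eq_of_isEmp {h : Ult B} {e e' : Mdl h} (he : IsEmp (E h) e) (he' : IsEmp (E h) e') :
    e = e' := by
  apply Mdl.ext
  intro z
  exact ⟨fun H => absurd H (he z), fun H => absurd H (he' z)⟩

theorem eq_of_isSucc {h : Ult B} {e e' x : Mdl h} (he : IsSucc (E h) e x)
    (he' : IsSucc (E h) e' x) : e = e' := by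
  apply Mdl.ext
  intro z
  rw [he z, he' z]

theorem isIntegers (h : Ult B) :
    IsIntegers (E h) (Mdl.mk h (omN B)) (Mdl.mk h (ZN B)) (Mdl.mk h (addN B))
      (Mdl.mk h (zN 0)) := by
  have hX : ∀ x x' : ℕ, x ≠ x' → beq (vN x : BName B) (vN x') = ⊥ := fun x x' h => beq_vN_ne h
  refine ⟨isAbGroup h, Mdl.mk h (zN 1),
    Mdl.mk h (funN (vN : ℕ → BName B) (zN : ℤ → BName B) (fun n : ℕ => (n : ℤ))),
    E_zN h 1, isFun_funN hX h, ?_, ?_, ?_, ?_⟩
  · intro n n' x hn hn'
    refine forall_full2 (P := fun h n n' => ∀ x,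
      Has (E h) (Mdl.mk h (funN (vN : ℕ → BName B) (zN : ℤ → BName B) (fun n : ℕ => (n : ℤ))))
        [n, x] →
      Has (E h) (Mdl.mk h (funN (vN : ℕ → BName B) (zN : ℤ → BName B) (fun n : ℕ => (n : ℤ))))
        [n', x] → n = n') vN vN ?_ ?_ h n n' hn hn' x
    · refine BPred.all (BPred.imp ?_ (BPred.imp ?_ ?_))
      · exact bp_has2 (BTerm.const _) BTerm.id.fst.fst BTerm.snd
      · exact bp_has2 (BTerm.const _) BTerm.snd.fst BTerm.snd
      · exact BPred.eq BTerm.id.fst.fst BTerm.snd.fst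
    · intro h' a b x h1 h2
      rw [has_funN_iff hX] at h1 h2
      rw [h1, zN_inj, Nat.cast_inj] at h2
      rw [h2]
  · intro e he
    rw [eq_of_isEmp he (isEmp_vN_zero h), has_funN_iff hX]
    rfl
  · intro n n' x y hn
    refine forall_full (P := fun h n => ∀ n' x y, IsSucc (E h) n' n →
      Has (E h) (Mdl.mk h (funN (vN : ℕ → BName B) (zN : ℤ → BName B) (fun n : ℕ => (n : ℤ))))
        [n, x] →
      Has (E h) (Mdl.mk h (funN (vN : ℕ → BName B) (zN : ℤ → BName B) (fun n : ℕ => (n : ℤ))))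
        [n', y] → Has (E h) (Mdl.mk h (addN B)) [x, Mdl.mk h (zN 1), y])
      vN ?_ ⊤ ?_ h h.top' n hn n' x y
    · refine BPred.all (BPred.all (BPred.all (BPred.imp ?_ (BPred.imp ?_ (BPred.imp ?_ ?_)))))
      · exact bp_isSucc BTerm.snd.fst.fst BTerm.id.fst.fst.fst
      · exact bp_has2 (BTerm.const _) BTerm.id.fst.fst.fst BTerm.snd.fst
      · exact bp_has2 (BTerm.const _) BTerm.snd.fst.fst BTerm.snd
      · exact bp_has3 (BTerm.const _) BTerm.snd.fst (BTerm.const _) BTerm.snd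
    · intro h' _ k n' x y h1 h2 h3
      have h4 : n' = Mdl.mk h' (vN (k + 1)) :=
        eq_of_isSucc h1 (fun z => E_vN_succ k z)
      subst h4
      rw [has_funN_iff hX] at h2 h3
      rw [h2, h3, has_add_iff]
      push_cast
      rfl
  · intro x hx
    refine forall_full (P := fun h x => ∃ n y, E h n (Mdl.mk h (omN B)) ∧
      Has (E h) (Mdl.mk h (funN (vN : ℕ → BName B) (zN : ℤ → BName B) (fun n : ℕ => (n : ℤ))))
        [n, y] ∧ (x = y ∨ Has (E h) (Mdl.mk h (addN B)) [x, y, Mdl.mk h (zN 0)]))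
      zN ?_ ⊤ ?_ h h.top' x hx
    · refine BPred.ex (BPred.ex (BPred.and ?_ (BPred.and ?_ (BPred.or ?_ ?_))))
      · exact BPred.mem BTerm.snd.fst (BTerm.const _)
      · exact bp_has2 (BTerm.const _) BTerm.snd.fst BTerm.snd
      · exact BPred.eq BTerm.id.fst.fst BTerm.snd
      · exact bp_has3 (BTerm.const _) BTerm.id.fst.fst BTerm.snd (BTerm.const _)
    · intro h' _ z
      refine ⟨Mdl.mk h' (vN z.natAbs), Mdl.mk h' (zN (z.natAbs : ℤ)), E_vN_vNset _,
        has_funN h' z.natAbs, ?_⟩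
      rcases le_total 0 z with hz | hz
      · left
        rw [zN_inj]
        omega
      · right
        rw [has_add_iff, zN_inj]
        omega

end integers

end Pool.Agent.MP63050e.Ints
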