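import Pool.Agent.MP_63050e_lc.D8

/-! The generic chain is a chain in the models. -/

set_option linter.unusedVariables false
set_option linter.unusedSectionVars false
set_option linter.unreachableTactic false
set_option linter.unusedTactic false

namespace Pool.Agent.MP63050e

open BVM BName SetModel

universe v

section chain

variable {κ : Type} [LinearOrder κ] [WellFoundedLT κ] {B : Type} [CompleteBooleanAlgebra B]
  {em : PP κ → B}

theorem has_realN (f : ℕ → ℕ → B) (h : Ult B) (i n : ℕ) :
    Has (E h) (Mdl.mk h (realN f)) [Mdl.mk h (vN i), Mdl.mk h (vN n)] ↔ h.V (f i n) := by
  have hinj : ∀ x y : ℕ × ℕ, x ≠ y → beq (opair (vN x.1) (vN x.2) : BName B)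
      (opair (vN y.1) (vN y.2)) = ⊥ := by
    intro x y hxy
    rw [beq_opair]
    by_cases h1 : x.1 = y.1
    · have h2 : x.2 ≠ y.2 := fun h2 => hxy (Prod.ext h1 h2)
      rw [beq_vN_ne h2, inf_bot_eq]
    · rw [beq_vN_ne h1, bot_inf_eq]
  rw [has_iff (by simp)]
  change h.V (bmem (opair (vN i) (vN n)) (realN f)) ↔ _
  have := bmem_inj hinj (fun p => f p.1 p.2) (i, n)
  simp only at this
  rw [realN, this]

theorem realN_pair (f : ℕ → ℕ → B) (h : Ult B) (p : Mdl h) (hp : E h p (Mdl.mk h (realN f))) :
    ∃ a b, E h a (Mdl.mk h (omN B)) ∧ E h b (Mdl.mk h (omN B)) ∧ IsPair (E h) p a b := by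
  refine forall_full (P := fun h p => ∃ a b, E h a (Mdl.mk h (omN B)) ∧
    E h b (Mdl.mk h (omN B)) ∧ IsPair (E h) p a b)
    (fun x : ℕ × ℕ => opair (vN x.1) (vN x.2)) ?_ ⊤ ?_ h h.top' p (E_full_of hp)
  · repeat' first
      | apply bterm_opair
      | exact BMap.id
      | apply BMap.fst
      | apply BMap.snd
      | exact BTerm.const _
      | apply BTerm.of
      | apply bp_relT2
      | apply bp_isCocycle2
      | apply bp_isCochain2
      | apply bp_relC
      | apply bp_relP
      | apply bp_relT
      | apply bp_relB
      | apply bp_relA
      | apply bp_isMeet
      | apply bp_isPt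
      | apply bp_inStar
      | apply bp_ptLe
      | apply bp_evLt
      | apply bp_evLe
      | apply bp_inI
      | apply bp_leN
      | apply bp_isUPair
      | apply bp_isPair
      | apply bp_isFun
      | apply bp_has2
      | apply bp_has3
      | apply bp_has4
      | apply bp_has5
      | apply bp_has6
      | apply bterm_opair
      | apply BPred.mem
      | apply BPred.eq
      | apply BPred.not
      | apply BPred.and
      | apply BPred.or
      | apply BPred.iff
      | apply BPred.imp
      | refine BPred.ex ?_
      | refine BPred.all ?_
  · intro h' _ x
    exact ⟨_, _, E_vN_vNset x.1, E_vN_vNset x.2, isPair_iff.2 rfl⟩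

theorem realN_mem (f : ℕ → ℕ → B) (h : Ult B) (a b : Mdl h)
    (H : Has (E h) (Mdl.mk h (realN f)) [a, b]) : E h b (Mdl.mk h (omN B)) := by
  rw [has_iff (by simp)] at H
  obtain ⟨a', b', -, hb, hab⟩ := realN_pair f h _ H
  rw [isPair_iff] at hab
  change pr h a b = _ at hab
  rw [pr_inj] at hab
  rw [hab.2]
  exact hb

theorem isFun_realN {f : ℕ → ℕ → B} (hf : ∀ i, IsPart (f i)) (h : Ult B) :
    IsFun (E h) (Mdl.mk h (realN f)) (Mdl.mk h (omN B)) (Mdl.mk h (omN B)) := by
  refine ⟨realN_pair f h, fun a ha => ?_⟩
  refine forall_full (P := fun h a => ∃! b, Has (E h) (Mdl.mk h (realN f)) [a, b])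
    (fun n : ℕ => vN n) ?_ ⊤ ?_ h h.top' a ha
  · repeat' first
      | apply bterm_opair
      | exact BMap.id
      | apply BMap.fst
      | apply BMap.snd
      | exact BTerm.const _
      | apply BTerm.of
      | apply bp_relT2
      | apply bp_isCocycle2
      | apply bp_isCochain2
      | apply bp_relC
      | apply bp_relP
      | apply bp_relT
      | apply bp_relB
      | apply bp_relA
      | apply bp_isMeet
      | apply bp_isPt
      | apply bp_inStar
      | apply bp_ptLe
      | apply bp_evLt
      | apply bp_evLe
      | apply bp_inI
      | apply bp_leN
      | apply bp_isUPair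
      | apply bp_isPair
      | apply bp_isFun
      | apply bp_has2
      | apply bp_has3
      | apply bp_has4
      | apply bp_has5
      | apply bp_has6
      | apply bterm_opair
      | apply BPred.mem
      | apply BPred.eq
      | apply BPred.not
      | apply BPred.and
      | apply BPred.or
      | apply BPred.iff
      | apply BPred.imp
      | refine BPred.ex ?_
      | refine BPred.all ?_
  · intro h _ i
    obtain ⟨m, -, hm⟩ := exists_of_iSup (fun n : ℕ => vN (B := B) n) (f i)
      (P := fun h m => Has (E h) (Mdl.mk h (realN f)) [Mdl.mk h (vN i), m] ∧
        ∀ m', Has (E h) (Mdl.mk h (realN f)) [Mdl.mk h (vN i), m'] → m' = m) (by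
        repeat' first
          | apply bterm_opair
          | exact BMap.id
          | apply BMap.fst
          | apply BMap.snd
          | exact BTerm.const _
          | apply BTerm.of
          | apply bp_relT2
          | apply bp_isCocycle2
          | apply bp_isCochain2
          | apply bp_relC
          | apply bp_relP
          | apply bp_relT
          | apply bp_relB
          | apply bp_relA
          | apply bp_isMeet
          | apply bp_isPt
          | apply bp_inStar
          | apply bp_ptLe
          | apply bp_evLt
          | apply bp_evLe
          | apply bp_inI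
          | apply bp_leN
          | apply bp_isUPair
          | apply bp_isPair
          | apply bp_isFun
          | apply bp_has2
          | apply bp_has3
          | apply bp_has4
          | apply bp_has5
          | apply bp_has6
          | apply bterm_opair
          | apply BPred.mem
          | apply BPred.eq
          | apply BPred.not
          | apply BPred.and
          | apply BPred.or
          | apply BPred.iff
          | apply BPred.imp
          | refine BPred.ex ?_
          | refine BPred.all ?_
        ) (b := ⊤) (by
        intro h _ n hn
        refine ⟨(has_realN f h i n).2 hn, fun m' hm' => ?_⟩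
        refine forall_full (P := fun h m' => Has (E h) (Mdl.mk h (realN f))
          [Mdl.mk h (vN i), m'] → m' = Mdl.mk h (vN n)) (fun n : ℕ => vN n) ?_ (f i n) ?_ h hn m'
          (realN_mem f h _ _ hm') hm'
        · repeat' first
            | apply bterm_opair
            | exact BMap.id
            | apply BMap.fst
            | apply BMap.snd
            | exact BTerm.const _
            | apply BTerm.of
            | apply bp_relT2
            | apply bp_isCocycle2
            | apply bp_isCochain2
            | apply bp_relC
            | apply bp_relP
            | apply bp_relT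
            | apply bp_relB
            | apply bp_relA
            | apply bp_isMeet
            | apply bp_isPt
            | apply bp_inStar
            | apply bp_ptLe
            | apply bp_evLt
            | apply bp_evLe
            | apply bp_inI
            | apply bp_leN
            | apply bp_isUPair
            | apply bp_isPair
            | apply bp_isFun
            | apply bp_has2
            | apply bp_has3
            | apply bp_has4
            | apply bp_has5
            | apply bp_has6
            | apply bterm_opair
            | apply BPred.mem
            | apply BPred.eq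
            | apply BPred.not
            | apply BPred.and
            | apply BPred.or
            | apply BPred.iff
            | apply BPred.imp
            | refine BPred.ex ?_
            | refine BPred.all ?_
        · intro h hn n' hn'
          rw [has_realN] at hn'
          by_cases hnn : n' = n
          · rw [hnn]
          · exfalso
            exact h.bot (h.mono ((hf i).2 hnn).le_bot ((h.inf' _ _).2 ⟨hn', hn⟩)))
        h.top' (by rw [(hf i).1]; exact h.top')
    exact ⟨m, hm.1, hm.2⟩

theorem has_chainN' (em : PP κ → B) (h : Ult B) (α : κ) (f : Mdl h) :
    Has (E h) (Mdl.mk h (chainN em)) [Mdl.mk h (vN α), f] ↔ f = Mdl.mk h (rl em α) :=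
  has_chainN_iff em h α f

theorem evLt_rl (hem : DenseEmb em) {α β : κ} (hαβ : α < β) (h : Ult B) :
    EvLt (E h) (Mdl.mk h (omN B)) (Mdl.mk h (rl em α)) (Mdl.mk h (rl em β)) := by
  have h1 := h.mono (fB_chain hem hαβ) h.top'
  refine exists_of_iSup (fun n : ℕ => vN (B := B) n)
    (fun N : ℕ => ⨅ i : {i : ℕ // N ≤ i}, ⨆ mn : {mn : ℕ × ℕ // mn.1 < mn.2},
      fB em α i.1 mn.1.1 ⊓ fB em β i.1 mn.1.2)
    (P := fun h N => ∀ i m n, E h i (Mdl.mk h (omN B)) → LeN (E h) N i →
      Has (E h) (Mdl.mk h (rl em α)) [i, m] → Has (E h) (Mdl.mk h (rl em β)) [i, n] →
      E h m n) ?_ (b := ⊤) ?_ h.top' h1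
  · repeat' first
      | apply bterm_opair
      | exact BMap.id
      | apply BMap.fst
      | apply BMap.snd
      | exact BTerm.const _
      | apply BTerm.of
      | apply bp_relT2
      | apply bp_isCocycle2
      | apply bp_isCochain2
      | apply bp_relC
      | apply bp_relP
      | apply bp_relT
      | apply bp_relB
      | apply bp_relA
      | apply bp_isMeet
      | apply bp_isPt
      | apply bp_inStar
      | apply bp_ptLe
      | apply bp_evLt
      | apply bp_evLe
      | apply bp_inI
      | apply bp_leN
      | apply bp_isUPair
      | apply bp_isPair
      | apply bp_isFun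
      | apply bp_has2
      | apply bp_has3
      | apply bp_has4
      | apply bp_has5
      | apply bp_has6
      | apply bterm_opair
      | apply BPred.mem
      | apply BPred.eq
      | apply BPred.not
      | apply BPred.and
      | apply BPred.or
      | apply BPred.iff
      | apply BPred.imp
      | refine BPred.ex ?_
      | refine BPred.all ?_
  · intro h _ N hN i m n hi hl hm hn
    refine forall_full (P := fun h i => ∀ m n, LeN (E h) (Mdl.mk h (vN N)) i →
      Has (E h) (Mdl.mk h (rl em α)) [i, m] → Has (E h) (Mdl.mk h (rl em β)) [i, n] →
      E h m n) (fun n : ℕ => vN n) ?_ _ ?_ h hN i hi m n hl hm hn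
    · repeat' first
        | apply bterm_opair
        | exact BMap.id
        | apply BMap.fst
        | apply BMap.snd
        | exact BTerm.const _
        | apply BTerm.of
        | apply bp_relT2
        | apply bp_isCocycle2
        | apply bp_isCochain2
        | apply bp_relC
        | apply bp_relP
        | apply bp_relT
        | apply bp_relB
        | apply bp_relA
        | apply bp_isMeet
        | apply bp_isPt
        | apply bp_inStar
        | apply bp_ptLe
        | apply bp_evLt
        | apply bp_evLe
        | apply bp_inI
        | apply bp_leN
        | apply bp_isUPair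
        | apply bp_isPair
        | apply bp_isFun
        | apply bp_has2
        | apply bp_has3
        | apply bp_has4
        | apply bp_has5
        | apply bp_has6
        | apply bterm_opair
        | apply BPred.mem
        | apply BPred.eq
        | apply BPred.not
        | apply BPred.and
        | apply BPred.or
        | apply BPred.iff
        | apply BPred.imp
        | refine BPred.ex ?_
        | refine BPred.all ?_
    · intro h hN i m n hl hm hn
      have hle : N ≤ i := by
        rcases hl with h1 | h1
        · exact (E_vN_vN.1 h1).le
        · exact (vN_inj.1 h1).le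
      have h2 := h.iInf_at _ (⟨i, hle⟩ : {i : ℕ // N ≤ i}) hN
      refine forall_full2 (B := B) (fun n : ℕ => vN n) (fun n : ℕ => vN n)
        (P := fun h m n => Has (E h) (Mdl.mk h (rl em α)) [Mdl.mk h (vN i), m] →
          Has (E h) (Mdl.mk h (rl em β)) [Mdl.mk h (vN i), n] → E h m n) ?_ _ ?_ h h2 m
          (realN_mem _ h _ _ hm) n (realN_mem _ h _ _ hn) hm hn
      · intro Γ _ f1 f2 h1 h2
        repeat' first
          | apply bterm_opair
          | exact BMap.id
          | apply BMap.fst
          | apply BMap.snd
          | apply BTerm.cmp h1
          | apply BTerm.cmp h2
          | exact BTerm.const _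
          | apply BTerm.of
          | apply bp_relT2
          | apply bp_isCocycle2
          | apply bp_isCochain2
          | apply bp_relC
          | apply bp_relP
          | apply bp_relT
          | apply bp_relB
          | apply bp_relA
          | apply bp_isMeet
          | apply bp_isPt
          | apply bp_inStar
          | apply bp_ptLe
          | apply bp_evLt
          | apply bp_evLe
          | apply bp_inI
          | apply bp_leN
          | apply bp_isUPair
          | apply bp_isPair
          | apply bp_isFun
          | apply bp_has2
          | apply bp_has3
          | apply bp_has4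
          | apply bp_has5
          | apply bp_has6
          | apply bterm_opair
          | apply BPred.mem
          | apply BPred.eq
          | apply BPred.not
          | apply BPred.and
          | apply BPred.or
          | apply BPred.iff
          | apply BPred.imp
          | refine BPred.ex ?_
          | refine BPred.all ?_
      · intro h h2 m n hm hn
        rw [has_realN] at hm hn
        rw [E_vN_vN]
        by_contra hmn
        refine h.bot (h.mono ?_ ((h.inf' _ _).2 ⟨h2, (h.inf' _ _).2 ⟨hm, hn⟩⟩))
        rw [iSup_inf_eq]
        refine iSup_le fun mn => ?_
        by_cases h3 : mn.1.1 = m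
        · have h4 : mn.1.2 ≠ n := fun h4 => hmn (by rw [← h3, ← h4]; exact mn.2)
          refine le_trans ?_ ((fB_part hem β i).2 h4).le_bot
          exact le_inf (inf_le_left.trans inf_le_right) (inf_le_right.trans inf_le_right)
        · refine le_trans ?_ ((fB_part hem α i).2 h3).le_bot
          exact le_inf (inf_le_left.trans inf_le_left) (inf_le_right.trans inf_le_left)

theorem isChain (hem : DenseEmb em) (h : Ult B) :
    IsChain (E h) (Mdl.mk h (omN B)) (Mdl.mk h (vNset B κ)) (Mdl.mk h (chainN em)) := by
  refine ⟨⟨_, isFun_funN (ex := vN) (ey := rl em) (g := id) (fun x x' hx => beq_vN_ne hx) h⟩,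
    ?_, ?_⟩
  · intro a f ha hf
    refine forall_full (P := fun h a => ∀ f, Has (E h) (Mdl.mk h (chainN em)) [a, f] →
      IsFun (E h) f (Mdl.mk h (omN B)) (Mdl.mk h (omN B))) (fun α : κ => vN α) ?_ ⊤ ?_ h h.top'
      a ha f hf
    · repeat' first
        | apply bterm_opair
        | exact BMap.id
        | apply BMap.fst
        | apply BMap.snd
        | exact BTerm.const _
        | apply BTerm.of
        | apply bp_relT2
        | apply bp_isCocycle2
        | apply bp_isCochain2
        | apply bp_relC
        | apply bp_relP
        | apply bp_relT
        | apply bp_relB
        | apply bp_relA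
        | apply bp_isMeet
        | apply bp_isPt
        | apply bp_inStar
        | apply bp_ptLe
        | apply bp_evLt
        | apply bp_evLe
        | apply bp_inI
        | apply bp_leN
        | apply bp_isUPair
        | apply bp_isPair
        | apply bp_isFun
        | apply bp_has2
        | apply bp_has3
        | apply bp_has4
        | apply bp_has5
        | apply bp_has6
        | apply bterm_opair
        | apply BPred.mem
        | apply BPred.eq
        | apply BPred.not
        | apply BPred.and
        | apply BPred.or
        | apply BPred.iff
        | apply BPred.imp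
        | refine BPred.ex ?_
        | refine BPred.all ?_
    · intro h _ α f hf
      rw [has_chainN_iff] at hf
      subst hf
      exact isFun_realN (fun i => fB_part hem α i) h
  · intro a b f g ha hb hab hf hg
    refine forall_full2 (B := B) (fun α : κ => vN α) (fun α : κ => vN α)
      (P := fun h a b => ∀ f g, E h a b → Has (E h) (Mdl.mk h (chainN em)) [a, f] →
        Has (E h) (Mdl.mk h (chainN em)) [b, g] → EvLt (E h) (Mdl.mk h (omN B)) f g) ?_ ⊤ ?_
      h h.top' a ha b hb f g hab hf hg
    · intro Γ _ f1 f2 h1 h2
      repeat' first
        | apply bterm_opair
        | exact BMap.id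
        | apply BMap.fst
        | apply BMap.snd
        | apply BTerm.cmp h1
        | apply BTerm.cmp h2
        | exact BTerm.const _
        | apply BTerm.of
        | apply bp_relT2
        | apply bp_isCocycle2
        | apply bp_isCochain2
        | apply bp_relC
        | apply bp_relP
        | apply bp_relT
        | apply bp_relB
        | apply bp_relA
        | apply bp_isMeet
        | apply bp_isPt
        | apply bp_inStar
        | apply bp_ptLe
        | apply bp_evLt
        | apply bp_evLe
        | apply bp_inI
        | apply bp_leN
        | apply bp_isUPair
        | apply bp_isPair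
        | apply bp_isFun
        | apply bp_has2
        | apply bp_has3
        | apply bp_has4
        | apply bp_has5
        | apply bp_has6
        | apply bterm_opair
        | apply BPred.mem
        | apply BPred.eq
        | apply BPred.not
        | apply BPred.and
        | apply BPred.or
        | apply BPred.iff
        | apply BPred.imp
        | refine BPred.ex ?_
        | refine BPred.all ?_
    · intro h _ α β f g hαβ hf hg
      rw [E_vN_vN] at hαβ
      rw [has_chainN_iff] at hf hg
      subst hf hg
      exact evLt_rl hem hαβ h

end chain

end Pool.Agent.MP63050e
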