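import Pool.Agent.MP_63050e_lc.D8

/-! The facts on the models that are used by the algebra. -/

set_option linter.unusedVariables false
set_option linter.unusedSectionVars false
set_option linter.unreachableTactic false
set_option linter.unusedTactic false

namespace Pool.Agent.MP63050e

open BVM BName SetModel

universe v

section world

variable {κ : Type} [LinearOrder κ] [WellFoundedLT κ] {B : Type} [CompleteBooleanAlgebra B]

theorem has2_iff {h : Ult B} {R a b : Mdl h} : Has (E h) R [a, b] ↔ E h (pr h a b) R :=
  has_iff (by simp)

theorem omFacts (h : Ult B) : OmFacts (E h) (Mdl.mk h (omN B)) where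
  tri := by
    intro a b ha hb
    refine forall_full2 (B := B) (fun n : ℕ => vN n) (fun n : ℕ => vN n)
      (P := fun h a b => E h a b ∨ a = b ∨ E h b a) ?_ ⊤ ?_ h h.top' a ha b hb
    · intro Γ _ f1 f2 h1 h2
      repeat' first
        | apply bterm_opair
        | exact BMap.id
        | apply BMap.fst
        | apply BMap.snd
        | apply BTerm.cmp h1
        | apply BTerm.cmp h2
        | exact BTerm.const _
        | apply BTerm.of
        | apply bp_relT2
        | apply bp_isCocycle2
        | apply bp_isCochain2
        | apply bp_relC
        | apply bp_relP
        | apply bp_relT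
        | apply bp_relB
        | apply bp_relA
        | apply bp_isMeet
        | apply bp_isPt
        | apply bp_inStar
        | apply bp_ptLe
        | apply bp_evLt
        | apply bp_evLe
        | apply bp_inI
        | apply bp_leN
        | apply bp_isUPair
        | apply bp_isPair
        | apply bp_isFun
        | apply bp_has2
        | apply bp_has3
        | apply bp_has4
        | apply bp_has5
        | apply bp_has6
        | apply bterm_opair
        | apply BPred.mem
        | apply BPred.eq
        | apply BPred.not
        | apply BPred.and
        | apply BPred.or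
        | apply BPred.iff
        | apply BPred.imp
        | refine BPred.ex ?_
        | refine BPred.all ?_
    · intro h _ m n
      rw [E_vN_vN, E_vN_vN, vN_inj]
      exact lt_trichotomy m n
  tr := fun a b c hab hbc hc => (isOmega h).1.2 c hc b a hbc hab
  mem := fun a b hab hb => (isOmega h).1.1 b a hb hab
  irr := by
    intro a ha
    refine forall_full (P := fun h a => ¬ E h a a) (fun n : ℕ => vN n) ?_ ⊤ ?_ h h.top' a ha
    · repeat' first
        | apply bterm_opair
        | exact BMap.id
        | apply BMap.fst
        | apply BMap.snd
        | exact BTerm.const _
        | apply BTerm.of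
        | apply bp_relT2
        | apply bp_isCocycle2
        | apply bp_isCochain2
        | apply bp_relC
        | apply bp_relP
        | apply bp_relT
        | apply bp_relB
        | apply bp_relA
        | apply bp_isMeet
        | apply bp_isPt
        | apply bp_inStar
        | apply bp_ptLe
        | apply bp_evLt
        | apply bp_evLe
        | apply bp_inI
        | apply bp_leN
        | apply bp_isUPair
        | apply bp_isPair
        | apply bp_isFun
        | apply bp_has2
        | apply bp_has3
        | apply bp_has4
        | apply bp_has5
        | apply bp_has6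
        | apply bterm_opair
        | apply BPred.mem
        | apply BPred.eq
        | apply BPred.not
        | apply BPred.and
        | apply BPred.or
        | apply BPred.iff
        | apply BPred.imp
        | refine BPred.ex ?_
        | refine BPred.all ?_
    · intro h _ n
      rw [E_vN_vN]
      exact lt_irrefl n
  succ := fun a ha => (isOmega h).2.2.1 a ha
  ne := ⟨_, (isOmega h).2.1.choose_spec.2⟩
  fm := by
    intro f x y i m hf hi hm
    rw [has2_iff] at hm
    obtain ⟨a, b, ha, hb, hab⟩ := hf.1 _ hm
    rw [isPair_iff, pr_inj] at hab
    rw [hab.2]
    exact hb

theorem fun_ext {h : Ult B} {f g : Mdl h}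
    (hf : IsFun (E h) f (Mdl.mk h (omN B)) (Mdl.mk h (omN B)))
    (hg : IsFun (E h) g (Mdl.mk h (omN B)) (Mdl.mk h (omN B)))
    (H : ∀ i j, InI (E h) (Mdl.mk h (omN B)) f i j ↔ InI (E h) (Mdl.mk h (omN B)) g i j) :
    f = g := by
  have key : ∀ f g : Mdl h, IsFun (E h) f (Mdl.mk h (omN B)) (Mdl.mk h (omN B)) →
      IsFun (E h) g (Mdl.mk h (omN B)) (Mdl.mk h (omN B)) →
      (∀ i j, InI (E h) (Mdl.mk h (omN B)) f i j ↔ InI (E h) (Mdl.mk h (omN B)) g i j) →
      ∀ z, E h z f → E h z g := by
    intro f g hf hg H z hz
    obtain ⟨a, b, ha, hb, hab⟩ := hf.1 z hz
    rw [isPair_iff] at hab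
    subst hab
    obtain ⟨b', hb'⟩ := fun_val hg ha
    have : b = b' := by
      apply Mdl.ext
      intro t
      constructor
      · intro ht
        obtain ⟨-, m, hm, htm⟩ := (H a t).1 ⟨ha, b, has2_iff.2 hz, ht⟩
        rw [fun_uniq hg ha hb' hm]
        exact htm
      · intro ht
        obtain ⟨-, m, hm, htm⟩ := (H a t).2 ⟨ha, b', hb', ht⟩
        rw [fun_uniq hf ha (has2_iff.2 hz) hm]
        exact htm
    rw [this]
    exact has2_iff.1 hb'
  apply Mdl.ext
  intro z
  exact ⟨key f g hf hg H z, key g f hg hf (fun i j => (H i j).symm) z⟩

theorem exists_fun {h : Ult B} {R : Mdl h → Mdl h → Prop}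
    (hR : BPred (fun _ : Unit => h)
      (fun _ (p : (((BName B × BName B) × BName B) × BName B)) =>
        R (Mdl.mk h p.1.1.2) (Mdl.mk h p.2)))
    (hex : ∀ a, E h a (Mdl.mk h (omN B)) → ∃ b, E h b (Mdl.mk h (omN B)) ∧
      ∀ z, E h z b ↔ R a z) :
    ∃ f, IsFun (E h) f (Mdl.mk h (omN B)) (Mdl.mk h (omN B)) ∧
      ∀ a z, InI (E h) (Mdl.mk h (omN B)) f a z ↔ E h a (Mdl.mk h (omN B)) ∧ R a z := by
  obtain ⟨D, hD⟩ := exists_prod (Mdl.mk h (omN B)) (Mdl.mk h (omN B))
  obtain ⟨D, rfl⟩ := D.exists_rep
  obtain ⟨f, hf⟩ := separation_name (H := fun _ : Unit => h)
    (D := fun _ t => ∃ a b, t = pr h a b ∧ E h a (Mdl.mk h (omN B)) ∧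
      E h b (Mdl.mk h (omN B)) ∧ ∀ z, E h z b ↔ R a z) (by
    refine BPred.ex (BPred.ex (BPred.and ?_ (BPred.and ?_ (BPred.and ?_ (BPred.all
      (BPred.iff ?_ hR))))))
    · refine (BPred.eq (H := fun _ : Unit => h) (f := fun p => p.1.1)
        (g := fun p => opair p.1.2 p.2) ?_ ?_).congr fun _ p => Iff.rfl
      · repeat' first
          | apply bterm_opair
          | exact BMap.id
          | apply BMap.fst
          | apply BMap.snd
          | exact BTerm.const _
          | apply BTerm.of
          | apply bp_relT2
          | apply bp_isCocycle2
          | apply bp_isCochain2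
          | apply bp_relC
          | apply bp_relP
          | apply bp_relT
          | apply bp_relB
          | apply bp_relA
          | apply bp_isMeet
          | apply bp_isPt
          | apply bp_inStar
          | apply bp_ptLe
          | apply bp_evLt
          | apply bp_evLe
          | apply bp_inI
          | apply bp_leN
          | apply bp_isUPair
          | apply bp_isPair
          | apply bp_isFun
          | apply bp_has2
          | apply bp_has3
          | apply bp_has4
          | apply bp_has5
          | apply bp_has6
          | apply bterm_opair
          | apply BPred.mem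
          | apply BPred.eq
          | apply BPred.not
          | apply BPred.and
          | apply BPred.or
          | apply BPred.iff
          | apply BPred.imp
          | refine BPred.ex ?_
          | refine BPred.all ?_
      · repeat' first
          | apply bterm_opair
          | exact BMap.id
          | apply BMap.fst
          | apply BMap.snd
          | exact BTerm.const _
          | apply BTerm.of
          | apply bp_relT2
          | apply bp_isCocycle2
          | apply bp_isCochain2
          | apply bp_relC
          | apply bp_relP
          | apply bp_relT
          | apply bp_relB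
          | apply bp_relA
          | apply bp_isMeet
          | apply bp_isPt
          | apply bp_inStar
          | apply bp_ptLe
          | apply bp_evLt
          | apply bp_evLe
          | apply bp_inI
          | apply bp_leN
          | apply bp_isUPair
          | apply bp_isPair
          | apply bp_isFun
          | apply bp_has2
          | apply bp_has3
          | apply bp_has4
          | apply bp_has5
          | apply bp_has6
          | apply bterm_opair
          | apply BPred.mem
          | apply BPred.eq
          | apply BPred.not
          | apply BPred.and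
          | apply BPred.or
          | apply BPred.iff
          | apply BPred.imp
          | refine BPred.ex ?_
          | refine BPred.all ?_
    · repeat' first
        | apply bterm_opair
        | exact BMap.id
        | apply BMap.fst
        | apply BMap.snd
        | exact BTerm.const _
        | apply BTerm.of
        | apply bp_relT2
        | apply bp_isCocycle2
        | apply bp_isCochain2
        | apply bp_relC
        | apply bp_relP
        | apply bp_relT
        | apply bp_relB
        | apply bp_relA
        | apply bp_isMeet
        | apply bp_isPt
        | apply bp_inStar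
        | apply bp_ptLe
        | apply bp_evLt
        | apply bp_evLe
        | apply bp_inI
        | apply bp_leN
        | apply bp_isUPair
        | apply bp_isPair
        | apply bp_isFun
        | apply bp_has2
        | apply bp_has3
        | apply bp_has4
        | apply bp_has5
        | apply bp_has6
        | apply bterm_opair
        | apply BPred.mem
        | apply BPred.eq
        | apply BPred.not
        | apply BPred.and
        | apply BPred.or
        | apply BPred.iff
        | apply BPred.imp
        | refine BPred.ex ?_
        | refine BPred.all ?_
    · repeat' first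
        | apply bterm_opair
        | exact BMap.id
        | apply BMap.fst
        | apply BMap.snd
        | exact BTerm.const _
        | apply BTerm.of
        | apply bp_relT2
        | apply bp_isCocycle2
        | apply bp_isCochain2
        | apply bp_relC
        | apply bp_relP
        | apply bp_relT
        | apply bp_relB
        | apply bp_relA
        | apply bp_isMeet
        | apply bp_isPt
        | apply bp_inStar
        | apply bp_ptLe
        | apply bp_evLt
        | apply bp_evLe
        | apply bp_inI
        | apply bp_leN
        | apply bp_isUPair
        | apply bp_isPair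
        | apply bp_isFun
        | apply bp_has2
        | apply bp_has3
        | apply bp_has4
        | apply bp_has5
        | apply bp_has6
        | apply bterm_opair
        | apply BPred.mem
        | apply BPred.eq
        | apply BPred.not
        | apply BPred.and
        | apply BPred.or
        | apply BPred.iff
        | apply BPred.imp
        | refine BPred.ex ?_
        | refine BPred.all ?_
    · repeat' first
        | apply bterm_opair
        | exact BMap.id
        | apply BMap.fst
        | apply BMap.snd
        | exact BTerm.const _
        | apply BTerm.of
        | apply bp_relT2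
        | apply bp_isCocycle2
        | apply bp_isCochain2
        | apply bp_relC
        | apply bp_relP
        | apply bp_relT
        | apply bp_relB
        | apply bp_relA
        | apply bp_isMeet
        | apply bp_isPt
        | apply bp_inStar
        | apply bp_ptLe
        | apply bp_evLt
        | apply bp_evLe
        | apply bp_inI
        | apply bp_leN
        | apply bp_isUPair
        | apply bp_isPair
        | apply bp_isFun
        | apply bp_has2
        | apply bp_has3
        | apply bp_has4
        | apply bp_has5
        | apply bp_has6
        | apply bterm_opair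
        | apply BPred.mem
        | apply BPred.eq
        | apply BPred.not
        | apply BPred.and
        | apply BPred.or
        | apply BPred.iff
        | apply BPred.imp
        | refine BPred.ex ?_
        | refine BPred.all ?_
    ) D
  have hf' : ∀ a b, E h (pr h a b) (Mdl.mk h f) ↔ E h a (Mdl.mk h (omN B)) ∧
      E h b (Mdl.mk h (omN B)) ∧ ∀ z, E h z b ↔ R a z := by
    intro a b
    rw [hf ()]
    constructor
    · rintro ⟨-, a', b', hab, h1⟩
      rw [pr_inj] at hab
      obtain ⟨rfl, rfl⟩ := hab
      exact h1
    · rintro ⟨h1, h2, h3⟩
      exact ⟨hD a b h1 h2, a, b, rfl, h1, h2, h3⟩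
  refine ⟨Mdl.mk h f, ⟨fun p hp => ?_, fun a ha => ?_⟩, fun a z => ?_⟩
  · obtain ⟨-, a, b, rfl, h1, h2, h3⟩ := (hf () p).1 hp
    exact ⟨a, b, h1, h2, isPair_iff.2 rfl⟩
  · obtain ⟨b, hb, hb'⟩ := hex a ha
    refine ⟨b, has2_iff.2 ((hf' a b).2 ⟨ha, hb, hb'⟩), fun b' hb2 => ?_⟩
    have hb3 := (hf' a b').1 (has2_iff.1 hb2)
    apply Mdl.ext
    intro z
    rw [hb3.2.2, hb']
  · constructor
    · rintro ⟨ha, m, hm, hz⟩
      have := (hf' a m).1 (has2_iff.1 hm)
      exact ⟨ha, (this.2.2 z).1 hz⟩
    · rintro ⟨ha, hz⟩
      obtain ⟨b, hb, hb'⟩ := hex a ha
      exact ⟨ha, b, has2_iff.2 ((hf' a b).2 ⟨ha, hb, hb'⟩), (hb' z).2 hz⟩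

theorem world_of (em : PP κ → B) (h : Ult B) (c : Mdl h)
    (hg : IsAbGroup (E h) (Mdl.mk h (ZN B)) (Mdl.mk h (addN B)) (Mdl.mk h (zN 0)))
    (hch : IsChain (E h) (Mdl.mk h (omN B)) (Mdl.mk h (vNset B κ)) (Mdl.mk h (chainN em)))
    (hc : IsCochain2 (E h) (Mdl.mk h (omN B)) (Mdl.mk h (vNset B κ)) (Mdl.mk h (chainN em))
      (Mdl.mk h (ZN B)) (Mdl.mk h (zN 0)) c)
    (hcc : IsCocycle2 (E h) (Mdl.mk h (omN B)) (Mdl.mk h (vNset B κ)) (Mdl.mk h (chainN em))
      (Mdl.mk h (addN B)) c) :
    World (E h) (Mdl.mk h (omN B)) (Mdl.mk h (vNset B κ)) (Mdl.mk h (chainN em))
      (Mdl.mk h (ZN B)) (Mdl.mk h (addN B)) (Mdl.mk h (zN 0)) c where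
  om := omFacts h
  grp := hg
  chain := hch
  ktri := by
    intro a b ha hb
    refine forall_full2 (B := B) (fun α : κ => vN α) (fun α : κ => vN α)
      (P := fun h a b => E h a b ∨ a = b ∨ E h b a) ?_ ⊤ ?_ h h.top' a ha b hb
    · intro Γ _ f1 f2 h1 h2
      repeat' first
        | apply bterm_opair
        | exact BMap.id
        | apply BMap.fst
        | apply BMap.snd
        | apply BTerm.cmp h1
        | apply BTerm.cmp h2
        | exact BTerm.const _
        | apply BTerm.of
        | apply bp_relT2
        | apply bp_isCocycle2
        | apply bp_isCochain2
        | apply bp_relC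
        | apply bp_relP
        | apply bp_relT
        | apply bp_relB
        | apply bp_relA
        | apply bp_isMeet
        | apply bp_isPt
        | apply bp_inStar
        | apply bp_ptLe
        | apply bp_evLt
        | apply bp_evLe
        | apply bp_inI
        | apply bp_leN
        | apply bp_isUPair
        | apply bp_isPair
        | apply bp_isFun
        | apply bp_has2
        | apply bp_has3
        | apply bp_has4
        | apply bp_has5
        | apply bp_has6
        | apply bterm_opair
        | apply BPred.mem
        | apply BPred.eq
        | apply BPred.not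
        | apply BPred.and
        | apply BPred.or
        | apply BPred.iff
        | apply BPred.imp
        | refine BPred.ex ?_
        | refine BPred.all ?_
    · intro h _ m n
      rw [E_vN_vN, E_vN_vN, vN_inj]
      exact lt_trichotomy m n
  kmin := by
    intro f hf
    obtain ⟨f, rfl⟩ := f.exists_rep
    obtain ⟨S, hS⟩ := separation_name (H := fun _ : Unit => h)
      (D := fun _ a => ∃ g, Has (E h) (Mdl.mk h (chainN em)) [a, g] ∧
        EvLe (E h) (Mdl.mk h (omN B)) (Mdl.mk h f) g) (by
      repeat' first
        | apply bterm_opair
        | exact BMap.id
        | apply BMap.fst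
        | apply BMap.snd
        | exact BTerm.const _
        | apply BTerm.of
        | apply bp_relT2
        | apply bp_isCocycle2
        | apply bp_isCochain2
        | apply bp_relC
        | apply bp_relP
        | apply bp_relT
        | apply bp_relB
        | apply bp_relA
        | apply bp_isMeet
        | apply bp_isPt
        | apply bp_inStar
        | apply bp_ptLe
        | apply bp_evLt
        | apply bp_evLe
        | apply bp_inI
        | apply bp_leN
        | apply bp_isUPair
        | apply bp_isPair
        | apply bp_isFun
        | apply bp_has2
        | apply bp_has3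
        | apply bp_has4
        | apply bp_has5
        | apply bp_has6
        | apply bterm_opair
        | apply BPred.mem
        | apply BPred.eq
        | apply BPred.not
        | apply BPred.and
        | apply BPred.or
        | apply BPred.iff
        | apply BPred.imp
        | refine BPred.ex ?_
        | refine BPred.all ?_
      ) (vNset B κ)
    obtain ⟨-, a, g, ha, hag, hle⟩ := hf
    obtain ⟨a, haS, hmin⟩ := foundation (Mdl.mk h S) ⟨a, (hS () a).2 ⟨ha, g, hag, hle⟩⟩
    obtain ⟨hak, g, hag, hle⟩ := (hS () a).1 haS
    exact ⟨a, g, hak, hag, hle, fun b hbk hba g' hbg hle' =>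
      hmin b hba ((hS () b).2 ⟨hbk, g', hbg, hle'⟩)⟩
  ext := fun f g hf hg H => fun_ext hf hg H
  pt := by
    intro i j hi hj
    obtain ⟨i, rfl⟩ := i.exists_rep
    obtain ⟨j, rfl⟩ := j.exists_rep
    obtain ⟨f, hf, hf'⟩ := exists_fun (h := h)
      (R := fun a z => a = Mdl.mk h i ∧ LeN (E h) z (Mdl.mk h j)) (by
        repeat' first
          | apply bterm_opair
          | exact BMap.id
          | apply BMap.fst
          | apply BMap.snd
          | exact BTerm.const _
          | apply BTerm.of
          | apply bp_relT2
          | apply bp_isCocycle2
          | apply bp_isCochain2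
          | apply bp_relC
          | apply bp_relP
          | apply bp_relT
          | apply bp_relB
          | apply bp_relA
          | apply bp_isMeet
          | apply bp_isPt
          | apply bp_inStar
          | apply bp_ptLe
          | apply bp_evLt
          | apply bp_evLe
          | apply bp_inI
          | apply bp_leN
          | apply bp_isUPair
          | apply bp_isPair
          | apply bp_isFun
          | apply bp_has2
          | apply bp_has3
          | apply bp_has4
          | apply bp_has5
          | apply bp_has6
          | apply bterm_opair
          | apply BPred.mem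
          | apply BPred.eq
          | apply BPred.not
          | apply BPred.and
          | apply BPred.or
          | apply BPred.iff
          | apply BPred.imp
          | refine BPred.ex ?_
          | refine BPred.all ?_
        ) (by
        intro a ha
        by_cases hai : a = Mdl.mk h i
        · obtain ⟨s, hs, hs'⟩ := (omFacts h).succ _ hj
          refine ⟨s, hs, fun z => ?_⟩
          rw [hs']
          exact ⟨fun hz => ⟨hai, hz⟩, fun hz => hz.2⟩
        · obtain ⟨e, he, hew⟩ := (isOmega h).2.1
          exact ⟨e, hew, fun z => ⟨fun hz => absurd hz (he z), fun hz => absurd hz.1 hai⟩⟩)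
    refine ⟨f, hf, fun i' j' => ?_⟩
    rw [hf']
    constructor
    · exact fun hh => hh.2
    · rintro ⟨rfl, h2⟩
      exact ⟨hi, rfl, h2⟩
  meet := by
    intro f g hf hg'
    obtain ⟨f, rfl⟩ := f.exists_rep
    obtain ⟨g, rfl⟩ := g.exists_rep
    have om := omFacts h
    obtain ⟨m, hm, hm'⟩ := exists_fun (h := h)
      (R := fun a z => InI (E h) (Mdl.mk h (omN B)) (Mdl.mk h f) a z ∧
        InI (E h) (Mdl.mk h (omN B)) (Mdl.mk h g) a z) (by
        repeat' first
          | apply bterm_opair
          | exact BMap.id
          | apply BMap.fst
          | apply BMap.snd
          | exact BTerm.const _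
          | apply BTerm.of
          | apply bp_relT2
          | apply bp_isCocycle2
          | apply bp_isCochain2
          | apply bp_relC
          | apply bp_relP
          | apply bp_relT
          | apply bp_relB
          | apply bp_relA
          | apply bp_isMeet
          | apply bp_isPt
          | apply bp_inStar
          | apply bp_ptLe
          | apply bp_evLt
          | apply bp_evLe
          | apply bp_inI
          | apply bp_leN
          | apply bp_isUPair
          | apply bp_isPair
          | apply bp_isFun
          | apply bp_has2
          | apply bp_has3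
          | apply bp_has4
          | apply bp_has5
          | apply bp_has6
          | apply bterm_opair
          | apply BPred.mem
          | apply BPred.eq
          | apply BPred.not
          | apply BPred.and
          | apply BPred.or
          | apply BPred.iff
          | apply BPred.imp
          | refine BPred.ex ?_
          | refine BPred.all ?_
        ) (by
        intro a ha
        obtain ⟨m, hm⟩ := fun_val hf ha
        obtain ⟨n, hn⟩ := fun_val hg' ha
        have hmw := om.fm _ _ _ _ _ hf ha hm
        have hnw := om.fm _ _ _ _ _ hg' ha hn
        have e1 : ∀ z, InI (E h) (Mdl.mk h (omN B)) (Mdl.mk h f) a z ↔ E h z m := by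
          intro z
          constructor
          · rintro ⟨-, m', hm', hz⟩
            rw [fun_uniq hf ha hm hm']
            exact hz
          · intro hz
            exact ⟨ha, m, hm, hz⟩
        have e2 : ∀ z, InI (E h) (Mdl.mk h (omN B)) (Mdl.mk h g) a z ↔ E h z n := by
          intro z
          constructor
          · rintro ⟨-, m', hm', hz⟩
            rw [fun_uniq hg' ha hn hm']
            exact hz
          · intro hz
            exact ⟨ha, n, hn, hz⟩
        rcases om.tri m n hmw hnw with h1 | h1 | h1
        · refine ⟨m, hmw, fun z => ?_⟩
          rw [e1, e2]
          exact ⟨fun hz => ⟨hz, om.tr _ _ _ hz h1 hnw⟩, fun hz => hz.1⟩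
        · subst h1
          refine ⟨m, hmw, fun z => ?_⟩
          rw [e1, e2, and_self]
        · refine ⟨n, hnw, fun z => ?_⟩
          rw [e1, e2]
          exact ⟨fun hz => ⟨om.tr _ _ _ hz h1 hmw, hz⟩, fun hz => hz.2⟩)
    refine ⟨m, hm, fun i j => ?_⟩
    rw [hm']
    exact ⟨fun hh => hh.2, fun hh => ⟨hh.1.1, hh⟩⟩
  coch := hc
  coc := hcc

end world

end Pool.Agent.MP63050e
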