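import Pool.Agent.Lib.helper63.ZFCDef

/-! The set theoretic vocabulary of the statement, interpreted in a model `(M, E)` of ZFC.
All quantifiers range over the model. -/

namespace Pool.Agent.MP63050e

universe u

variable {M : Type u} (E : M → M → Prop)

/-- `p = {a, b}`. -/
def IsUPair (p a b : M) : Prop := ∀ z, E z p ↔ z = a ∨ z = b

/-- `p` is the Kuratowski pair `(a, b) = {{a}, {a, b}}`. -/
def IsPair (p a b : M) : Prop := ∃ s t, IsUPair E s a a ∧ IsUPair E t a b ∧ IsUPair E p s t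

/-- `t` is the tuple `(a₁, (a₂, (…, aₙ)))` of the entries of a list `[a₁, …, aₙ]`, `n ≥ 1`. -/
def IsTuple : M → List M → Prop
  | _, [] => False
  | t, [a] => t = a
  | t, a :: b :: l => ∃ s, IsTuple s (b :: l) ∧ IsPair E t a s

/-- The tuple with entries `l` is an element of `R`. -/
def Has (R : M) (l : List M) : Prop := ∃ t, IsTuple E t l ∧ E t R

/-- `f` is a function from `x` to `y`. -/
def IsFun (f x y : M) : Prop :=
  (∀ p, E p f → ∃ a b, E a x ∧ E b y ∧ IsPair E p a b) ∧ ∀ a, E a x → ∃! b, Has E f [a, b]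

/-- `x` is a transitive set. -/
def IsTrans (x : M) : Prop := ∀ y z, E y x → E z y → E z x

/-- `x` is an ordinal: a transitive set of transitive sets. -/
def IsOrd (x : M) : Prop := IsTrans E x ∧ ∀ y, E y x → IsTrans E y

/-- `e` is the empty set. -/
def IsEmp (e : M) : Prop := ∀ z, ¬ E z e

/-- `y = x ∪ {x}`. -/
def IsSucc (y x : M) : Prop := ∀ z, E z y ↔ E z x ∨ z = x

/-- `w` is the ordinal `ω`: an ordinal which contains `0`, is closed under successors, and all of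
whose elements are `0` or successors of elements of `w`. -/
def IsOmega (w : M) : Prop :=
  IsOrd E w ∧ (∃ e, IsEmp E e ∧ E e w) ∧ (∀ x, E x w → ∃ y, E y w ∧ IsSucc E y x) ∧
    ∀ x, E x w → IsEmp E x ∨ ∃ y, E y w ∧ IsSucc E x y

/-- There is an injective function from `x` to `y`. -/
def Injects (x y : M) : Prop :=
  ∃ f, IsFun E f x y ∧ ∀ a a' b, E a x → E a' x → Has E f [a, b] → Has E f [a', b] → a = a'

/-- `k` is the least ordinal which does not inject into `k₀`. -/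
def IsNext (k k₀ : M) : Prop := IsOrd E k ∧ (∀ a, E a k → Injects E a k₀) ∧ ¬ Injects E k k₀

/-- `k = ω₁`: the least ordinal which does not inject into `ω`. -/
def IsOmega1 (k : M) : Prop := ∃ w, IsOmega E w ∧ IsNext E k w

/-- `k = ω₂`: the least ordinal which does not inject into `ω₁`. -/
def IsOmega2 (k : M) : Prop := ∃ k₁, IsOmega1 E k₁ ∧ IsNext E k k₁

/-- `(Z, add)` is an abelian group with neutral element `zero`; `add` is the set of the triples
`(x, y, x + y)`. -/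
def IsAbGroup (Z add zero : M) : Prop :=
  (∀ x y, E x Z → E y Z → ∃ z, E z Z ∧ ∀ z', Has E add [x, y, z'] ↔ z' = z) ∧
  E zero Z ∧ (∀ x, E x Z → Has E add [x, zero, x]) ∧
  (∀ x, E x Z → ∃ y, E y Z ∧ Has E add [x, y, zero]) ∧
  (∀ x y s, E x Z → E y Z → Has E add [x, y, s] → Has E add [y, x, s]) ∧
  (∀ x y z s t u, E x Z → E y Z → E z Z → Has E add [x, y, s] → Has E add [s, z, t] →
    Has E add [y, z, u] → Has E add [x, u, t])

/-- `(Z, add, zero)` is (isomorphic to) the group of integers: there are `g ∈ Z` and an injective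
map `n ↦ n g` from `w = ω` to `Z` with `0 g = zero`, `(n + 1) g = n g + g`, such that every element
of `Z` is of the form `n g` or `- n g`. -/
def IsIntegers (w Z add zero : M) : Prop :=
  IsAbGroup E Z add zero ∧ ∃ g m, E g Z ∧ IsFun E m w Z ∧
    (∀ n n' x, E n w → E n' w → Has E m [n, x] → Has E m [n', x] → n = n') ∧
    (∀ e, IsEmp E e → Has E m [e, zero]) ∧
    (∀ n n' x y, E n w → IsSucc E n' n → Has E m [n, x] → Has E m [n', y] →
      Has E add [x, g, y]) ∧
    ∀ x, E x Z → ∃ n y, E n w ∧ Has E m [n, y] ∧ (x = y ∨ Has E add [x, y, zero])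

/-- `i ≤ j` for natural numbers (or ordinals). -/
def LeN (i j : M) : Prop := E i j ∨ i = j

/-- `f <* g`: `f(i) < g(i)` for all but finitely many `i`, i.e. for all `i ≥ N` for some `N`. -/
def EvLt (w f g : M) : Prop :=
  ∃ N, E N w ∧ ∀ i m n, E i w → LeN E N i → Has E f [i, m] → Has E g [i, n] → E m n

/-- `f ≤* g`: `f(i) ≤ g(i)` for all but finitely many `i`. -/
def EvLe (w f g : M) : Prop :=
  ∃ N, E N w ∧ ∀ i m n, E i w → LeN E N i → Has E f [i, m] → Has E g [i, n] → LeN E m n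

/-- `f ≤ g`: `f(i) ≤ g(i)` for all `i`. -/
def PtLe (w f g : M) : Prop :=
  ∀ i m n, E i w → Has E f [i, m] → Has E g [i, n] → LeN E m n

/-- `F = (F(a))_{a < k}` is a `k`-chain in `(ω^ω, <*)`. -/
def IsChain (w k F : M) : Prop :=
  (∃ Y, IsFun E F k Y) ∧ (∀ a f, E a k → Has E F [a, f] → IsFun E f w w) ∧
  ∀ a b f g, E a k → E b k → E a b → Has E F [a, f] → Has E F [b, g] → EvLt E w f g

/-- `g` belongs to `F* = {g ∈ ω^ω : g ≤* F(a) for some a < k}`. -/
def InStar (w k F g : M) : Prop := IsFun E g w w ∧ ∃ a f, E a k ∧ Has E F [a, f] ∧ EvLe E w g f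

/-- `(i, j) ∈ I_f = {(i, j) : j < f(i)}`. -/
def InI (w f i j : M) : Prop := E i w ∧ ∃ m, Has E f [i, m] ∧ E j m

/-- The map `(i, j) ↦ c(l, i, j)` is an element of `A_f = ⊕_i Z^{f(i)}`, i.e. a `Z`-valued
function on `I_f` which vanishes at all but finitely many points (equivalently: at all points of
`I_f` in the columns `i ≥ N`, for some `N`). Here `c` is a set of tuples `(l, i, j, value)`. -/
def IsElt (w Z zero f c : M) (l : List M) : Prop :=
  (∀ i j, InI E w f i j → ∃ z, E z Z ∧ ∀ z', Has E c (l ++ [i, j, z']) ↔ z' = z) ∧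
  ∃ N, E N w ∧ ∀ i j, LeN E N i → InI E w f i j → Has E c (l ++ [i, j, zero])

/-- `b` is a `1`-cochain of the Roos complex of the inverse system `A^F` over `(F*, ≤)`:
an element of the product of the groups `A_{f₀}` over all `f₀ ≤ f₁` in `F*`. -/
def IsCochain1 (w k F Z zero b : M) : Prop :=
  ∀ f₀ f₁, InStar E w k F f₀ → InStar E w k F f₁ → PtLe E w f₀ f₁ →
    IsElt E w Z zero f₀ b [f₀, f₁]

/-- `c` is a `2`-cochain of the Roos complex of the inverse system `A^F` over `(F*, ≤)`: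
an element of the product of the groups `A_{f₀}` over all `f₀ ≤ f₁ ≤ f₂` in `F*`. -/
def IsCochain2 (w k F Z zero c : M) : Prop :=
  ∀ f₀ f₁ f₂, InStar E w k F f₀ → InStar E w k F f₁ → InStar E w k F f₂ → PtLe E w f₀ f₁ →
    PtLe E w f₁ f₂ → IsElt E w Z zero f₀ c [f₀, f₁, f₂]

/-- The `2`-cochain `c` is a cocycle: for `f₀ ≤ f₁ ≤ f₂ ≤ f₃` in `F*` one has
`c(f₁,f₂,f₃) - c(f₀,f₂,f₃) + c(f₀,f₁,f₃) - c(f₀,f₁,f₂) = 0` on `I_{f₀}`
(the first term being restricted from `I_{f₁}` to `I_{f₀}`). -/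
def IsCocycle2 (w k F add c : M) : Prop :=
  ∀ f₀ f₁ f₂ f₃, InStar E w k F f₀ → InStar E w k F f₁ → InStar E w k F f₂ →
    InStar E w k F f₃ → PtLe E w f₀ f₁ → PtLe E w f₁ f₂ → PtLe E w f₂ f₃ →
    ∀ i j, InI E w f₀ i j → ∀ z₀ z₁ z₂ z₃, Has E c [f₁, f₂, f₃, i, j, z₀] →
      Has E c [f₀, f₂, f₃, i, j, z₁] → Has E c [f₀, f₁, f₃, i, j, z₂] →
      Has E c [f₀, f₁, f₂, i, j, z₃] → ∃ s, Has E add [z₀, z₂, s] ∧ Has E add [z₁, z₃, s]

/-- `c` is the coboundary of `b`: for `f₀ ≤ f₁ ≤ f₂` in `F*` one has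
`c(f₀,f₁,f₂) = b(f₁,f₂) - b(f₀,f₂) + b(f₀,f₁)` on `I_{f₀}`. -/
def IsCobound (w k F add b c : M) : Prop :=
  ∀ f₀ f₁ f₂, InStar E w k F f₀ → InStar E w k F f₁ → InStar E w k F f₂ → PtLe E w f₀ f₁ →
    PtLe E w f₁ f₂ → ∀ i j, InI E w f₀ i j → ∀ x₀ x₁ x₂ z, Has E b [f₁, f₂, i, j, x₀] →
      Has E b [f₀, f₂, i, j, x₁] → Has E b [f₀, f₁, i, j, x₂] →
      Has E c [f₀, f₁, f₂, i, j, z] → ∃ s, Has E add [x₀, x₂, s] ∧ Has E add [x₁, z, s]

/-- `lim² A^F = 0`: in the Roos complex of the inverse system `A^F` over `(F*, ≤)`, which computes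
the derived limits, every `2`-cocycle is a coboundary. -/
def LimTwoZero (w k F Z add zero : M) : Prop :=
  ∀ c, IsCochain2 E w k F Z zero c → IsCocycle2 E w k F add c →
    ∃ b, IsCochain1 E w k F Z zero b ∧ IsCobound E w k F add b c

end Pool.Agent.MP63050e
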